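import Pool.Agent.H48.BN.Data

set_option autoImplicit false

/-!
# The first splitting of `x ^ (2 m) - y ^ (2 m) = z ^ N`
-/

namespace Pool.Agent.H48.BN

theorem nat_pow_of_mul {a b c k : ℕ} (hc : Nat.Coprime a b) (h : a * b = c ^ k) :
    ∃ d, a = d ^ k := by
  have hu : IsUnit (gcd a b) := by
    rw [gcd_eq_nat_gcd]; exact Nat.isUnit_iff.2 hc
  exact exists_eq_pow_of_mul_eq_pow hu h

theorem nat_pow_of_mul' {a b c k : ℕ} (hc : Nat.Coprime a b) (h : a * b = c ^ k) :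
    ∃ d, b = d ^ k := by
  rw [mul_comm] at h
  exact nat_pow_of_mul hc.symm h

theorem coprime_xy {n x y z N : ℕ} (hn : 0 < n)
    (hg : Nat.gcd (Nat.gcd x y) z = 1) (h : x ^ n = y ^ n + z ^ N) : Nat.Coprime x y := by
  apply Nat.Coprime.symm
  rw [Nat.coprime_iff_gcd_eq_one]
  by_contra hne
  obtain ⟨p, hp, hpd⟩ := Nat.exists_prime_and_dvd hne
  have hpy : p ∣ y := hpd.trans (Nat.gcd_dvd_left _ _)
  have hpx : p ∣ x := hpd.trans (Nat.gcd_dvd_right _ _)
  have h1 : p ∣ x ^ n := dvd_pow hpx hn.ne'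
  have h2 : p ∣ y ^ n := dvd_pow hpy hn.ne'
  rw [h] at h1
  have h3 : p ∣ z ^ N := (Nat.dvd_add_right h2).1 h1
  have h4 : p ∣ z := hp.dvd_of_dvd_pow h3
  have : p ∣ Nat.gcd (Nat.gcd x y) z := Nat.dvd_gcd (Nat.dvd_gcd hpx hpy) h4
  rw [hg] at this
  exact hp.one_lt.ne' (Nat.dvd_one.1 this)

theorem y_lt_x {n x y z N : ℕ} (hz : 0 < z) (h : x ^ n = y ^ n + z ^ N) : y < x := by
  have h1 : y ^ n < x ^ n := by
    rw [h]; exact Nat.lt_add_of_pos_right (pow_pos hz N)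
  exact lt_of_pow_lt_pow_left₀ n (Nat.zero_le _) h1

theorem prod_eq {m x y z N : ℕ} (hxy : y < x) (h : x ^ (2 * m) = y ^ (2 * m) + z ^ N) :
    (x ^ m + y ^ m) * (x ^ m - y ^ m) = z ^ N := by
  rw [← Nat.sq_sub_sq, ← pow_mul, ← pow_mul, mul_comm m 2, h]
  exact Nat.add_sub_cancel_left _ _

/-- Splitting for odd `z`. -/
theorem split_odd {m x y z N : ℕ} (hm : 0 < m) (hxy : y < x) (hc : Nat.Coprime x y)
    (hz : Odd z) (h : x ^ (2 * m) = y ^ (2 * m) + z ^ N) :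
    (∃ v, x ^ m + y ^ m = v ^ N) ∧ (∃ u, x ^ m - y ^ m = u ^ N) := by
  have hp := prod_eq hxy h
  have hlt : y ^ m < x ^ m := Nat.pow_lt_pow_left hxy hm.ne'
  have hcop : Nat.Coprime (x ^ m + y ^ m) (x ^ m - y ^ m) := by
    rw [Nat.coprime_iff_gcd_eq_one]
    by_contra hne
    obtain ⟨p, hp', hpd⟩ := Nat.exists_prime_and_dvd hne
    have h1 : p ∣ x ^ m + y ^ m := hpd.trans (Nat.gcd_dvd_left _ _)
    have h2 : p ∣ x ^ m - y ^ m := hpd.trans (Nat.gcd_dvd_right _ _)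
    have hpz : p ∣ z := by
      apply hp'.dvd_of_dvd_pow (n := N)
      rw [← hp]; exact h1.mul_right _
    have hp2 : p ≠ 2 := by
      rintro rfl
      exact (Nat.not_even_iff_odd.2 hz) (even_iff_two_dvd.2 hpz)
    have h3 : p ∣ 2 * x ^ m := by
      have : 2 * x ^ m = (x ^ m + y ^ m) + (x ^ m - y ^ m) := by omega
      rw [this]; exact dvd_add h1 h2
    have h4 : p ∣ x ^ m := by
      rcases (hp'.dvd_mul).1 h3 with h | h
      · exact absurd ((Nat.prime_dvd_prime_iff_eq hp' Nat.prime_two).1 h) hp2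
      · exact h
    have h5 : p ∣ y ^ m := (Nat.dvd_add_right h4).1 h1
    have h6 : p ∣ Nat.gcd x y := Nat.dvd_gcd (hp'.dvd_of_dvd_pow h4) (hp'.dvd_of_dvd_pow h5)
    rw [hc] at h6
    exact hp'.one_lt.ne' (Nat.dvd_one.1 h6)
  exact ⟨nat_pow_of_mul hcop hp, nat_pow_of_mul' hcop hp⟩

/-- Splitting of `(2 c) * (2 d) = z ^ N`. -/
theorem split_even_aux {sa sb c d X Y m z N : ℕ} (ha : sa = 2 * c) (hb : sb = 2 * d)
    (hcd : Nat.Coprime X Y) (hc : c + d = X ^ m) (hd : c = d + Y ^ m ∨ d = c + Y ^ m)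
    (hodd : Odd c) (h : sa * sb = z ^ N) :
    (∃ U, sa = 2 * U ^ N) ∧ (∃ V, 2 * sb = V ^ N) := by
  have hcop : Nat.Coprime c (4 * d) := by
    rw [Nat.coprime_iff_gcd_eq_one]
    by_contra hne
    obtain ⟨p, hp', hpd⟩ := Nat.exists_prime_and_dvd hne
    have h1 : p ∣ c := hpd.trans (Nat.gcd_dvd_left _ _)
    have h2 : p ∣ 4 * d := hpd.trans (Nat.gcd_dvd_right _ _)
    have hp2 : p ≠ 2 := by
      rintro rfl
      exact (Nat.not_even_iff_odd.2 hodd) (even_iff_two_dvd.2 h1)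
    have h3 : p ∣ d := by
      rcases (hp'.dvd_mul).1 h2 with h | h
      · exfalso
        have : p ∣ 2 ^ 2 := by norm_num; exact h
        exact hp2 ((Nat.prime_dvd_prime_iff_eq hp' Nat.prime_two).1 (hp'.dvd_of_dvd_pow this))
      · exact h
    have h4 : p ∣ X ^ m := by rw [← hc]; exact dvd_add h1 h3
    have h5 : p ∣ Y ^ m := by
      rcases hd with hd | hd
      · rw [hd] at h1; exact (Nat.dvd_add_right h3).1 h1
      · rw [hd] at h3; exact (Nat.dvd_add_right h1).1 h3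
    have h6 : p ∣ Nat.gcd X Y := Nat.dvd_gcd (hp'.dvd_of_dvd_pow h4) (hp'.dvd_of_dvd_pow h5)
    rw [hcd] at h6
    exact hp'.one_lt.ne' (Nat.dvd_one.1 h6)
  have hprod : c * (4 * d) = z ^ N := by
    rw [← h, ha, hb]; ring
  obtain ⟨U, hU⟩ := nat_pow_of_mul hcop hprod
  obtain ⟨V, hV⟩ := nat_pow_of_mul' hcop hprod
  exact ⟨⟨U, by rw [ha, hU]⟩, ⟨V, by rw [← hV, hb]; ring⟩⟩

theorem quot_odd {x m b G : ℕ} {K : ℤ} (hm : Odd m) (hx : Odd x) (hb : Even b)
    (hG : (G : ℤ) = m * (x : ℤ) ^ (m - 1) + b * K) : Odd G := by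
  have h1 : Odd (m : ℤ) := by exact_mod_cast hm
  have h2 : Odd ((x : ℤ) ^ (m - 1)) := Odd.pow (by exact_mod_cast hx)
  have h3 : Even ((b : ℤ) * K) := by
    have : Even (b : ℤ) := by exact_mod_cast hb
    exact this.mul_right _
  have : Odd (G : ℤ) := by rw [hG]; exact (h1.mul h2).add_even h3
  exact_mod_cast this

/-- Splitting for even `z`. -/
theorem split_even {m x y z N : ℕ} (hm : Odd m) (hy : 0 < y) (hxy : y < x)
    (hc : Nat.Coprime x y) (hN : N ≠ 0)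
    (hz : Even z) (h : x ^ (2 * m) = y ^ (2 * m) + z ^ N) :
    (4 ∣ x - y ∧ (∃ P, Odd P ∧ x + y = 2 * P) ∧ (∃ U, x ^ m + y ^ m = 2 * U ^ N) ∧
      (∃ V, 2 * (x ^ m - y ^ m) = V ^ N)) ∨
    (4 ∣ x + y ∧ (∃ P, Odd P ∧ x - y = 2 * P) ∧ (∃ U, x ^ m - y ^ m = 2 * U ^ N) ∧
      (∃ V, 2 * (x ^ m + y ^ m) = V ^ N)) := by
  have hp := prod_eq hxy h
  have hm0 : m ≠ 0 := by rintro rfl; exact absurd hm (by decide)
  have hlt : y ^ m < x ^ m := Nat.pow_lt_pow_left hxy hm0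
  have hzN : Even (z ^ N) := (Nat.even_pow).2 ⟨hz, hN⟩
  have hpar : Odd x ∧ Odd y := by
    by_contra hcon
    have hpx : Even (x ^ (2 * m)) ↔ Even (y ^ (2 * m)) := by
      rw [h, Nat.even_add]; simp [hzN]
    have h2m : 2 * m ≠ 0 := by omega
    rw [Nat.even_pow' h2m, Nat.even_pow' h2m] at hpx
    by_cases hex : Even x
    · have hey := hpx.1 hex
      have := Nat.dvd_gcd (even_iff_two_dvd.1 hex) (even_iff_two_dvd.1 hey)
      rw [hc] at this; omega
    · have hey : ¬ Even y := fun h => hex (hpx.2 h)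
      exact hcon ⟨Nat.not_even_iff_odd.1 hex, Nat.not_even_iff_odd.1 hey⟩
  obtain ⟨hxo, hyo⟩ := hpar
  have hx0 : 0 < x := by omega
  have Sp := side_plus hm hx0 hy hc
  have Sm := side_minus hm hy hxy hc
  have hxmo : Odd (x ^ m) := hxo.pow
  have hymo : Odd (y ^ m) := hyo.pow
  obtain ⟨c, hc'⟩ : Even (x ^ m + y ^ m) := hxmo.add_odd hymo
  obtain ⟨d, hd'⟩ : Even (x ^ m - y ^ m) := Nat.Odd.sub_odd hxmo hymo
  obtain ⟨A, hA⟩ : Even (x + y) := hxo.add_odd hyo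
  obtain ⟨B, hB⟩ : Even (x - y) := Nat.Odd.sub_odd hxo hyo
  have hAB : A + B = x := by omega
  obtain ⟨Gp, hGp, hsp, Kp, hKp⟩ := Sp.quot
  obtain ⟨Gm, hGm, hsm, Km, hKm⟩ := Sm.quot
  have hGpo : Odd Gp := quot_odd hm hxo ⟨A, hA⟩ hKp
  have hGmo : Odd Gm := quot_odd hm hxo ⟨B, hB⟩ hKm
  have hcA : c = A * Gp := by
    have : 2 * c = 2 * (A * Gp) := by
      have h1 : x ^ m + y ^ m = (A + A) * Gp := by rw [hsp, hA]
      rw [hc'] at h1; linarith
    omega
  have hdB : d = B * Gm := by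
    have : 2 * d = 2 * (B * Gm) := by
      have h1 : x ^ m - y ^ m = (B + B) * Gm := by rw [hsm, hB]
      rw [hd'] at h1; linarith
    omega
  rcases Nat.even_or_odd A with hAe | hAo
  · -- 4 | x + y
    right
    have hBo : Odd B := by
      by_contra hcon
      rw [Nat.not_odd_iff_even] at hcon
      have : Even x := by rw [← hAB]; exact hAe.add hcon
      exact (Nat.not_even_iff_odd.2 hxo) this
    refine ⟨?_, ⟨B, hBo, by omega⟩, ?_⟩
    · obtain ⟨e, he⟩ := hAe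
      exact ⟨e, by omega⟩
    · have := split_even_aux (sa := x ^ m - y ^ m) (sb := x ^ m + y ^ m) (c := d) (d := c)
        (X := x) (Y := y) (m := m) (z := z) (N := N) (by omega) (by omega) hc (by omega)
        (by right; omega) (by rw [hdB]; exact hBo.mul hGmo) (by rw [mul_comm]; exact hp)
      exact this
  · left
    have hBe : Even B := by
      by_contra hcon
      rw [Nat.not_even_iff_odd] at hcon
      have : Even x := by rw [← hAB]; exact hAo.add_odd hcon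
      exact (Nat.not_even_iff_odd.2 hxo) this
    refine ⟨?_, ⟨A, hAo, by omega⟩, ?_⟩
    · obtain ⟨e, he⟩ := hBe
      exact ⟨e, by omega⟩
    · have := split_even_aux (sa := x ^ m + y ^ m) (sb := x ^ m - y ^ m) (c := c) (d := d)
        (X := x) (Y := y) (m := m) (z := z) (N := N) (by omega) (by omega) hc (by omega)
        (by left; omega) (by rw [hcA]; exact hAo.mul hGpo) hp
      exact this

end Pool.Agent.H48.BN
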