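import Pool.Agent.H48.BN.Split

set_option autoImplicit false

/-!
# `2` is an `(n + 1)`-th power residue modulo `(x y) ^ (n / 2)` when `z` is even
-/

namespace Pool.Agent.H48.BN

/-- From `4 U ^ N = ε V ^ N` modulo `M`, with `N = 2 m + 1` and `U`, `2` units, `2` is an `N`-th
power modulo `M`. -/
theorem two_is_power {R : Type*} [CommRing R] {m : ℕ} {U V : R} (hU : IsUnit U)
    (h2 : IsUnit (2 : R)) (h : 4 * U ^ (2 * m + 1) = V ^ (2 * m + 1)) :
    ∃ t : R, t ^ (2 * m + 1) = 2 := by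
  obtain ⟨u', hu'⟩ := hU.exists_right_inv
  obtain ⟨h', hh'⟩ := h2.exists_right_inv
  have hw : (V * u') ^ (2 * m + 1) = 4 := by
    rw [mul_pow, ← h, mul_assoc, ← mul_pow, hu', one_pow, mul_one]
  refine ⟨(V * u') ^ (m + 1) * h', ?_⟩
  have e1 : ((V * u') ^ (m + 1) * h') ^ (2 * m + 1) =
      ((V * u') ^ (2 * m + 1)) ^ (m + 1) * h' ^ (2 * m + 1) := by
    rw [mul_pow, ← pow_mul, ← pow_mul, mul_comm (m + 1) (2 * m + 1)]
  rw [e1, hw]
  have e2 : (4 : R) ^ (m + 1) = 2 * 2 ^ (2 * m + 1) := by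
    have : (4 : R) = 2 ^ 2 := by norm_num
    rw [this, ← pow_mul, ← pow_succ']
    congr 1
  rw [e2, mul_assoc, ← mul_pow, hh', one_pow, mul_one]

/-- The splitting for even `z`, any `m > 0`. -/
theorem split_even_any {m x y z N : ℕ} (hm : 0 < m) (hxy : y < x)
    (hc : Nat.Coprime x y) (hN : N ≠ 0)
    (hz : Even z) (h : x ^ (2 * m) = y ^ (2 * m) + z ^ N) :
    Odd x ∧ Odd y ∧ ∃ U V : ℕ, Nat.Coprime U x ∧ Nat.Coprime U y ∧
      4 * x ^ m = 4 * U ^ N + V ^ N ∧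
      (4 * y ^ m + V ^ N = 4 * U ^ N ∨ 4 * y ^ m + 4 * U ^ N = V ^ N) := by
  have hp := prod_eq hxy h
  have hm0 : m ≠ 0 := hm.ne'
  have hlt : y ^ m < x ^ m := Nat.pow_lt_pow_left hxy hm0
  have hzN : Even (z ^ N) := (Nat.even_pow).2 ⟨hz, hN⟩
  have hpar : Odd x ∧ Odd y := by
    by_contra hcon
    have hpx : Even (x ^ (2 * m)) ↔ Even (y ^ (2 * m)) := by
      rw [h, Nat.even_add]; simp [hzN]
    have h2m : 2 * m ≠ 0 := by omega
    rw [Nat.even_pow' h2m, Nat.even_pow' h2m] at hpx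
    by_cases hex : Even x
    · have hey := hpx.1 hex
      have := Nat.dvd_gcd (even_iff_two_dvd.1 hex) (even_iff_two_dvd.1 hey)
      rw [hc] at this; omega
    · have hey : ¬ Even y := fun h => hex (hpx.2 h)
      exact hcon ⟨Nat.not_even_iff_odd.1 hex, Nat.not_even_iff_odd.1 hey⟩
  obtain ⟨hxo, hyo⟩ := hpar
  refine ⟨hxo, hyo, ?_⟩
  have hxmo : Odd (x ^ m) := hxo.pow
  have hymo : Odd (y ^ m) := hyo.pow
  obtain ⟨c, hc'⟩ : Even (x ^ m + y ^ m) := hxmo.add_odd hymo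
  obtain ⟨d, hd'⟩ : Even (x ^ m - y ^ m) := Nat.Odd.sub_odd hxmo hymo
  have hcd : c + d = x ^ m := by omega
  have hcy : c = d + y ^ m := by omega
  -- coprimality of a U with 2 U ^ N = x ^ m ± y ^ m
  have copU : ∀ U : ℕ, (x ^ m + y ^ m = 2 * U ^ N ∨ x ^ m - y ^ m = 2 * U ^ N) →
      Nat.Coprime U x ∧ Nat.Coprime U y := by
    intro U hU
    have key : ∀ p, p.Prime → p ∣ U → (p ∣ x ^ m ↔ p ∣ y ^ m) := by
      intro p hpp hpU
      have hpN : p ∣ 2 * U ^ N := (dvd_pow hpU hN).mul_left 2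
      rcases hU with hU | hU
      · rw [← hU] at hpN
        constructor
        · intro h; exact (Nat.dvd_add_right h).1 hpN
        · intro h; exact (Nat.dvd_add_left h).1 hpN
      · rw [← hU] at hpN
        constructor
        · intro h; exact (Nat.dvd_sub_iff_right hlt.le h).1 hpN
        · intro h; exact (Nat.dvd_sub_iff_left hlt.le h).1 hpN
    constructor
    · rw [Nat.coprime_iff_gcd_eq_one]
      by_contra hne
      obtain ⟨p, hpp, hpd⟩ := Nat.exists_prime_and_dvd hne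
      have h1 := hpd.trans (Nat.gcd_dvd_left _ _)
      have h2 := hpd.trans (Nat.gcd_dvd_right _ _)
      have h3 := (key p hpp h1).1 (dvd_pow h2 hm0)
      have := Nat.dvd_gcd h2 (hpp.dvd_of_dvd_pow h3)
      rw [hc] at this
      exact hpp.one_lt.ne' (Nat.dvd_one.1 this)
    · rw [Nat.coprime_iff_gcd_eq_one]
      by_contra hne
      obtain ⟨p, hpp, hpd⟩ := Nat.exists_prime_and_dvd hne
      have h1 := hpd.trans (Nat.gcd_dvd_left _ _)
      have h2 := hpd.trans (Nat.gcd_dvd_right _ _)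
      have h3 := (key p hpp h1).2 (dvd_pow h2 hm0)
      have := Nat.dvd_gcd (hpp.dvd_of_dvd_pow h3) h2
      rw [hc] at this
      exact hpp.one_lt.ne' (Nat.dvd_one.1 this)
  rcases Nat.even_or_odd c with hce | hco
  · have hdo : Odd d := by
      by_contra hcon
      rw [Nat.not_odd_iff_even] at hcon
      have : Even (x ^ m) := by rw [← hcd]; exact hce.add hcon
      exact (Nat.not_even_iff_odd.2 hxmo) this
    obtain ⟨⟨U, hU⟩, ⟨V, hV⟩⟩ := split_even_aux (sa := x ^ m - y ^ m) (sb := x ^ m + y ^ m)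
      (c := d) (d := c) (X := x) (Y := y) (m := m) (z := z) (N := N) (by omega) (by omega) hc
      (by omega) (by right; omega) hdo (by rw [mul_comm]; exact hp)
    obtain ⟨h1, h2⟩ := copU U (Or.inr hU)
    exact ⟨U, V, h1, h2, by omega, Or.inr (by omega)⟩
  · obtain ⟨⟨U, hU⟩, ⟨V, hV⟩⟩ := split_even_aux (sa := x ^ m + y ^ m) (sb := x ^ m - y ^ m)
      (c := c) (d := d) (X := x) (Y := y) (m := m) (z := z) (N := N) (by omega) (by omega) hc
      (by omega) (by left; omega) hco hp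
    obtain ⟨h1, h2⟩ := copU U (Or.inl hU)
    exact ⟨U, V, h1, h2, by omega, Or.inl (by omega)⟩

theorem isUnit_two_zmod {M : ℕ} (h : Odd M) : IsUnit (2 : ZMod M) := by
  have : IsUnit ((2 : ℕ) : ZMod M) := (ZMod.isUnit_iff_coprime 2 M).2 (Nat.coprime_two_left.2 h)
  exact_mod_cast this

/-- `2` is an `N`-th power modulo `(x y) ^ m`. -/
theorem two_residue {m x y z : ℕ} (hm : 0 < m) (hz0 : 0 < z)
    (hg : Nat.gcd (Nat.gcd x y) z = 1)
    (hz : Even z) (h : x ^ (2 * m) = y ^ (2 * m) + z ^ (2 * m + 1)) :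
    ∃ t : ℕ, t ^ (2 * m + 1) ≡ 2 [MOD (x * y) ^ m] := by
  have hc : Nat.Coprime x y := coprime_xy (n := 2 * m) (by omega) hg h
  have hxy : y < x := y_lt_x hz0 h
  obtain ⟨hxo, hyo, U, V, hUx, hUy, e1, e2⟩ := split_even_any hm hxy hc (by omega) hz h
  have hNodd : Odd (2 * m + 1) := ⟨m, rfl⟩
  -- modulo x ^ m
  obtain ⟨t₁, ht₁⟩ : ∃ t : ZMod (x ^ m), t ^ (2 * m + 1) = 2 := by
    apply two_is_power (U := (U : ZMod (x ^ m))) (V := -(V : ZMod (x ^ m)))
    · exact (ZMod.isUnit_iff_coprime U _).2 (Nat.Coprime.pow_right m hUx)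
    · exact isUnit_two_zmod hxo.pow
    · have h0 : ((x ^ m : ℕ) : ZMod (x ^ m)) = 0 := ZMod.natCast_self _
      have := congrArg (Nat.cast : ℕ → ZMod (x ^ m)) e1
      push_cast at this h0
      rw [Odd.neg_pow hNodd]
      linear_combination -this + 4 * h0
  obtain ⟨t₂, ht₂⟩ : ∃ t : ZMod (y ^ m), t ^ (2 * m + 1) = 2 := by
    have h0 : ((y ^ m : ℕ) : ZMod (y ^ m)) = 0 := ZMod.natCast_self _
    have hU' : IsUnit (U : ZMod (y ^ m)) := (ZMod.isUnit_iff_coprime U _).2 (Nat.Coprime.pow_right m hUy)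
    have h2' : IsUnit (2 : ZMod (y ^ m)) := isUnit_two_zmod hyo.pow
    rcases e2 with e2 | e2
    · apply two_is_power (U := (U : ZMod (y ^ m))) (V := (V : ZMod (y ^ m))) hU' h2'
      have := congrArg (Nat.cast : ℕ → ZMod (y ^ m)) e2
      push_cast at this h0
      linear_combination -this + 4 * h0
    · apply two_is_power (U := (U : ZMod (y ^ m))) (V := (V : ZMod (y ^ m))) hU' h2'
      have := congrArg (Nat.cast : ℕ → ZMod (y ^ m)) e2
      push_cast at this h0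
      linear_combination this - 4 * h0
  have hcop : Nat.Coprime (x ^ m) (y ^ m) := Nat.Coprime.pow m m hc
  have hx0 : 0 < x := hxo.pos
  have hy0 : 0 < y := hyo.pos
  have hne : NeZero (x ^ m * y ^ m) := ⟨by positivity⟩
  let E := ZMod.chineseRemainder hcop
  let t := E.symm (t₁, t₂)
  have ht : t ^ (2 * m + 1) = 2 := by
    apply E.injective
    rw [map_pow, RingEquiv.apply_symm_apply, map_ofNat]
    ext
    · simpa using ht₁
    · simpa using ht₂
  refine ⟨t.val, ?_⟩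
  rw [mul_pow, ← ZMod.natCast_eq_natCast_iff]
  push_cast
  rw [ZMod.natCast_zmod_val]
  exact ht

theorem three_pow_le {e : ℕ} (he : 1 ≤ e) : 2 * e + 1 ≤ 3 ^ e := by
  induction e with
  | zero => omega
  | succ e ih =>
    rcases Nat.eq_zero_or_pos e with h | h
    · subst h; norm_num
    · have := ih h
      rw [pow_succ]; omega

theorem exponent_bound {q e m : ℕ} (hq : 3 ≤ q) (hm : 2 ≤ m) (h : q ^ e ≤ 2 * m + 1) :
    e + 1 ≤ m := by
  rcases Nat.lt_or_ge e 2 with he | he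
  · omega
  · have h1 : 3 ^ e ≤ q ^ e := Nat.pow_le_pow_left hq e
    -- 3 ^ e ≥ 2 e + 3 for e ≥ 2
    have h2 : 2 * e + 3 ≤ 3 ^ e := by
      obtain ⟨f, rfl⟩ : ∃ f, e = f + 1 := ⟨e - 1, by omega⟩
      have := three_pow_le (e := f) (by omega)
      rw [pow_succ]; omega
    omega

/-- The Wieferich consequence. -/
theorem wieferich {m x y z q e : ℕ} (hm : 2 ≤ m) (hz0 : 0 < z)
    (hg : Nat.gcd (Nat.gcd x y) z = 1)
    (hz : Even z) (h : x ^ (2 * m) = y ^ (2 * m) + z ^ (2 * m + 1))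
    (hq : q.Prime) (hqe : q ^ e ∣ 2 * m + 1) (hqxy : q ∣ x * y) :
    q ^ (e + 1) ∣ 2 ^ (q - 1) - 1 := by
  have hm0 : 0 < m := by omega
  obtain ⟨t, ht⟩ := two_residue hm0 hz0 hg hz h
  have hc : Nat.Coprime x y := coprime_xy (n := 2 * m) (by omega) hg h
  have hxy : y < x := y_lt_x hz0 h
  obtain ⟨hxo, hyo, -⟩ := split_even_any hm0 hxy hc (by omega) hz h
  have hqodd : q ≠ 2 := by
    rintro rfl
    have : Odd (x * y) := hxo.mul hyo
    exact (Nat.not_even_iff_odd.2 this) (even_iff_two_dvd.2 hqxy)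
  have hq3 : 3 ≤ q := by
    have := hq.two_le
    omega
  have hbound : e + 1 ≤ m := exponent_bound hq3 hm (Nat.le_of_dvd (by omega) hqe)
  have hdvd : q ^ (e + 1) ∣ (x * y) ^ m :=
    (pow_dvd_pow q hbound).trans (pow_dvd_pow_of_dvd hqxy m)
  have ht' : t ^ (2 * m + 1) ≡ 2 [MOD q ^ (e + 1)] := ht.of_dvd hdvd
  have hcast : (t : ZMod (q ^ (e + 1))) ^ (2 * m + 1) = 2 := by
    have := (ZMod.natCast_eq_natCast_iff _ _ _).2 ht'
    push_cast at this
    exact this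
  have h2unit : IsUnit (2 : ZMod (q ^ (e + 1))) :=
    isUnit_two_zmod ((hq.odd_of_ne_two hqodd).pow)
  have htunit : IsUnit (t : ZMod (q ^ (e + 1))) := by
    rw [← hcast] at h2unit
    exact (isUnit_pow_iff (by omega)).1 h2unit
  obtain ⟨u, hu⟩ := htunit
  have hne : NeZero (q ^ (e + 1)) := ⟨(pow_pos hq.pos _).ne'⟩
  have htot : u ^ Nat.totient (q ^ (e + 1)) = 1 := ZMod.pow_totient u
  rw [Nat.totient_prime_pow_succ hq] at htot
  obtain ⟨k, hk⟩ := hqe
  have h1 : (2 : ZMod (q ^ (e + 1))) ^ (q - 1) = 1 := by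
    rw [← hcast, ← hu, ← Units.val_pow_eq_pow_val, ← Units.val_pow_eq_pow_val, ← pow_mul, hk]
    have : q ^ e * k * (q - 1) = q ^ e * (q - 1) * k := by ring
    rw [this, pow_mul, htot, one_pow, Units.val_one]
  have h2 : ((2 ^ (q - 1) : ℕ) : ZMod (q ^ (e + 1))) = ((1 : ℕ) : ZMod (q ^ (e + 1))) := by
    push_cast; exact h1
  have h3 := (ZMod.natCast_eq_natCast_iff _ _ _).1 h2
  exact (Nat.modEq_iff_dvd' Nat.one_le_two_pow).1 h3.symm

end Pool.Agent.H48.BN
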