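import Mathlib

set_option autoImplicit false

/-!
# Elementary tools for `x ^ (2 m) - y ^ (2 m) = z ^ (2 m + 1)`
-/

namespace Pool.Agent.H48.BN

/-- A natural number all of whose exponents are divisible by `N` is an `N`-th power. -/
theorem exists_pow_of_factorization {k N : ℕ} (hk : k ≠ 0)
    (h : ∀ p, p.Prime → N ∣ k.factorization p) : ∃ r, k = r ^ N := by
  refine ⟨∏ p ∈ k.primeFactors, p ^ (k.factorization p / N), ?_⟩
  rw [← Finset.prod_pow]
  conv_lhs => rw [← Nat.prod_factorization_pow_eq_self hk]
  rw [Finsupp.prod, Nat.support_factorization]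
  apply Finset.prod_congr rfl
  intro p hp
  rw [← pow_mul, Nat.div_mul_cancel (h p (Nat.prime_of_mem_primeFactors hp))]

/-- `gcd m (k ^ m)` carries exactly the part of `m` supported on the primes of `k`. -/
theorem factorization_gcd_pow {m k p : ℕ} (hm : 0 < m) (hk : 0 < k) (hp : p.Prime)
    (hpk : p ∣ k) : (Nat.gcd m (k ^ m)).factorization p = m.factorization p := by
  rw [Nat.factorization_gcd hm.ne' (pow_pos hk m).ne']
  simp only [Finsupp.inf_apply, Nat.factorization_pow, Finsupp.smul_apply, smul_eq_mul]
  apply min_eq_left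
  have h1 : 1 ≤ k.factorization p := by
    have := (hp.dvd_iff_one_le_factorization hk.ne').1 hpk
    exact this
  have h2 : m.factorization p < m := Nat.factorization_lt p hm.ne'
  nlinarith

theorem factorization_gcd_pow_of_not_dvd {m k p : ℕ} (hp : p.Prime)
    (hpk : ¬ p ∣ k) : (Nat.gcd m (k ^ m)).factorization p = 0 := by
  apply Nat.factorization_eq_zero_of_not_dvd
  intro h
  exact hpk (hp.dvd_of_dvd_pow (h.trans (Nat.gcd_dvd_right _ _)))

/-- The structure lemma: `k * G = v ^ N` and the exponents of `k * G` at the primes of `k` exceed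
those of `k` by those of `m`.  Then `k * gcd m (k ^ m)` is an `N`-th power and `G` is
`gcd m (k ^ m)` times an `N`-th power. -/
theorem structure_pow {k G v m N : ℕ} (hk : 0 < k) (hG : 0 < G) (hm : 0 < m)
    (h : k * G = v ^ N)
    (hv : ∀ p, p.Prime → p ∣ k →
      (k * G).factorization p = k.factorization p + m.factorization p) :
    (∃ r, k * Nat.gcd m (k ^ m) = r ^ N) ∧ (∃ t, G = Nat.gcd m (k ^ m) * t ^ N) := by
  have hg : 0 < Nat.gcd m (k ^ m) := Nat.gcd_pos_of_pos_left _ hm
  have hGfac : ∀ p, p.Prime → p ∣ k → G.factorization p = m.factorization p := by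
    intro p hp hpk
    have h1 := hv p hp hpk
    rw [Nat.factorization_mul hk.ne' hG.ne'] at h1
    simp only [Finsupp.add_apply] at h1
    omega
  constructor
  · apply exists_pow_of_factorization (Nat.mul_pos hk hg).ne'
    intro p hp
    by_cases hpk : p ∣ k
    · have h1 := hv p hp hpk
      rw [Nat.factorization_mul hk.ne' hg.ne', Finsupp.add_apply,
        factorization_gcd_pow hm hk hp hpk, ← h1, h, Nat.factorization_pow]
      simp
    · rw [Nat.factorization_mul hk.ne' hg.ne', Finsupp.add_apply,
        factorization_gcd_pow_of_not_dvd hp hpk, Nat.factorization_eq_zero_of_not_dvd hpk]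
      simp
  · have hdvd : Nat.gcd m (k ^ m) ∣ G := by
      rw [← Nat.factorization_le_iff_dvd hg.ne' hG.ne']
      intro p
      by_cases hp : p.Prime
      · by_cases hpk : p ∣ k
        · rw [factorization_gcd_pow hm hk hp hpk, hGfac p hp hpk]
        · rw [factorization_gcd_pow_of_not_dvd hp hpk]; exact Nat.zero_le _
      · rw [Nat.factorization_eq_zero_of_not_prime _ hp]; exact Nat.zero_le _
    obtain ⟨W, hW⟩ := hdvd
    have hW0 : W ≠ 0 := by
      rintro rfl
      simp at hW; omega
    have : ∃ t, W = t ^ N := by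
      apply exists_pow_of_factorization hW0
      intro p hp
      have h2 : G.factorization p = (Nat.gcd m (k ^ m)).factorization p + W.factorization p := by
        conv_lhs => rw [hW]
        rw [Nat.factorization_mul hg.ne' hW0, Finsupp.add_apply]
      by_cases hpk : p ∣ k
      · rw [factorization_gcd_pow hm hk hp hpk, hGfac p hp hpk] at h2
        have : W.factorization p = 0 := by omega
        rw [this]; simp
      · rw [factorization_gcd_pow_of_not_dvd hp hpk, zero_add] at h2
        have h3 : (k * G).factorization p = G.factorization p := by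
          rw [Nat.factorization_mul hk.ne' hG.ne', Finsupp.add_apply,
            Nat.factorization_eq_zero_of_not_dvd hpk, zero_add]
        rw [← h2, ← h3, h, Nat.factorization_pow]
        simp
    obtain ⟨t, ht⟩ := this
    exact ⟨t, by rw [← ht]; exact hW⟩

/-- The quotient `(x ^ (m+1) - y ^ (m+1)) / (x - y)` and its residue modulo `x - y`. -/
theorem exists_quot (x y : ℤ) (m : ℕ) :
    ∃ G K : ℤ, x ^ (m + 1) - y ^ (m + 1) = (x - y) * G ∧
      G = (m + 1) * x ^ m + (x - y) * K := by
  induction m with
  | zero => exact ⟨1, 0, by ring, by simp⟩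
  | succ m ih =>
    obtain ⟨G, K, h1, h2⟩ := ih
    refine ⟨x * G + y ^ (m + 1), x * K - G, ?_, ?_⟩
    · have : x ^ (m + 1 + 1) - y ^ (m + 1 + 1) = x * (x ^ (m + 1) - y ^ (m + 1)) +
          (x - y) * y ^ (m + 1) := by ring
      rw [this, h1]; ring
    · have h3 : y ^ (m + 1) = x ^ (m + 1) - (x - y) * G := by linarith
      rw [h3]
      have h4 : x * G = x * ((m + 1) * x ^ m + (x - y) * K) := by rw [← h2]
      rw [h4]
      push_cast
      ring

end Pool.Agent.H48.BN
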