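import Pool.Agent.H48.BN.Basic

set_option autoImplicit false

/-!
# Factorization data of a primitive solution
-/

namespace Pool.Agent.H48.BN

/-- The data attached to one of the two factorizations `x ^ m ± y ^ m = (x ± y) * G`. -/
structure Side (x m a s : ℕ) : Prop where
  apos : 0 < a
  spos : 0 < s
  quot : ∃ G : ℕ, 0 < G ∧ s = a * G ∧ ∃ K : ℤ, (G : ℤ) = m * (x : ℤ) ^ (m - 1) + a * K
  val : ∀ p, p.Prime → p ∣ a → s.factorization p = a.factorization p + m.factorization p

theorem odd_fact_two {k : ℕ} (h : Odd k) : k.factorization 2 = 0 := by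
  apply Nat.factorization_eq_zero_of_not_dvd
  intro h2
  exact (Nat.not_even_iff_odd.2 h) (even_iff_two_dvd.2 h2)

theorem side_minus {x y m : ℕ} (hm : Odd m) (hy : 0 < y) (hxy : y < x) (hc : Nat.Coprime x y) :
    Side x m (x - y) (x ^ m - y ^ m) := by
  have hm0 : m ≠ 0 := by rintro rfl; exact absurd hm (by decide)
  have hlt : y ^ m < x ^ m := Nat.pow_lt_pow_left hxy hm0
  have ha : 0 < x - y := Nat.sub_pos_of_lt hxy
  have hs : 0 < x ^ m - y ^ m := Nat.sub_pos_of_lt hlt
  obtain ⟨m', rfl⟩ : ∃ m', m = m' + 1 := ⟨m - 1, by omega⟩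
  obtain ⟨G, K, h1, h2⟩ := exists_quot (x : ℤ) (y : ℤ) m'
  have hcast : ((x ^ (m' + 1) - y ^ (m' + 1) : ℕ) : ℤ) = (x : ℤ) ^ (m' + 1) - (y : ℤ) ^ (m' + 1) := by
    push_cast [Nat.cast_sub hlt.le]; ring
  have hcast' : ((x - y : ℕ) : ℤ) = (x : ℤ) - y := by
    push_cast [Nat.cast_sub hxy.le]; ring
  have hGpos : 0 < G := by
    have h3 : (0 : ℤ) < (x - y : ℤ) * G := by
      rw [← h1, ← hcast]; exact_mod_cast hs
    have h4 : (0 : ℤ) < (x : ℤ) - y := by rw [← hcast']; exact_mod_cast ha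
    exact (mul_pos_iff_of_pos_left h4).1 h3
  obtain ⟨G', rfl⟩ : ∃ G' : ℕ, G = G' := ⟨G.toNat, (Int.toNat_of_nonneg hGpos.le).symm⟩
  have hquot : x ^ (m' + 1) - y ^ (m' + 1) = (x - y) * G' := by
    have : ((x ^ (m' + 1) - y ^ (m' + 1) : ℕ) : ℤ) = (((x - y) * G' : ℕ) : ℤ) := by
      rw [hcast, h1]; push_cast [Nat.cast_sub hxy.le]; ring
    exact_mod_cast this
  have hG'pos : 0 < G' := by exact_mod_cast hGpos
  refine ⟨ha, hs, ⟨G', hG'pos, hquot, K, ?_⟩, ?_⟩
  · rw [hcast', h2]; push_cast; simp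
  · intro p hp hpa
    by_cases hp2 : p = 2
    · subst hp2
      rw [hquot, Nat.factorization_mul ha.ne' hG'pos.ne', Finsupp.add_apply, odd_fact_two hm]
      have hxodd : Odd x := by
        by_contra h
        rw [Nat.not_odd_iff_even] at h
        have h5 : 2 ∣ x := even_iff_two_dvd.1 h
        have h6 : 2 ∣ y := by
          have := (Nat.dvd_sub_iff_right hxy.le h5).1 hpa
          exact this
        have := Nat.dvd_gcd h5 h6
        rw [hc] at this; omega
      have hGodd : Odd G' := by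
        have h7 : Odd ((m' + 1 : ℕ) : ℤ) := by exact_mod_cast hm
        have h8 : Odd ((x : ℤ) ^ m') := Odd.pow (by exact_mod_cast hxodd)
        have h9 : Even ((x : ℤ) - y) := by
          rw [← hcast']
          obtain ⟨c, hc'⟩ := hpa
          exact ⟨c, by rw [hc']; push_cast; ring⟩
        have : Odd (G' : ℤ) := by
          rw [h2]
          apply Odd.add_even
          · push_cast at h7
            exact h7.mul h8
          · exact h9.mul_right _
        exact_mod_cast this
      rw [odd_fact_two hGodd]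
    · have hpx : ¬ p ∣ x := by
        intro h
        have h6 : p ∣ y := (Nat.dvd_sub_iff_right hxy.le h).1 hpa
        have := Nat.dvd_gcd h h6
        rw [hc] at this
        exact hp.one_lt.ne' (Nat.dvd_one.1 this)
      have hfact := Fact.mk hp
      rw [Nat.factorization_def _ hp, Nat.factorization_def _ hp, Nat.factorization_def _ hp]
      exact padicValNat.pow_sub_pow (hp.odd_of_ne_two hp2) hxy hpa hpx (by omega)

theorem side_plus {x y m : ℕ} (hm : Odd m) (hx : 0 < x) (hy : 0 < y) (hc : Nat.Coprime x y) :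
    Side x m (x + y) (x ^ m + y ^ m) := by
  have hm0 : m ≠ 0 := by rintro rfl; exact absurd hm (by decide)
  have ha : 0 < x + y := by omega
  have hs : 0 < x ^ m + y ^ m := by positivity
  obtain ⟨m', rfl⟩ : ∃ m', m = m' + 1 := ⟨m - 1, by omega⟩
  obtain ⟨G, K, h1, h2⟩ := exists_quot (x : ℤ) (-(y : ℤ)) m'
  rw [Odd.neg_pow hm] at h1
  have hcast : ((x ^ (m' + 1) + y ^ (m' + 1) : ℕ) : ℤ) = (x : ℤ) ^ (m' + 1) + (y : ℤ) ^ (m' + 1) := by
    push_cast; ring
  have hcast' : ((x + y : ℕ) : ℤ) = (x : ℤ) + y := by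
    push_cast; ring
  have h1' : (x : ℤ) ^ (m' + 1) + (y : ℤ) ^ (m' + 1) = ((x : ℤ) + y) * G := by
    linear_combination h1
  have h2' : G = ((m' : ℤ) + 1) * (x : ℤ) ^ m' + ((x : ℤ) + y) * K := by
    linear_combination h2
  have hGpos : 0 < G := by
    have h3 : (0 : ℤ) < ((x : ℤ) + y : ℤ) * G := by
      rw [← h1', ← hcast]; exact_mod_cast hs
    have h4 : (0 : ℤ) < (x : ℤ) + y := by rw [← hcast']; exact_mod_cast ha
    exact (mul_pos_iff_of_pos_left h4).1 h3
  obtain ⟨G', rfl⟩ : ∃ G' : ℕ, G = G' := ⟨G.toNat, (Int.toNat_of_nonneg hGpos.le).symm⟩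
  have hquot : x ^ (m' + 1) + y ^ (m' + 1) = (x + y) * G' := by
    exact_mod_cast h1'
  have hG'pos : 0 < G' := by exact_mod_cast hGpos
  refine ⟨ha, hs, ⟨G', hG'pos, hquot, K, ?_⟩, ?_⟩
  · rw [hcast', h2']; push_cast; simp
  · intro p hp hpa
    by_cases hp2 : p = 2
    · subst hp2
      rw [hquot, Nat.factorization_mul ha.ne' hG'pos.ne', Finsupp.add_apply, odd_fact_two hm]
      have hxodd : Odd x := by
        by_contra h
        rw [Nat.not_odd_iff_even] at h
        have h5 : 2 ∣ x := even_iff_two_dvd.1 h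
        have h6 : 2 ∣ y := (Nat.dvd_add_right h5).1 hpa
        have := Nat.dvd_gcd h5 h6
        rw [hc] at this; omega
      have hGodd : Odd G' := by
        have h7 : Odd ((m' + 1 : ℕ) : ℤ) := by exact_mod_cast hm
        have h8 : Odd ((x : ℤ) ^ m') := Odd.pow (by exact_mod_cast hxodd)
        have h9 : Even ((x : ℤ) + y) := by
          rw [← hcast']
          obtain ⟨c, hc'⟩ := hpa
          exact ⟨c, by rw [hc']; push_cast; ring⟩
        have : Odd (G' : ℤ) := by
          rw [h2']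
          apply Odd.add_even
          · push_cast at h7
            exact h7.mul h8
          · exact h9.mul_right _
        exact_mod_cast this
      rw [odd_fact_two hGodd]
    · have hpx : ¬ p ∣ x := by
        intro h
        have h6 : p ∣ y := (Nat.dvd_add_right h).1 hpa
        have := Nat.dvd_gcd h h6
        rw [hc] at this
        exact hp.one_lt.ne' (Nat.dvd_one.1 this)
      have hfact := Fact.mk hp
      rw [Nat.factorization_def _ hp, Nat.factorization_def _ hp, Nat.factorization_def _ hp]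
      exact padicValNat.pow_add_pow (hp.odd_of_ne_two hp2) hpa hpx hm

/-- A `Side` whose `s` is an `N`-th power. -/
theorem Side.pow {x m a s v N : ℕ} (hm : 0 < m) (S : Side x m a s) (h : s = v ^ N) :
    (∃ r, a * Nat.gcd m (a ^ m) = r ^ N) ∧
      ∃ G t : ℕ, G = Nat.gcd m (a ^ m) * t ^ N ∧ s = a * G ∧
        ∃ K : ℤ, (G : ℤ) = m * (x : ℤ) ^ (m - 1) + a * K := by
  obtain ⟨G, hG, hs, K, hK⟩ := S.quot
  have := structure_pow (k := a) (G := G) (v := v) (m := m) (N := N) S.apos hG hm
    (by rw [← hs]; exact h) (by intro p hp hpa; rw [← hs]; exact S.val p hp hpa)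
  obtain ⟨h1, t, ht⟩ := this
  exact ⟨h1, G, t, ht, hs, K, hK⟩

/-- A `Side` with `a = 2 P`, `P` odd and `s = 2 U ^ N`. -/
theorem Side.pow_half {x m a s U N P : ℕ} (hm : 0 < m) (S : Side x m a s) (ha : a = 2 * P)
    (hP : Odd P) (h : s = 2 * U ^ N) :
    (∃ r, P * Nat.gcd m (P ^ m) = r ^ N) ∧
      ∃ G t : ℕ, G = Nat.gcd m (P ^ m) * t ^ N ∧ s = a * G ∧
        ∃ K : ℤ, (G : ℤ) = m * (x : ℤ) ^ (m - 1) + a * K := by
  obtain ⟨G, hG, hs, K, hK⟩ := S.quot
  have hPpos : 0 < P := hP.pos
  have hPG : P * G = U ^ N := by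
    have : 2 * (P * G) = 2 * U ^ N := by rw [← h, hs, ha]; ring
    omega
  have := structure_pow (k := P) (G := G) (v := U) (m := m) (N := N) hPpos hG hm hPG
    (by
      intro p hp hpP
      have h1 := S.val p hp (by rw [ha]; exact hpP.mul_left 2)
      have hp2 : p ≠ 2 := by
        rintro rfl
        exact (Nat.not_even_iff_odd.2 hP) (even_iff_two_dvd.2 hpP)
      have h2 : (2 : ℕ).factorization p = 0 := by
        apply Nat.factorization_eq_zero_of_not_dvd
        intro h
        exact hp2 ((Nat.prime_dvd_prime_iff_eq hp Nat.prime_two).1 h)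
      rw [hs, ha, Nat.factorization_mul (by positivity) hG.ne',
        Nat.factorization_mul (by norm_num) hPpos.ne'] at h1
      rw [Nat.factorization_mul hPpos.ne' hG.ne']
      simp only [Finsupp.add_apply, h2, zero_add] at h1 ⊢
      exact h1)
  obtain ⟨h1, t, ht⟩ := this
  exact ⟨h1, G, t, ht, hs, K, hK⟩

/-- A `Side` with `b` even and `2 s = V ^ N`. -/
theorem Side.pow_double {x m b s V N : ℕ} (hm : 0 < m) (S : Side x m b s) (hb : 2 ∣ b)
    (h : 2 * s = V ^ N) :
    (∃ r, (2 * b) * Nat.gcd m ((2 * b) ^ m) = r ^ N) ∧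
      ∃ G t : ℕ, G = Nat.gcd m ((2 * b) ^ m) * t ^ N ∧ s = b * G ∧
        ∃ K : ℤ, (G : ℤ) = m * (x : ℤ) ^ (m - 1) + b * K := by
  obtain ⟨G, hG, hs, K, hK⟩ := S.quot
  have hbpos := S.apos
  have hPG : 2 * b * G = V ^ N := by
    rw [← h, hs]; ring
  have := structure_pow (k := 2 * b) (G := G) (v := V) (m := m) (N := N) (by positivity) hG hm hPG
    (by
      intro p hp hpP
      have hpb : p ∣ b := by
        rcases (hp.dvd_mul).1 hpP with h | h
        · rw [(Nat.prime_dvd_prime_iff_eq hp Nat.prime_two).1 h]; exact hb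
        · exact h
      have h1 := S.val p hp hpb
      rw [hs, Nat.factorization_mul hbpos.ne' hG.ne'] at h1
      rw [Nat.factorization_mul (by positivity) hG.ne',
        Nat.factorization_mul (by norm_num) hbpos.ne']
      simp only [Finsupp.add_apply] at h1 ⊢
      omega)
  obtain ⟨h1, t, ht⟩ := this
  exact ⟨h1, G, t, ht, hs, K, hK⟩

end Pool.Agent.H48.BN
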