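import Pool.Agent.H48.BN.RootsMod

set_option autoImplicit false

/-!
# The two computations in a field, `N`-th powers being `0` or `2 k`-th roots of unity
-/

namespace Pool.Agent.H48.BN

/-- `a` is `0` or a `2 k`-th root of unity. -/
def Pw {F : Type*} [Field F] (k : ℕ) (a : F) : Prop := a = 0 ∨ a ^ (2 * k) = 1

theorem Pw.one_of_ne {F : Type*} [Field F] {k : ℕ} {a : F} (h : Pw k a) (h0 : a ≠ 0) :
    a ^ (2 * k) = 1 := by
  rcases h with h | h
  · exact absurd h h0
  · exact h

theorem mulG {F : Type*} [Field F] {k : ℕ} {a b : F} (ha : a ^ (2 * k) = 1)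
    (hb : b ^ (2 * k) = 1) : (a * b) ^ (2 * k) = 1 := by rw [mul_pow, ha, hb, one_mul]

theorem divG {F : Type*} [Field F] {k : ℕ} {a b : F} (ha : a ^ (2 * k) = 1)
    (hb : b ^ (2 * k) = 1) : (a / b) ^ (2 * k) = 1 := by rw [div_pow, ha, hb, div_one]

theorem sqG {F : Type*} [Field F] {k : ℕ} {a : F} (ha : a ^ (2 * k) = 1) :
    (a ^ 2) ^ (2 * k) = 1 := by rw [← pow_mul, mul_comm 2, pow_mul, ha, one_pow]

theorem negG {F : Type*} [Field F] {k : ℕ} {a : F} (ha : a ^ (2 * k) = 1) :
    (-a) ^ (2 * k) = 1 := by rw [Even.neg_pow ⟨k, by ring⟩, ha]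

theorem ne_zero_of_G {F : Type*} [Field F] {k : ℕ} (hk : 0 < k) {a : F} (ha : a ^ (2 * k) = 1) :
    a ≠ 0 := by
  rintro rfl
  rw [zero_pow (by omega)] at ha
  exact zero_ne_one ha

theorem fieldK_odd {F : Type*} [Field F] {k : ℕ} (hk : 0 < k) (hr : NoRel k F)
    {x y X Y : F} (h2 : (2 : F) ≠ 0)
    (ex : Pw k (x * X ^ 2)) (ey : Pw k (y * Y ^ 2))
    (hx0 : x = 0 ↔ X = 0) (hy0 : y = 0 ↔ Y = 0) (hxy : ¬ (x = 0 ∧ y = 0))
    (hneg : x + y = 0 → X + Y = 0) (hpos : x - y = 0 → X - Y = 0)
    (h1 : Pw k (x + y)) (h2' : Pw k (x - y))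
    (h3 : Pw k (X + Y)) (h4 : Pw k (X - Y)) : x * y = 0 := by
  have h4ne : (4 : F) ≠ 0 := by
    have : (4 : F) = 2 * 2 := by norm_num
    rw [this]; exact mul_ne_zero h2 h2
  -- the sub-case in which exactly one of X + Y, X - Y vanishes
  have sub : ∀ y' Y' : F, (y' = 0 ↔ Y' = 0) → Pw k (y' * Y' ^ 2) →
      (x - y' = 0 → X - Y' = 0) → Pw k (x + y') → Pw k (x - y') → Pw k (X - Y') →
      X + Y' = 0 → X - Y' ≠ 0 → False := by
    intro y' Y' hy' ey' hpos' g1 g2 g4 hp hm
    have hg4 := g4.one_of_ne hm
    have hX : X - Y' = 2 * X := by linear_combination -hp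
    have hXne : X ≠ 0 := by
      rintro h
      apply hm; rw [hX, h, mul_zero]
    have hY'ne : Y' ≠ 0 := by
      rintro h
      rw [h, add_zero] at hp
      exact hXne hp
    have hxne : x ≠ 0 := fun h => hXne (hx0.1 h)
    have hy'ne : y' ≠ 0 := fun h => hY'ne (hy'.1 h)
    have hc1 := ex.one_of_ne (mul_ne_zero hxne (pow_ne_zero 2 hXne))
    have hc2 := ey'.one_of_ne (mul_ne_zero hy'ne (pow_ne_zero 2 hY'ne))
    set g := X - Y' with hg
    have hgne : g ≠ 0 := hm
    have hx4 : x = 4 * (x * X ^ 2 / g ^ 2) := by
      have e1 : g ^ 2 = 4 * X ^ 2 := by rw [hX]; ring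
      rw [e1]
      field_simp
    have hy4 : y' = 4 * (y' * Y' ^ 2 / g ^ 2) := by
      have e1 : g ^ 2 = 4 * Y' ^ 2 := by
        have : g = -(2 * Y') := by rw [hg]; linear_combination hp
        rw [this]; ring
      rw [e1]
      field_simp
    have hA := divG hc1 (sqG hg4)
    have hB := divG hc2 (sqG hg4)
    set A := x * X ^ 2 / g ^ 2
    set B := y' * Y' ^ 2 / g ^ 2
    have hAne := ne_zero_of_G hk hA
    have hxm : x - y' ≠ 0 := fun h => hm (hpos' h)
    by_cases hxp : x + y' = 0
    · -- x - y' = 8 A
      have e : x - y' = 8 * A := by linear_combination -hxp + 2 * hx4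
      have h8 := g2.one_of_ne hxm
      rw [e] at h8
      apply hr.r2' _ (divG h8 hA)
      field_simp
    · have h5 := g1.one_of_ne hxp
      apply hr.r2 _ _ (divG hB hA) (divG h5 hA)
      field_simp
      linear_combination -hx4 - hy4
  by_cases hp : X + Y = 0
  · by_cases hm : X - Y = 0
    · exfalso
      have hX : 2 * X = 0 := by linear_combination hp + hm
      have hY : 2 * Y = 0 := by linear_combination hp - hm
      rcases mul_eq_zero.1 hX with h | h
      · exact h2 h
      rcases mul_eq_zero.1 hY with h' | h'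
      · exact h2 h'
      exact hxy ⟨hx0.2 h, hy0.2 h'⟩
    · exact (sub y Y hy0 ey hpos h1 h2' h4 hp hm).elim
  · by_cases hm : X - Y = 0
    · exfalso
      refine sub (-y) (-Y) (by rw [neg_eq_zero, neg_eq_zero]; exact hy0) ?_ ?_ ?_ ?_ ?_ ?_ ?_
      · rcases ey with h | h
        · left; rw [neg_sq, neg_mul, h, neg_zero]
        · right; rw [neg_sq, neg_mul]; exact negG h
      · intro h
        rw [sub_neg_eq_add] at h ⊢
        exact hneg h
      · rw [← sub_eq_add_neg]; exact h2'
      · rw [sub_neg_eq_add]; exact h1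
      · rw [sub_neg_eq_add]; exact h3
      · rw [← sub_eq_add_neg]; exact hm
      · rw [sub_neg_eq_add]; exact hp
    · by_contra hne
      have hxne : x ≠ 0 := fun h => hne (by rw [h, zero_mul])
      have hyne : y ≠ 0 := fun h => hne (by rw [h, mul_zero])
      have hXne : X ≠ 0 := fun h => hxne (hx0.2 h)
      have hYne : Y ≠ 0 := fun h => hyne (hy0.2 h)
      have hxp : x + y ≠ 0 := fun h => hp (hneg h)
      have hxm : x - y ≠ 0 := fun h => hm (hpos h)
      have hc1 := ex.one_of_ne (mul_ne_zero hxne (pow_ne_zero 2 hXne))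
      have hc2 := ey.one_of_ne (mul_ne_zero hyne (pow_ne_zero 2 hYne))
      have g1 := h1.one_of_ne hxp
      have g2 := h2'.one_of_ne hxm
      have g3 := h3.one_of_ne hp
      have g4 := h4.one_of_ne hm
      apply hr.r1 _ _ _ (sqG (divG g2 g1)) (sqG (divG g4 g3))
        (divG (mulG hc1 hc2) (mulG (sqG g1) (mulG (sqG g3) (sqG g3))))
      field_simp
      ring

theorem fieldK_even {F : Type*} [Field F] {k : ℕ} (hk : 0 < k) (hr : NoRel k F)
    {x y X Y g₁ g₃ : F} (h2 : (2 : F) ≠ 0)
    (ex : Pw k (x * X ^ 2)) (ey : Pw k (y * Y ^ 2))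
    (hx0 : x = 0 ↔ X = 0) (hy0 : y = 0 ↔ Y = 0) (hxy : ¬ (x = 0 ∧ y = 0))
    (hneg : x + y = 0 → X + Y = 0) (hpos : x - y = 0 → X - Y = 0)
    (h1 : x + y = 2 * g₁) (hg₁ : Pw k g₁) (h2' : Pw k (2 * (x - y)))
    (h3 : X + Y = 2 * g₃) (hg₃ : Pw k g₃) (h4 : Pw k (2 * (X - Y))) :
    x - y = 0 ∧ x ^ (2 * k) = 1 := by
  have h4' : (4 : F) ≠ 0 := by
    have : (4 : F) = 2 * 2 := by norm_num
    rw [this]; exact mul_ne_zero h2 h2
  by_cases hp : X + Y = 0
  · exfalso
    by_cases hm : X - Y = 0
    · have hX : 2 * X = 0 := by linear_combination hp + hm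
      have hY : 2 * Y = 0 := by linear_combination hp - hm
      rcases mul_eq_zero.1 hX with h | h
      · exact h2 h
      rcases mul_eq_zero.1 hY with h' | h'
      · exact h2 h'
      exact hxy ⟨hx0.2 h, hy0.2 h'⟩
    · have hg4 := h4.one_of_ne (mul_ne_zero h2 hm)
      set g := 2 * (X - Y) with hg
      have hgX : g = 4 * X := by rw [hg]; linear_combination -2 * hp
      have hgY : g = -(4 * Y) := by rw [hg]; linear_combination 2 * hp
      have hgne : g ≠ 0 := ne_zero_of_G hk hg4
      have hXne : X ≠ 0 := by
        rintro h; apply hgne; rw [hgX, h, mul_zero]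
      have hYne : Y ≠ 0 := by
        rintro h; apply hgne; rw [hgY, h, mul_zero, neg_zero]
      have hxne : x ≠ 0 := fun h => hXne (hx0.1 h)
      have hyne : y ≠ 0 := fun h => hYne (hy0.1 h)
      have hc1 := ex.one_of_ne (mul_ne_zero hxne (pow_ne_zero 2 hXne))
      have hc2 := ey.one_of_ne (mul_ne_zero hyne (pow_ne_zero 2 hYne))
      have hx16 : x = 16 * (x * X ^ 2 / g ^ 2) := by
        have e1 : g ^ 2 = 16 * X ^ 2 := by rw [hgX]; ring
        have h16 : (16 : F) ≠ 0 := by
          have : (16 : F) = 4 * 4 := by norm_num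
          rw [this]; exact mul_ne_zero h4' h4'
        rw [e1]
        field_simp
      have hy16 : y = 16 * (y * Y ^ 2 / g ^ 2) := by
        have e1 : g ^ 2 = 16 * Y ^ 2 := by rw [hgY]; ring
        have h16 : (16 : F) ≠ 0 := by
          have : (16 : F) = 4 * 4 := by norm_num
          rw [this]; exact mul_ne_zero h4' h4'
        rw [e1]
        field_simp
      have hA := divG hc1 (sqG hg4)
      have hB := divG hc2 (sqG hg4)
      set A := x * X ^ 2 / g ^ 2
      set B := y * Y ^ 2 / g ^ 2
      have hAne := ne_zero_of_G hk hA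
      have hxm : x - y ≠ 0 := fun h => hm (hpos h)
      by_cases hxp : x + y = 0
      · have e : 2 * (x - y) = 64 * A := by linear_combination -2 * hxp + 4 * hx16
        have h8 := h2'.one_of_ne (mul_ne_zero h2 hxm)
        rw [e] at h8
        apply hr.r4' _ (divG h8 hA)
        field_simp
      · have hg1ne : g₁ ≠ 0 := by
          rintro h
          rw [h, mul_zero] at h1
          exact hxp h1
        have h5 := hg₁.one_of_ne hg1ne
        apply hr.r4 _ _ (divG hB hA) (divG h5 hA)
        have e : 8 * (A + B) = g₁ := by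
          have : 2 * (8 * (A + B)) = 2 * g₁ := by linear_combination h1 - hx16 - hy16
          exact mul_left_cancel₀ h2 this
        field_simp
        linear_combination e
  · have hg₃0 : g₃ ≠ 0 := by
      rintro h; rw [h, mul_zero] at h3; exact hp h3
    have g3 := hg₃.one_of_ne hg₃0
    by_cases hm : X - Y = 0
    · have hX : X = g₃ := by
        have : 2 * X = 2 * g₃ := by linear_combination h3 + hm
        exact mul_left_cancel₀ h2 this
      have hY : Y = g₃ := by linear_combination hX - hm
      have hXne : X ≠ 0 := by rw [hX]; exact hg₃0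
      have hYne : Y ≠ 0 := by rw [hY]; exact hg₃0
      have hxne : x ≠ 0 := fun h => hXne (hx0.1 h)
      have hyne : y ≠ 0 := fun h => hYne (hy0.1 h)
      have hc1 := ex.one_of_ne (mul_ne_zero hxne (pow_ne_zero 2 hXne))
      have hc2 := ey.one_of_ne (mul_ne_zero hyne (pow_ne_zero 2 hYne))
      have hxG : x ^ (2 * k) = 1 := by
        have := divG hc1 (sqG g3)
        rw [hX] at this
        have e : x * g₃ ^ 2 / g₃ ^ 2 = x := by field_simp
        rwa [e] at this
      have hyG : y ^ (2 * k) = 1 := by
        have := divG hc2 (sqG g3)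
        rw [hY] at this
        have e : y * g₃ ^ 2 / g₃ ^ 2 = y := by field_simp
        rwa [e] at this
      refine ⟨?_, hxG⟩
      by_contra hxm
      have g2 := h2'.one_of_ne (mul_ne_zero h2 hxm)
      apply hr.r3 _ _ (negG (divG hyG hxG)) (divG g2 hxG)
      field_simp
      ring
    · exfalso
      have hg4 := h4.one_of_ne (mul_ne_zero h2 hm)
      set g₄ := 2 * (X - Y) with hgdef
      have hg4ne : g₄ ≠ 0 := ne_zero_of_G hk hg4
      have h4X : 4 * X = 4 * g₃ + g₄ := by rw [hgdef]; linear_combination 2 * h3
      have h4Y : 4 * Y = 4 * g₃ - g₄ := by rw [hgdef]; linear_combination 2 * h3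
      have hXne : X ≠ 0 := by
        intro h
        rw [h, mul_zero] at h4X
        apply hr.r5' _ (divG hg4 g3)
        field_simp
        linear_combination -h4X
      have hYne : Y ≠ 0 := by
        intro h
        rw [h, mul_zero] at h4Y
        apply hr.r5' _ (negG (divG hg4 g3))
        field_simp
        linear_combination -h4Y
      have hxne : x ≠ 0 := fun h => hXne (hx0.1 h)
      have hyne : y ≠ 0 := fun h => hYne (hy0.1 h)
      have hc1 := ex.one_of_ne (mul_ne_zero hxne (pow_ne_zero 2 hXne))
      have hc2 := ey.one_of_ne (mul_ne_zero hyne (pow_ne_zero 2 hYne))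
      have hxp : x + y ≠ 0 := fun h => hp (hneg h)
      have hxm : x - y ≠ 0 := fun h => hm (hpos h)
      have hg1ne : g₁ ≠ 0 := by
        rintro h
        rw [h, mul_zero] at h1
        exact hxp h1
      have g1 := hg₁.one_of_ne hg1ne
      have g2 := h2'.one_of_ne (mul_ne_zero h2 hxm)
      set g₂ := 2 * (x - y) with hg2def
      have h4x : 4 * x = 4 * g₁ + g₂ := by rw [hg2def]; linear_combination 2 * h1
      have h4y : 4 * y = 4 * g₁ - g₂ := by rw [hg2def]; linear_combination 2 * h1
      have e1 : (4 * g₁ + g₂) * (4 * g₃ + g₄) ^ 2 = 64 * (x * X ^ 2) := by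
        rw [← h4x, ← h4X]; ring
      have e2 : (4 * g₁ - g₂) * (4 * g₃ - g₄) ^ 2 = 64 * (y * Y ^ 2) := by
        rw [← h4y, ← h4Y]; ring
      refine hr.r5 (g₂ / g₁) (g₄ / g₃) _ _ (divG g2 g1) (divG hg4 g3)
        (divG hc1 (mulG g1 (sqG g3))) (divG hc2 (mulG g1 (sqG g3))) ?_ ?_
      · field_simp
        linear_combination e1
      · field_simp
        linear_combination e2

/-- The relations are impossible for `k = 1`, `ℓ > 7`, `ℓ = 3 (mod 4)`. -/
theorem noRel_one {l : ℕ} [hl : Fact l.Prime] (h7 : 7 < l) (h4 : l % 4 = 3) :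
    NoRel 1 (ZMod l) := by
  have hp := hl.out
  have key : ∀ k : ℕ, ((k : ℕ) : ZMod l) = 0 → l ∣ k := fun k h =>
    (ZMod.natCast_eq_zero_iff _ _).1 h
  have small : ∀ k : ℕ, 0 < k → k < l → ¬ l ∣ k := fun k hk hkl h =>
    absurd (Nat.le_of_dvd hk h) (not_le.2 hkl)
  have nz : ∀ k : ℕ, 0 < k → k < l → ((k : ℕ) : ZMod l) ≠ 0 := fun k hk hkl h =>
    small k hk hkl (key k h)
  have two : (2 : ZMod l) ≠ 0 := by have := nz 2 (by norm_num) (by omega); exact_mod_cast this
  have three : (3 : ZMod l) ≠ 0 := by have := nz 3 (by norm_num) (by omega); exact_mod_cast this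
  have five : (5 : ZMod l) ≠ 0 := by have := nz 5 (by norm_num) (by omega); exact_mod_cast this
  have seven : (7 : ZMod l) ≠ 0 := by have := nz 7 (by norm_num) (by omega); exact_mod_cast this
  have pm : ∀ a : ZMod l, a ^ (2 * 1) = 1 → a = 1 ∨ a = -1 := by
    intro a ha
    have : (a - 1) * (a + 1) = 0 := by linear_combination ha
    rcases mul_eq_zero.1 this with h | h
    · left; linear_combination h
    · right; linear_combination h
  have hne13 : ¬ l ∣ 13 := by
    intro h
    have := (Nat.prime_dvd_prime_iff_eq hp (by norm_num)).1 h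
    omega
  have hne17 : ¬ l ∣ 17 := by
    intro h
    have := (Nat.prime_dvd_prime_iff_eq hp (by norm_num)).1 h
    omega
  have thirteen : (13 : ZMod l) ≠ 0 := fun h => hne13 (key 13 (by exact_mod_cast h))
  have seventeen : (17 : ZMod l) ≠ 0 := fun h => hne17 (key 17 (by exact_mod_cast h))
  have m2 := fun (a b : ZMod l) (ha : a ≠ 0) (hb : b ≠ 0) => mul_ne_zero ha hb
  refine ⟨?_, ?_, ?_, ?_, ?_, ?_, ?_, ?_⟩
  · intro a b c ha hb hc h
    have h64 : (2 : ZMod l) * 2 * 2 * 2 * 2 * 2 ≠ 0 :=
      m2 _ _ (m2 _ _ (m2 _ _ (m2 _ _ (m2 _ _ two two) two) two) two) two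
    have h56 : (2 : ZMod l) * 2 * 2 * 7 ≠ 0 := m2 _ _ (m2 _ _ (m2 _ _ two two) two) seven
    have h72 : (2 : ZMod l) * 2 * 2 * 3 * 3 ≠ 0 :=
      m2 _ _ (m2 _ _ (m2 _ _ (m2 _ _ two two) two) three) three
    rcases pm a ha with rfl | rfl <;> rcases pm b hb with rfl | rfl <;>
      rcases pm c hc with rfl | rfl
    · exact h64 (by linear_combination -h)
    · exact h64 (by linear_combination h)
    · exact h64 (by linear_combination -h)
    · exact h64 (by linear_combination h)
    · exact h64 (by linear_combination -h)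
    · exact h64 (by linear_combination h)
    · exact h56 (by linear_combination -h)
    · exact h72 (by linear_combination h)
  · intro a c ha hc h
    rcases pm a ha with rfl | rfl <;> rcases pm c hc with rfl | rfl
    · exact seven (by linear_combination h)
    · exact (m2 _ _ three three) (by linear_combination h)
    · exact one_ne_zero (α := ZMod l) (by linear_combination -h)
    · exact one_ne_zero (α := ZMod l) (by linear_combination h)
  · intro c hc h
    rcases pm c hc with rfl | rfl
    · exact seven (by linear_combination h)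
    · exact (m2 _ _ three three) (by linear_combination h)
  · intro a c ha hc h
    rcases pm a ha with rfl | rfl <;> rcases pm c hc with rfl | rfl
    · exact three (by linear_combination h)
    · exact five (by linear_combination h)
    · exact one_ne_zero (α := ZMod l) (by linear_combination -h)
    · exact one_ne_zero (α := ZMod l) (by linear_combination h)
  · intro a c ha hc h
    rcases pm a ha with rfl | rfl <;> rcases pm c hc with rfl | rfl
    · exact (m2 _ _ three five) (by linear_combination h)
    · exact seventeen (by linear_combination h)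
    · exact one_ne_zero (α := ZMod l) (by linear_combination -h)
    · exact one_ne_zero (α := ZMod l) (by linear_combination h)
  · intro c hc h
    rcases pm c hc with rfl | rfl
    · exact (m2 _ _ (m2 _ _ three three) seven) (by linear_combination h)
    · exact (m2 _ _ five thirteen) (by linear_combination h)
  · intro a b c c' ha hb hc hc' h h'
    rcases pm a ha with rfl | rfl <;> rcases pm b hb with rfl | rfl
    · -- 125 = 64 c, 27 = 64 c'
      have e1 : (27 : ZMod l) = 64 * c' := by linear_combination h'
      rcases pm c' hc' with rfl | rfl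
      · have h1 : l ∣ 37 := by apply key; push_cast; linear_combination -e1
        have := (Nat.prime_dvd_prime_iff_eq hp (by norm_num)).1 h1
        omega
      · have h1 : (7 : ZMod l) * 13 = 0 := by linear_combination e1
        exact (m2 _ _ seven thirteen) h1
    · -- (5)(9) = 45 = 64 c, (3)(25) = 75 = 64 c'
      have e1 : (45 : ZMod l) = 64 * c := by linear_combination h
      have e2 : (75 : ZMod l) = 64 * c' := by linear_combination h'
      rcases pm c hc with rfl | rfl <;> rcases pm c' hc' with rfl | rfl
      · have h1 : l ∣ 19 := by apply key; push_cast; linear_combination -e1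
        have h2 : l ∣ 11 := by apply key; push_cast; linear_combination e2
        have := (Nat.prime_dvd_prime_iff_eq hp (by norm_num)).1 h1
        subst this
        norm_num at h2
      · have h1 : l ∣ 19 := by apply key; push_cast; linear_combination -e1
        have h2 : l ∣ 139 := by apply key; push_cast; linear_combination e2
        have := (Nat.prime_dvd_prime_iff_eq hp (by norm_num)).1 h1
        subst this
        norm_num at h2
      · have h1 : l ∣ 109 := by apply key; push_cast; linear_combination e1
        have := (Nat.prime_dvd_prime_iff_eq hp (by norm_num)).1 h1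
        omega
      · have h1 : l ∣ 109 := by apply key; push_cast; linear_combination e1
        have := (Nat.prime_dvd_prime_iff_eq hp (by norm_num)).1 h1
        omega
    · -- (3)(25) = 75 = 64 c, (5)(9) = 45 = 64 c'
      have e1 : (45 : ZMod l) = 64 * c' := by linear_combination h'
      have e2 : (75 : ZMod l) = 64 * c := by linear_combination h
      rcases pm c hc with rfl | rfl <;> rcases pm c' hc' with rfl | rfl
      · have h1 : l ∣ 19 := by apply key; push_cast; linear_combination -e1
        have h2 : l ∣ 11 := by apply key; push_cast; linear_combination e2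
        have := (Nat.prime_dvd_prime_iff_eq hp (by norm_num)).1 h1
        subst this
        norm_num at h2
      · have h1 : l ∣ 109 := by apply key; push_cast; linear_combination e1
        have := (Nat.prime_dvd_prime_iff_eq hp (by norm_num)).1 h1
        omega
      · have h1 : l ∣ 19 := by apply key; push_cast; linear_combination -e1
        have h2 : l ∣ 139 := by apply key; push_cast; linear_combination e2
        have := (Nat.prime_dvd_prime_iff_eq hp (by norm_num)).1 h1
        subst this
        norm_num at h2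
      · have h1 : l ∣ 109 := by apply key; push_cast; linear_combination e1
        have := (Nat.prime_dvd_prime_iff_eq hp (by norm_num)).1 h1
        omega
    · -- 27 = 64 c, 125 = 64 c'
      have e1 : (27 : ZMod l) = 64 * c := by linear_combination h
      rcases pm c hc with rfl | rfl
      · have h1 : l ∣ 37 := by apply key; push_cast; linear_combination -e1
        have := (Nat.prime_dvd_prime_iff_eq hp (by norm_num)).1 h1
        omega
      · have h1 : (7 : ZMod l) * 13 = 0 := by linear_combination e1
        exact (m2 _ _ seven thirteen) h1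
  · intro a ha h
    rcases pm a ha with rfl | rfl
    · exact five (by linear_combination h)
    · exact three (by linear_combination h)

end Pool.Agent.H48.BN
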