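import Mathlib

set_option autoImplicit false

/-!
# The two computations in a prime field whose `N`-th powers are `0, 1, -1`
-/

namespace Pool.Agent.H48.BN

/-- `a` is `0`, `1` or `-1`. -/
def Tri {F : Type*} [Field F] (a : F) : Prop := a = 0 ∨ a = 1 ∨ a = -1

theorem Tri.neg {F : Type*} [Field F] {a : F} (h : Tri a) : Tri (-a) := by
  rcases h with h | h | h
  · left; rw [h]; simp
  · right; right; rw [h]
  · right; left; rw [h]; simp

theorem Tri.sq {F : Type*} [Field F] {a : F} (h : Tri a) (h0 : a ≠ 0) : a ^ 2 = 1 := by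
  rcases h with h | h | h
  · exact absurd h h0
  · rw [h]; ring
  · rw [h]; ring

/-- If `a` and `b` square to `1` then `a = b` or `a = -b`. -/
theorem eq_or_neg_of_sq {F : Type*} [Field F] {a b : F} (ha : a ^ 2 = 1) (hb : b ^ 2 = 1) :
    a = b ∨ a = -b := by
  have h : (a - b) * (a + b) = 0 := by ring_nf; rw [ha, hb]; ring
  rcases mul_eq_zero.1 h with h | h
  · left; linear_combination h
  · right; linear_combination h

theorem one_or_neg_of_sq {F : Type*} [Field F] {a : F} (ha : a ^ 2 = 1) :
    a = 1 ∨ a = -1 := eq_or_neg_of_sq ha (by ring)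

/-- The computation for odd `z`. -/
theorem field_odd {F : Type*} [Field F] {x y X Y m₁ m₂ : F} (h2 : (2 : F) ≠ 0)
    (ex : Tri (x * X ^ 2)) (ey : Tri (y * Y ^ 2))
    (hx0 : x = 0 ↔ X = 0) (hy0 : y = 0 ↔ Y = 0) (hxy : ¬ (x = 0 ∧ y = 0))
    (hneg : x + y = 0 → X + Y = 0) (hpos : x - y = 0 → X - Y = 0)
    (h1 : Tri (m₁ * (x + y))) (h2' : Tri (m₂ * (x - y)))
    (h3 : Tri (X + Y)) (h4 : Tri (X - Y)) (hm₁ : m₁ ≠ 0) (hm₂ : m₂ ≠ 0) :
    (x * y = 0 ∧ (m₁ = m₂ ∨ m₁ = -m₂)) ∨
      (x + y = 0 ∧ (8 * m₂ = 1 ∨ 8 * m₂ = -1)) ∨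
      (x - y = 0 ∧ (8 * m₁ = 1 ∨ 8 * m₁ = -1)) := by
  by_cases hp : X + Y = 0
  · by_cases hm : X - Y = 0
    · exfalso
      have hX : 2 * X = 0 := by linear_combination hp + hm
      have hY : 2 * Y = 0 := by linear_combination hp - hm
      rcases mul_eq_zero.1 hX with h | h
      · exact h2 h
      rcases mul_eq_zero.1 hY with h' | h'
      · exact h2 h'
      exact hxy ⟨hx0.2 h, hy0.2 h'⟩
    · -- X = - Y, 2 X = X - Y = ± 1
      have hs := Tri.sq h4 hm
      have hX2 : 4 * X ^ 2 = 1 := by
        have : X - Y = 2 * X := by linear_combination -hp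
        rw [this] at hs; linear_combination hs
      have hY2 : 4 * Y ^ 2 = 1 := by
        have : X - Y = - (2 * Y) := by linear_combination hp
        rw [this] at hs; linear_combination hs
      have hX0 : X ≠ 0 := by rintro h; rw [h] at hX2; norm_num at hX2
      have hY0 : Y ≠ 0 := by rintro h; rw [h] at hY2; norm_num at hY2
      have hx0' : x ≠ 0 := fun h => hX0 (hx0.1 h)
      have hy0' : y ≠ 0 := fun h => hY0 (hy0.1 h)
      have exs := Tri.sq ex (mul_ne_zero hx0' (pow_ne_zero 2 hX0))
      have eys := Tri.sq ey (mul_ne_zero hy0' (pow_ne_zero 2 hY0))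
      -- x ^ 2 = 16
      have hxs : x ^ 2 = 16 := by
        have : x ^ 2 * (4 * X ^ 2) ^ 2 = 16 * (x * X ^ 2) ^ 2 := by ring
        rw [hX2, exs] at this; linear_combination this
      have hys : y ^ 2 = 16 := by
        have : y ^ 2 * (4 * Y ^ 2) ^ 2 = 16 * (y * Y ^ 2) ^ 2 := by ring
        rw [hY2, eys] at this; linear_combination this
      have hprod : (x - y) * (x + y) = 0 := by linear_combination hxs - hys
      rcases mul_eq_zero.1 hprod with h | h
      · exact absurd (hpos h) hm
      · right; left
        refine ⟨h, ?_⟩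
        have hd : x - y = 2 * x := by linear_combination -h
        have hne : m₂ * (x - y) ≠ 0 := by
          rw [hd]; exact mul_ne_zero hm₂ (mul_ne_zero h2 hx0')
        have hsq := Tri.sq h2' hne
        have : (8 * m₂) ^ 2 = 1 := by
          rw [hd] at hsq; linear_combination hsq - 4 * m₂ ^ 2 * hxs
        exact one_or_neg_of_sq this
  · by_cases hm : X - Y = 0
    · have hs := Tri.sq h3 hp
      have hX2 : 4 * X ^ 2 = 1 := by
        have : X + Y = 2 * X := by linear_combination -hm
        rw [this] at hs; linear_combination hs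
      have hY2 : 4 * Y ^ 2 = 1 := by
        have : X + Y = (2 * Y) := by linear_combination hm
        rw [this] at hs; linear_combination hs
      have hX0 : X ≠ 0 := by rintro h; rw [h] at hX2; norm_num at hX2
      have hY0 : Y ≠ 0 := by rintro h; rw [h] at hY2; norm_num at hY2
      have hx0' : x ≠ 0 := fun h => hX0 (hx0.1 h)
      have hy0' : y ≠ 0 := fun h => hY0 (hy0.1 h)
      have exs := Tri.sq ex (mul_ne_zero hx0' (pow_ne_zero 2 hX0))
      have eys := Tri.sq ey (mul_ne_zero hy0' (pow_ne_zero 2 hY0))
      have hxs : x ^ 2 = 16 := by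
        have : x ^ 2 * (4 * X ^ 2) ^ 2 = 16 * (x * X ^ 2) ^ 2 := by ring
        rw [hX2, exs] at this; linear_combination this
      have hys : y ^ 2 = 16 := by
        have : y ^ 2 * (4 * Y ^ 2) ^ 2 = 16 * (y * Y ^ 2) ^ 2 := by ring
        rw [hY2, eys] at this; linear_combination this
      have hprod : (x - y) * (x + y) = 0 := by linear_combination hxs - hys
      rcases mul_eq_zero.1 hprod with h | h
      · right; right
        refine ⟨h, ?_⟩
        have hd : x + y = 2 * x := by linear_combination -h
        have hne : m₁ * (x + y) ≠ 0 := by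
          rw [hd]; exact mul_ne_zero hm₁ (mul_ne_zero h2 hx0')
        have hsq := Tri.sq h1 hne
        have : (8 * m₁) ^ 2 = 1 := by
          rw [hd] at hsq; linear_combination hsq - 4 * m₁ ^ 2 * hxs
        exact one_or_neg_of_sq this
      · exact absurd (hneg h) hp
    · -- both nonzero
      have hs3 := Tri.sq h3 hp
      have hs4 := Tri.sq h4 hm
      have hXY : X * Y = 0 := by
        have : 4 * (X * Y) = 0 := by linear_combination hs3 - hs4
        rcases mul_eq_zero.1 this with h | h
        · exfalso
          have : (2 : F) * 2 = 0 := by linear_combination h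
          rcases mul_eq_zero.1 this with h | h <;> exact h2 h
        · exact h
      left
      have key : ∀ w : F, w ≠ 0 → Tri (m₁ * w) → Tri (m₂ * w) → (m₁ = m₂ ∨ m₁ = -m₂) := by
        intro w hw ha hb
        have h5 := Tri.sq ha (mul_ne_zero hm₁ hw)
        have h6 := Tri.sq hb (mul_ne_zero hm₂ hw)
        rcases eq_or_neg_of_sq h5 h6 with h | h
        · left; exact mul_right_cancel₀ hw h
        · right
          apply mul_right_cancel₀ hw
          rw [h]; ring
      rcases mul_eq_zero.1 hXY with h | h
      · have hx : x = 0 := hx0.2 h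
        have hy : y ≠ 0 := fun h' => hxy ⟨hx, h'⟩
        refine ⟨by rw [hx]; ring, key y hy ?_ ?_⟩
        · rw [hx, zero_add] at h1; exact h1
        · rw [hx, zero_sub] at h2'
          have := Tri.neg h2'
          rwa [mul_neg, neg_neg] at this
      · have hy : y = 0 := hy0.2 h
        have hx : x ≠ 0 := fun h' => hxy ⟨h', hy⟩
        refine ⟨by rw [hy]; ring, key x hx ?_ ?_⟩
        · rw [hy, add_zero] at h1; exact h1
        · rw [hy, sub_zero] at h2'; exact h2'

/-- The computation for even `z`. -/
theorem field_even {F : Type*} [Field F] {x y X Y m₁ m₂ g₁ g₃ : F} (h2 : (2 : F) ≠ 0)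
    (h3' : (3 : F) ≠ 0) (h5' : (5 : F) ≠ 0)
    (ex : Tri (x * X ^ 2)) (ey : Tri (y * Y ^ 2))
    (hx0 : x = 0 ↔ X = 0) (hy0 : y = 0 ↔ Y = 0) (hxy : ¬ (x = 0 ∧ y = 0))
    (hneg : x + y = 0 → X + Y = 0) (hpos : x - y = 0 → X - Y = 0)
    (h1 : m₁ * (x + y) = 2 * g₁) (hg₁ : Tri g₁) (h2' : Tri (2 * m₂ * (x - y)))
    (h3 : X + Y = 2 * g₃) (hg₃ : Tri g₃) (h4 : Tri (2 * (X - Y)))
    (hm₁ : m₁ ≠ 0) (hm₂ : m₂ ≠ 0) :
    (x - y = 0 ∧ (m₁ = 1 ∨ m₁ = -1) ∧ x ^ 2 = 1) ∨
      (x + y = 0 ∧ (64 * m₂ = 1 ∨ 64 * m₂ = -1) ∧ x ^ 2 = 256 ∧ 16 * X ^ 2 = 1) ∨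
      ((272 * m₁ = 225 ∨ 272 * m₁ = -225) ∧ (512 * m₂ = 225 ∨ 512 * m₂ = -225)) ∨
      ((128 * m₁ = 225 ∨ 128 * m₁ = -225) ∧ (1088 * m₂ = 225 ∨ 1088 * m₂ = -225)) := by
  have h4' : (4 : F) ≠ 0 := by
    have : (4 : F) = 2 * 2 := by norm_num
    rw [this]; exact mul_ne_zero h2 h2
  by_cases hp : X + Y = 0
  · by_cases hm : X - Y = 0
    · exfalso
      have hX : 2 * X = 0 := by linear_combination hp + hm
      have hY : 2 * Y = 0 := by linear_combination hp - hm
      rcases mul_eq_zero.1 hX with h | h
      · exact h2 h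
      rcases mul_eq_zero.1 hY with h' | h'
      · exact h2 h'
      exact hxy ⟨hx0.2 h, hy0.2 h'⟩
    · right; left
      have hs := Tri.sq h4 (mul_ne_zero h2 hm)
      have hX2 : 16 * X ^ 2 = 1 := by
        have : 2 * (X - Y) = 4 * X := by linear_combination -2 * hp
        rw [this] at hs; linear_combination hs
      have hY2 : 16 * Y ^ 2 = 1 := by
        have : 2 * (X - Y) = - (4 * Y) := by linear_combination 2 * hp
        rw [this] at hs; linear_combination hs
      have hX0 : X ≠ 0 := by rintro h; rw [h] at hX2; norm_num at hX2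
      have hY0 : Y ≠ 0 := by rintro h; rw [h] at hY2; norm_num at hY2
      have hx0' : x ≠ 0 := fun h => hX0 (hx0.1 h)
      have hy0' : y ≠ 0 := fun h => hY0 (hy0.1 h)
      have exs := Tri.sq ex (mul_ne_zero hx0' (pow_ne_zero 2 hX0))
      have eys := Tri.sq ey (mul_ne_zero hy0' (pow_ne_zero 2 hY0))
      have hxs : x ^ 2 = 256 := by
        have : x ^ 2 * (16 * X ^ 2) ^ 2 = 256 * (x * X ^ 2) ^ 2 := by ring
        rw [hX2, exs] at this; linear_combination this
      have hys : y ^ 2 = 256 := by
        have : y ^ 2 * (16 * Y ^ 2) ^ 2 = 256 * (y * Y ^ 2) ^ 2 := by ring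
        rw [hY2, eys] at this; linear_combination this
      have hprod : (x - y) * (x + y) = 0 := by linear_combination hxs - hys
      rcases mul_eq_zero.1 hprod with h | h
      · exact absurd (hpos h) hm
      · refine ⟨h, ?_, hxs, hX2⟩
        have hd : 2 * m₂ * (x - y) = 4 * m₂ * x := by linear_combination -2 * m₂ * h
        have hne : 2 * m₂ * (x - y) ≠ 0 := by
          rw [hd]; exact mul_ne_zero (mul_ne_zero h4' hm₂) hx0'
        have hsq := Tri.sq h2' hne
        have : (64 * m₂) ^ 2 = 1 := by
          rw [hd] at hsq; linear_combination hsq - 16 * m₂ ^ 2 * hxs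
        exact one_or_neg_of_sq this
  · have hg₃0 : g₃ ≠ 0 := by
      rintro h; rw [h, mul_zero] at h3; exact hp h3
    have hg₃s := Tri.sq hg₃ hg₃0
    by_cases hm : X - Y = 0
    · left
      have hX : X = g₃ := by
        have : 2 * (X - g₃) = 0 := by linear_combination h3 + hm
        rcases mul_eq_zero.1 this with h | h
        · exact absurd h h2
        · linear_combination h
      have hY : Y = g₃ := by linear_combination hX - hm
      have hX0 : X ≠ 0 := by rw [hX]; exact hg₃0
      have hY0 : Y ≠ 0 := by rw [hY]; exact hg₃0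
      have hx0' : x ≠ 0 := fun h => hX0 (hx0.1 h)
      have hy0' : y ≠ 0 := fun h => hY0 (hy0.1 h)
      have exs := Tri.sq ex (mul_ne_zero hx0' (pow_ne_zero 2 hX0))
      have eys := Tri.sq ey (mul_ne_zero hy0' (pow_ne_zero 2 hY0))
      have hxs : x ^ 2 = 1 := by
        rw [hX, hg₃s] at exs; linear_combination exs
      have hys : y ^ 2 = 1 := by
        rw [hY, hg₃s] at eys; linear_combination eys
      have hprod : (x - y) * (x + y) = 0 := by linear_combination hxs - hys
      rcases mul_eq_zero.1 hprod with h | h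
      · refine ⟨h, ?_, hxs⟩
        have hmx : m₁ * x = g₁ := by
          have : 2 * (m₁ * x - g₁) = 0 := by linear_combination h1 + m₁ * h
          rcases mul_eq_zero.1 this with h | h
          · exact absurd h h2
          · linear_combination h
        have hne : g₁ ≠ 0 := by rw [← hmx]; exact mul_ne_zero hm₁ hx0'
        have hs := Tri.sq hg₁ hne
        have : m₁ ^ 2 = 1 := by
          rw [← hmx] at hs; linear_combination hs - m₁ ^ 2 * hxs
        exact one_or_neg_of_sq this
      · exact absurd (hneg h) hp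
    · right; right
      have hs4 := Tri.sq h4 (mul_ne_zero h2 hm)
      -- 4 X = 4 g₃ + g₄, with g₄ = 2 (X - Y)
      set g₄ := 2 * (X - Y) with hg₄
      have hg₄0 : g₄ ≠ 0 := mul_ne_zero h2 hm
      have h4X : 4 * X = 4 * g₃ + g₄ := by rw [hg₄]; linear_combination 2 * h3
      have h4Y : 4 * Y = 4 * g₃ - g₄ := by rw [hg₄]; linear_combination 2 * h3
      have hxp : x + y ≠ 0 := fun h => hp (hneg h)
      have hxm : x - y ≠ 0 := fun h => hm (hpos h)
      have hg₁0 : g₁ ≠ 0 := by
        rintro h
        rw [h, mul_zero] at h1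
        rcases mul_eq_zero.1 h1 with h | h
        · exact hm₁ h
        · exact hxp h
      have hs1 := Tri.sq hg₁ hg₁0
      have hs2 := Tri.sq h2' (mul_ne_zero (mul_ne_zero h2 hm₂) hxm)
      have h15 : (15 : F) ≠ 0 := by
        have : (15 : F) = 3 * 5 := by norm_num
        rw [this]; exact mul_ne_zero h3' h5'
      -- g₄ = ± g₃
      rcases eq_or_neg_of_sq hs4 hg₃s with hgg | hgg
      · -- 4 X = 5 g₃, 4 Y = 3 g₃
        have hX5 : 16 * X ^ 2 = 25 := by
          have : (4 * X) ^ 2 = (5 * g₃) ^ 2 := by rw [h4X, hgg]; ring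
          linear_combination this + 25 * hg₃s
        have hY3 : 16 * Y ^ 2 = 9 := by
          have : (4 * Y) ^ 2 = (3 * g₃) ^ 2 := by rw [h4Y, hgg]; ring
          linear_combination this + 9 * hg₃s
        have hX0 : X ≠ 0 := by
          rintro h; rw [h] at hX5
          have : (5 : F) * 5 = 0 := by linear_combination -hX5
          rcases mul_eq_zero.1 this with h | h <;> exact h5' h
        have hY0 : Y ≠ 0 := by
          rintro h; rw [h] at hY3
          have : (3 : F) * 3 = 0 := by linear_combination -hY3
          rcases mul_eq_zero.1 this with h | h <;> exact h3' h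
        have hx0' : x ≠ 0 := fun h => hX0 (hx0.1 h)
        have hy0' : y ≠ 0 := fun h => hY0 (hy0.1 h)
        have exs := Tri.sq ex (mul_ne_zero hx0' (pow_ne_zero 2 hX0))
        have eys := Tri.sq ey (mul_ne_zero hy0' (pow_ne_zero 2 hY0))
        have hxs : (25 * x) ^ 2 = 256 := by
          have : x ^ 2 * (16 * X ^ 2) ^ 2 = 256 * (x * X ^ 2) ^ 2 := by ring
          rw [hX5, exs] at this; linear_combination this
        have hys : (9 * y) ^ 2 = 256 := by
          have : y ^ 2 * (16 * Y ^ 2) ^ 2 = 256 * (y * Y ^ 2) ^ 2 := by ring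
          rw [hY3, eys] at this; linear_combination this
        have hprod : (25 * x - 9 * y) * (25 * x + 9 * y) = 0 := by
          linear_combination hxs - hys
        rcases mul_eq_zero.1 hprod with h | h
        · -- 25 x = 9 y : 225 (x + y) = 34 * 9 y... 
          left
          have e1 : 225 * (x + y) = 34 * (9 * y) := by linear_combination 9 * h
          have e2 : 225 * (x - y) = -16 * (9 * y) := by linear_combination 9 * h
          constructor
          · apply sq_eq_sq_iff_eq_or_eq_neg.1
            have : (225 * (m₁ * (x + y))) ^ 2 = (225 * (2 * g₁)) ^ 2 := by rw [h1]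
            have h' : m₁ ^ 2 * (225 * (x + y)) ^ 2 = 225 ^ 2 * 4 * g₁ ^ 2 := by
              linear_combination this
            rw [e1, hs1] at h'
            have h'' : 4 * ((272 * m₁) ^ 2 - 225 ^ 2) = 0 := by
              linear_combination h' - m₁ ^ 2 * 34 ^ 2 * hys
            rcases mul_eq_zero.1 h'' with h | h
            · exact absurd h h4'
            · linear_combination h
          · apply sq_eq_sq_iff_eq_or_eq_neg.1
            have h' : 4 * m₂ ^ 2 * (225 * (x - y)) ^ 2 = 225 ^ 2 := by
              linear_combination 225 ^ 2 * hs2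
            rw [e2] at h'
            linear_combination h' - 4 * m₂ ^ 2 * 256 * hys
        · right
          have e1 : 225 * (x + y) = 16 * (9 * y) := by linear_combination 9 * h
          have e2 : 225 * (x - y) = -34 * (9 * y) := by linear_combination 9 * h
          constructor
          · apply sq_eq_sq_iff_eq_or_eq_neg.1
            have : (225 * (m₁ * (x + y))) ^ 2 = (225 * (2 * g₁)) ^ 2 := by rw [h1]
            have h' : m₁ ^ 2 * (225 * (x + y)) ^ 2 = 225 ^ 2 * 4 * g₁ ^ 2 := by
              linear_combination this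
            rw [e1, hs1] at h'
            have h'' : 4 * ((128 * m₁) ^ 2 - 225 ^ 2) = 0 := by
              linear_combination h' - m₁ ^ 2 * 16 ^ 2 * hys
            rcases mul_eq_zero.1 h'' with h | h
            · exact absurd h h4'
            · linear_combination h
          · apply sq_eq_sq_iff_eq_or_eq_neg.1
            have h' : 4 * m₂ ^ 2 * (225 * (x - y)) ^ 2 = 225 ^ 2 := by
              linear_combination 225 ^ 2 * hs2
            rw [e2] at h'
            linear_combination h' - 4 * m₂ ^ 2 * 34 ^ 2 * hys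
      · -- 4 X = 3 g₃, 4 Y = 5 g₃
        have hX5 : 16 * X ^ 2 = 9 := by
          have : (4 * X) ^ 2 = (3 * g₃) ^ 2 := by rw [h4X, hgg]; ring
          linear_combination this + 9 * hg₃s
        have hY3 : 16 * Y ^ 2 = 25 := by
          have : (4 * Y) ^ 2 = (5 * g₃) ^ 2 := by rw [h4Y, hgg]; ring
          linear_combination this + 25 * hg₃s
        have hX0 : X ≠ 0 := by
          rintro h; rw [h] at hX5
          have : (3 : F) * 3 = 0 := by linear_combination -hX5
          rcases mul_eq_zero.1 this with h | h <;> exact h3' h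
        have hY0 : Y ≠ 0 := by
          rintro h; rw [h] at hY3
          have : (5 : F) * 5 = 0 := by linear_combination -hY3
          rcases mul_eq_zero.1 this with h | h <;> exact h5' h
        have hx0' : x ≠ 0 := fun h => hX0 (hx0.1 h)
        have hy0' : y ≠ 0 := fun h => hY0 (hy0.1 h)
        have exs := Tri.sq ex (mul_ne_zero hx0' (pow_ne_zero 2 hX0))
        have eys := Tri.sq ey (mul_ne_zero hy0' (pow_ne_zero 2 hY0))
        have hxs : (9 * x) ^ 2 = 256 := by
          have : x ^ 2 * (16 * X ^ 2) ^ 2 = 256 * (x * X ^ 2) ^ 2 := by ring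
          rw [hX5, exs] at this; linear_combination this
        have hys : (25 * y) ^ 2 = 256 := by
          have : y ^ 2 * (16 * Y ^ 2) ^ 2 = 256 * (y * Y ^ 2) ^ 2 := by ring
          rw [hY3, eys] at this; linear_combination this
        have hprod : (9 * x - 25 * y) * (9 * x + 25 * y) = 0 := by
          linear_combination hxs - hys
        rcases mul_eq_zero.1 hprod with h | h
        · left
          have e1 : 225 * (x + y) = 34 * (9 * x) := by linear_combination -9 * h
          have e2 : 225 * (x - y) = 16 * (9 * x) := by linear_combination 9 * h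
          constructor
          · apply sq_eq_sq_iff_eq_or_eq_neg.1
            have : (225 * (m₁ * (x + y))) ^ 2 = (225 * (2 * g₁)) ^ 2 := by rw [h1]
            have h' : m₁ ^ 2 * (225 * (x + y)) ^ 2 = 225 ^ 2 * 4 * g₁ ^ 2 := by
              linear_combination this
            rw [e1, hs1] at h'
            have h'' : 4 * ((272 * m₁) ^ 2 - 225 ^ 2) = 0 := by
              linear_combination h' - m₁ ^ 2 * 34 ^ 2 * hxs
            rcases mul_eq_zero.1 h'' with h | h
            · exact absurd h h4'
            · linear_combination h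
          · apply sq_eq_sq_iff_eq_or_eq_neg.1
            have h' : 4 * m₂ ^ 2 * (225 * (x - y)) ^ 2 = 225 ^ 2 := by
              linear_combination 225 ^ 2 * hs2
            rw [e2] at h'
            linear_combination h' - 4 * m₂ ^ 2 * 256 * hxs
        · right
          have e1 : 225 * (x + y) = 16 * (9 * x) := by linear_combination 9 * h
          have e2 : 225 * (x - y) = 34 * (9 * x) := by linear_combination -9 * h
          constructor
          · apply sq_eq_sq_iff_eq_or_eq_neg.1
            have : (225 * (m₁ * (x + y))) ^ 2 = (225 * (2 * g₁)) ^ 2 := by rw [h1]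
            have h' : m₁ ^ 2 * (225 * (x + y)) ^ 2 = 225 ^ 2 * 4 * g₁ ^ 2 := by
              linear_combination this
            rw [e1, hs1] at h'
            have h'' : 4 * ((128 * m₁) ^ 2 - 225 ^ 2) = 0 := by
              linear_combination h' - m₁ ^ 2 * 16 ^ 2 * hxs
            rcases mul_eq_zero.1 h'' with h | h
            · exact absurd h h4'
            · linear_combination h
          · apply sq_eq_sq_iff_eq_or_eq_neg.1
            have h' : 4 * m₂ ^ 2 * (225 * (x - y)) ^ 2 = 225 ^ 2 := by
              linear_combination 225 ^ 2 * hs2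
            rw [e2] at h'
            linear_combination h' - 4 * m₂ ^ 2 * 34 ^ 2 * hxs

end Pool.Agent.H48.BN
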