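import Mathlib

set_option autoImplicit false

/-!
# A finite check
-/

namespace Pool.Agent.H48.BN

/-- The two congruences `c m₁ ≡ ± 225`, `c' m₂ ≡ ± 225` modulo `4 m₁ m₂ m₃ + 3`. -/
def bad (c c' m₁ m₂ m₃ : ℕ) : Bool :=
  let l := 4 * (m₁ * m₂ * m₃) + 3
  (((c * m₁) % l == 225 % l) || ((c * m₁ + 225) % l == 0)) &&
    (((c' * m₂) % l == 225 % l) || ((c' * m₂ + 225) % l == 0))

/-- The check over a box. -/
def boxCheck (c c' B₁ B₂ : ℕ) : Bool :=
  (List.range B₂).all fun i =>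
    (List.range (B₁ / (i + 1))).all fun j =>
      (List.range (B₂ / (i + 1))).all fun k =>
        (!(bad c c' (j + 1) (k + 1) (i + 1))) || Nat.ble ((j + 1) * (k + 1) * (i + 1)) 2

theorem boxCheck_spec {c c' B₁ B₂ : ℕ} (h : boxCheck c c' B₁ B₂ = true)
    {m₁ m₂ m₃ : ℕ} (h1 : 0 < m₁) (h2 : 0 < m₂) (h3 : 0 < m₃)
    (hb1 : m₁ * m₃ ≤ B₁) (hb2 : m₂ * m₃ ≤ B₂) (hbad : bad c c' m₁ m₂ m₃ = true) :
    m₁ * m₂ * m₃ ≤ 2 := by
  obtain ⟨j, rfl⟩ : ∃ j, m₁ = j + 1 := ⟨m₁ - 1, by omega⟩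
  obtain ⟨k, rfl⟩ : ∃ k, m₂ = k + 1 := ⟨m₂ - 1, by omega⟩
  obtain ⟨i, rfl⟩ : ∃ i, m₃ = i + 1 := ⟨m₃ - 1, by omega⟩
  unfold boxCheck at h
  rw [List.all_eq_true] at h
  have hi : i ∈ List.range B₂ := by
    rw [List.mem_range]
    have : (i + 1) ≤ (k + 1) * (i + 1) := Nat.le_mul_of_pos_left _ (by omega)
    omega
  have h' := h i hi
  rw [List.all_eq_true] at h'
  have hj : j ∈ List.range (B₁ / (i + 1)) := by
    rw [List.mem_range]
    exact (Nat.le_div_iff_mul_le (by omega)).2 hb1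
  have h'' := h' j hj
  rw [List.all_eq_true] at h''
  have hk : k ∈ List.range (B₂ / (i + 1)) := by
    rw [List.mem_range]
    exact (Nat.le_div_iff_mul_le (by omega)).2 hb2
  have h''' := h'' k hk
  rw [hbad] at h'''
  simp only [Bool.not_true, Bool.false_or] at h'''
  exact Nat.le_of_ble_eq_true h'''

theorem checkA : boxCheck 272 512 183 123 = true := by decide +kernel

theorem checkB : boxCheck 128 1088 327 87 = true := by decide +kernel

theorem dvd_bound {l c k : ℕ} (hc : Even c) (hl : 0 < l)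
    (h : (c : ZMod l) * (k : ZMod l) = 225 ∨ (c : ZMod l) * (k : ZMod l) = -225) :
    l ≤ c * k + 225 ∧ ((((c * k) % l == 225 % l) || ((c * k + 225) % l == 0)) = true) := by
  have hev : Even (c * k) := hc.mul_right k
  have hne : c * k ≠ 225 := by
    intro h0
    rw [h0] at hev
    exact absurd hev (by decide)
  rcases h with h | h
  · have h1 : ((c * k : ℕ) : ZMod l) = ((225 : ℕ) : ZMod l) := by
      push_cast; exact h
    have h2 := (ZMod.natCast_eq_natCast_iff' _ _ _).1 h1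
    refine ⟨?_, by simp [h2]⟩
    by_contra hcon
    push Not at hcon
    rw [Nat.mod_eq_of_lt (by omega), Nat.mod_eq_of_lt (by omega)] at h2
    exact hne h2
  · have h1 : ((c * k + 225 : ℕ) : ZMod l) = 0 := by
      push_cast; rw [h]; ring
    have h2 := (ZMod.natCast_eq_zero_iff _ _).1 h1
    refine ⟨Nat.le_of_dvd (by omega) h2, ?_⟩
    simp [Nat.mod_eq_zero_of_dvd h2]

/-- The first exceptional pair of congruences never occurs. -/
theorem no_caseA {m₁ m₂ m₃ l : ℕ} (hl : l = 4 * (m₁ * m₂ * m₃) + 3) (h1 : 0 < m₁) (h2 : 0 < m₂)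
    (h3 : 0 < m₃) (hm : 2 < m₁ * m₂ * m₃)
    (ha : (272 : ZMod l) * (m₁ : ZMod l) = 225 ∨ (272 : ZMod l) * (m₁ : ZMod l) = -225)
    (hb : (512 : ZMod l) * (m₂ : ZMod l) = 225 ∨ (512 : ZMod l) * (m₂ : ZMod l) = -225) : False := by
  have hl0 : 0 < l := by omega
  obtain ⟨b1, c1⟩ := dvd_bound (l := l) (c := 272) (k := m₁) (by decide) hl0 (by exact_mod_cast ha)
  obtain ⟨b2, c2⟩ := dvd_bound (l := l) (c := 512) (k := m₂) (by decide) hl0 (by exact_mod_cast hb)
  have hb1 : m₁ * m₃ ≤ 183 := by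
    by_contra hcon
    push Not at hcon
    have : 184 * m₂ ≤ m₁ * m₂ * m₃ := by nlinarith
    nlinarith
  have hb2 : m₂ * m₃ ≤ 123 := by
    by_contra hcon
    push Not at hcon
    have : 124 * m₁ ≤ m₁ * m₂ * m₃ := by nlinarith
    nlinarith
  have := boxCheck_spec checkA h1 h2 h3 hb1 hb2 (by
    unfold bad
    rw [← hl]
    simp only [c1, c2, Bool.and_self])
  omega

/-- The second exceptional pair of congruences never occurs. -/
theorem no_caseB {m₁ m₂ m₃ l : ℕ} (hl : l = 4 * (m₁ * m₂ * m₃) + 3) (h1 : 0 < m₁) (h2 : 0 < m₂)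
    (h3 : 0 < m₃) (hm : 2 < m₁ * m₂ * m₃)
    (ha : (128 : ZMod l) * (m₁ : ZMod l) = 225 ∨ (128 : ZMod l) * (m₁ : ZMod l) = -225)
    (hb : (1088 : ZMod l) * (m₂ : ZMod l) = 225 ∨ (1088 : ZMod l) * (m₂ : ZMod l) = -225) :
    False := by
  have hl0 : 0 < l := by omega
  obtain ⟨b1, c1⟩ := dvd_bound (l := l) (c := 128) (k := m₁) (by decide) hl0 (by exact_mod_cast ha)
  obtain ⟨b2, c2⟩ := dvd_bound (l := l) (c := 1088) (k := m₂) (by decide) hl0 (by exact_mod_cast hb)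
  have hb1 : m₁ * m₃ ≤ 327 := by
    by_contra hcon
    push Not at hcon
    have : 328 * m₂ ≤ m₁ * m₂ * m₃ := by nlinarith
    nlinarith
  have hb2 : m₂ * m₃ ≤ 87 := by
    by_contra hcon
    push Not at hcon
    have : 88 * m₁ ≤ m₁ * m₂ * m₃ := by nlinarith
    nlinarith
  have := boxCheck_spec checkB h1 h2 h3 hb1 hb2 (by
    unfold bad
    rw [← hl]
    simp only [c1, c2, Bool.and_self])
  omega

end Pool.Agent.H48.BN
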