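import Pool.Agent.H48.BN.Main

set_option autoImplicit false

/-!
# The first case: `gcd (x ^ 2 - y ^ 2, m) = 1`, auxiliary prime `ℓ = 2 d + 1`, `d ∣ 2 m + 1`
-/

namespace Pool.Agent.H48.BN

theorem gcd_pow_eq_one {m k : ℕ} (h : Nat.Coprime k m) : Nat.gcd m (k ^ m) = 1 :=
  Nat.Coprime.pow_right m h.symm

theorem dvd_of_eq {l a b : ℕ} (h : ((a : ℕ) : ZMod l) = ((b : ℕ) : ZMod l)) :
    (l : ℤ) ∣ (a : ℤ) - b := by
  apply dvd_of_intCast
  push_cast
  rw [h]; ring

theorem dvd_of_eq_neg {l a b : ℕ} (h : ((a : ℕ) : ZMod l) = -((b : ℕ) : ZMod l)) :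
    l ∣ a + b := by
  apply (ZMod.natCast_eq_zero_iff _ _).1
  push_cast
  rw [h]; ring

theorem prime_not_dvd {l k : ℕ} (hk : k ≠ 0) (hp : l.Prime)
    (h : l ∉ k.primeFactors) : ¬ l ∣ k := fun hd => h (Nat.mem_primeFactors.2 ⟨hp, hd, hk⟩)

/-- The numerical incompatibilities when `m₁ = m₂ = 1`. -/
theorem numerics {l : ℕ} (hp : l.Prime) (h7 : 7 < l) (h4 : l % 4 = 3) :
    ¬ (64 * ((1 : ℕ) : ZMod l) = 1 ∨ 64 * ((1 : ℕ) : ZMod l) = -1) ∧
    ¬ ((272 * ((1 : ℕ) : ZMod l) = 225 ∨ 272 * ((1 : ℕ) : ZMod l) = -225) ∧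
        (512 * ((1 : ℕ) : ZMod l) = 225 ∨ 512 * ((1 : ℕ) : ZMod l) = -225)) ∧
    ¬ ((128 * ((1 : ℕ) : ZMod l) = 225 ∨ 128 * ((1 : ℕ) : ZMod l) = -225) ∧
        (1088 * ((1 : ℕ) : ZMod l) = 225 ∨ 1088 * ((1 : ℕ) : ZMod l) = -225)) ∧
    ¬ (8 * ((1 : ℕ) : ZMod l) = 1 ∨ 8 * ((1 : ℕ) : ZMod l) = -1) := by
  have key : ∀ k : ℕ, ((k : ℕ) : ZMod l) = 0 → l ∣ k := fun k h =>
    (ZMod.natCast_eq_zero_iff _ _).1 h
  have small : ∀ k : ℕ, 0 < k → k < l → ¬ l ∣ k := fun k hk hkl h =>
    absurd (Nat.le_of_dvd hk h) (not_le.2 hkl)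
  have hprime : ∀ q : ℕ, q.Prime → l ∣ q → l = q := fun q hq h =>
    (Nat.prime_dvd_prime_iff_eq hp hq).1 h
  push_cast
  refine ⟨?_, ?_, ?_, ?_⟩
  · rintro (h | h)
    · have h1 : l ∣ 3 * 3 * 7 := by
        norm_num
        apply key; push_cast; linear_combination h
      rcases (hp.dvd_mul).1 h1 with h | h
      · rcases (hp.dvd_mul).1 h with h | h <;> exact small 3 (by norm_num) (by omega) h
      · exact small 7 (by norm_num) h7 h
    · have h1 : l ∣ 5 * 13 := by
        norm_num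
        apply key; push_cast; linear_combination h
      rcases (hp.dvd_mul).1 h1 with h | h
      · exact small 5 (by norm_num) (by omega) h
      · have := hprime 13 (by norm_num) h
        omega
  · rintro ⟨h | h, h' | h'⟩
    · -- 47 and 287
      have h1 : l ∣ 47 := by apply key; push_cast; linear_combination h
      have h2 : l ∣ 287 := by apply key; push_cast; linear_combination h'
      have := hprime 47 (by norm_num) h1
      subst this
      norm_num at h2
    · have h1 : l ∣ 47 := by apply key; push_cast; linear_combination h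
      have h2 : l ∣ 737 := by apply key; push_cast; linear_combination h'
      have := hprime 47 (by norm_num) h1
      subst this
      norm_num at h2
    · have h1 : l ∣ 7 * 71 := by
        norm_num; apply key; push_cast; linear_combination h
      have h2 : l ∣ 287 := by apply key; push_cast; linear_combination h'
      rcases (hp.dvd_mul).1 h1 with h | h
      · exact small 7 (by norm_num) h7 h
      · have := hprime 71 (by norm_num) h
        subst this
        norm_num at h2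
    · have h1 : l ∣ 7 * 71 := by
        norm_num; apply key; push_cast; linear_combination h
      have h2 : l ∣ 737 := by apply key; push_cast; linear_combination h'
      rcases (hp.dvd_mul).1 h1 with h | h
      · exact small 7 (by norm_num) h7 h
      · have := hprime 71 (by norm_num) h
        subst this
        norm_num at h2
  · rintro ⟨h | h, -⟩
    · have h1 : l ∣ 97 := by apply key; push_cast; linear_combination -h
      have := hprime 97 (by norm_num) h1
      omega
    · have h1 : l ∣ 353 := by apply key; push_cast; linear_combination h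
      have := hprime 353 (by norm_num) h1
      omega
  · rintro (h | h)
    · have h1 : l ∣ 7 := by apply key; push_cast; linear_combination h
      exact small 7 (by norm_num) h7 h1
    · have h1 : l ∣ 3 * 3 := by norm_num; apply key; push_cast; linear_combination h
      rcases (hp.dvd_mul).1 h1 with h | h <;> exact small 3 (by norm_num) (by omega) h

/-- The even case is impossible. -/
theorem even_first {l d m x a b sa sb P U V : ℕ} {yy : ℤ} (hp : l.Prime)
    (hld : l = 2 * d + 1) (h7 : 7 < l) (hdN : d ∣ 2 * m + 1) (hm : Odd m)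
    (ha : (a : ℤ) = x + yy) (hb : (b : ℤ) = x - yy)
    (hsa : (sa : ℤ) = (x : ℤ) ^ m + yy ^ m) (hsb : (sb : ℤ) = (x : ℤ) ^ m - yy ^ m)
    (Sa : Side x m a sa) (Sb : Side x m b sb)
    (haP : a = 2 * P) (hP : Odd P) (hb2 : 2 ∣ b)
    (hU : sa = 2 * U ^ (2 * m + 1)) (hV : 2 * sb = V ^ (2 * m + 1))
    (hcop : ¬ ((x : ZMod l) = 0 ∧ (yy : ZMod l) = 0))
    (hca : Nat.Coprime a m) (hcb : Nat.Coprime b m)
    (hne1 : ¬ (l : ℤ) ∣ (m : ℤ) - 1) (hne2 : ¬ l ∣ m + 1) : False := by
  have hfact : Fact l.Prime := ⟨hp⟩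
  have hd : Odd d := by
    apply Odd.of_dvd_nat _ hdN
    exact ⟨m, rfl⟩
  have h4 : l % 4 = 3 := by obtain ⟨k, hk⟩ := hd; omega
  have hPm : Nat.Coprime P m := Nat.Coprime.coprime_dvd_left ⟨2, by rw [haP]; ring⟩ hca
  have hbm : Nat.Coprime (2 * b) m := Nat.Coprime.mul_left (Nat.coprime_two_left.2 hm) hcb
  have e1 := gcd_pow_eq_one hPm
  have e2 := gcd_pow_eq_one hbm
  have hone : ¬ l ∣ 1 := fun h => hp.one_lt.ne' (Nat.dvd_one.1 h)
  have hloc := local_even (l := l) (d := d) (m := m) hld h7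
    hdN hm ha hb hsa hsb Sa Sb haP hP hb2 hU hV hcop (by rw [e1]; exact hone)
    (by rw [e2]; exact hone)
  rw [e1, e2] at hloc
  obtain ⟨n1, n2, n3, n4⟩ := numerics hp h7 h4
  rcases hloc with ⟨hb0, hg, hmm⟩ | ⟨h64, hmm⟩ | h | h
  · have hlb : l ∣ b := (ZMod.natCast_eq_zero_iff _ _).1 hb0
    rcases hmm with h | h | h
    · have hlm := (ZMod.natCast_eq_zero_iff _ _).1 h
      have := Nat.dvd_gcd hlb hlm
      rw [hcb] at this
      exact hone this
    · exact hne1 (by have := dvd_of_eq h; simpa using this)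
    · exact hne2 (dvd_of_eq_neg h)
  · exact n1 h64
  · exact n2 h
  · exact n3 h

theorem first_case {l d m x y z : ℕ} (hp : l.Prime)
    (hld : l = 2 * d + 1) (h7 : 7 < l) (hdN : d ∣ 2 * m + 1) (hm : Odd m) (hm1 : 1 < m)
    (hne1 : ¬ (l : ℤ) ∣ (m : ℤ) - 1) (hne2 : ¬ l ∣ m + 1)
    (hy : 0 < y) (hz : 0 < z) (h : x ^ (2 * m) = y ^ (2 * m) + z ^ (2 * m + 1))
    (hg : Nat.gcd (Nat.gcd x y) z = 1) (hfc : Nat.Coprime (x ^ 2 - y ^ 2) m) :
    Odd z ∧ l ∣ x * y := by
  have hfact : Fact l.Prime := ⟨hp⟩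
  have hm0 : 0 < m := by omega
  have hc : Nat.Coprime x y := coprime_xy (n := 2 * m) (by omega) hg h
  have hxy : y < x := y_lt_x hz h
  have hx : 0 < x := by omega
  rw [Nat.sq_sub_sq] at hfc
  have hca : Nat.Coprime (x + y) m := Nat.Coprime.coprime_dvd_left (Dvd.intro _ rfl) hfc
  have hcb : Nat.Coprime (x - y) m := Nat.Coprime.coprime_dvd_left (Dvd.intro_left _ rfl) hfc
  have hnot : ¬ ((x : ZMod l) = 0 ∧ (y : ZMod l) = 0) := by
    rintro ⟨hx0, hy0⟩
    have h1 := (ZMod.natCast_eq_zero_iff x _).1 hx0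
    have h2 := (ZMod.natCast_eq_zero_iff y _).1 hy0
    have := Nat.dvd_gcd h1 h2
    rw [hc] at this
    exact hp.one_lt.ne' (Nat.dvd_one.1 this)
  rcases Nat.even_or_odd z with hze | hzo
  · exfalso
    have Sp := side_plus hm hx hy hc
    have Sm := side_minus hm hy hxy hc
    have hlt : y ^ m < x ^ m := Nat.pow_lt_pow_left hxy hm0.ne'
    rcases split_even hm hy hxy hc (by omega) hze h with
      ⟨h4, ⟨P, hP, hPa⟩, ⟨U, hU⟩, ⟨V, hV⟩⟩ | ⟨h4, ⟨P, hP, hPa⟩, ⟨U, hU⟩, ⟨V, hV⟩⟩
    · exact even_first (yy := (y : ℤ)) hp hld h7 hdN hm (a := x + y) (b := x - y)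
        (sa := x ^ m + y ^ m) (sb := x ^ m - y ^ m) (P := P) (U := U) (V := V)
        (by push_cast; ring) (by push_cast [Nat.cast_sub hxy.le]; ring)
        (by push_cast; ring) (by push_cast [Nat.cast_sub hlt.le]; ring) Sp Sm hPa hP
        ((by norm_num : (2 : ℕ) ∣ 4).trans h4) hU hV (by push_cast; exact hnot)
        hca hcb hne1 hne2
    · exact even_first (yy := -(y : ℤ)) hp hld h7 hdN hm (a := x - y) (b := x + y)
        (sa := x ^ m - y ^ m) (sb := x ^ m + y ^ m) (P := P) (U := U) (V := V)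
        (by push_cast [Nat.cast_sub hxy.le]; ring) (by push_cast; ring)
        (by rw [Odd.neg_pow hm]; push_cast [Nat.cast_sub hlt.le]; ring)
        (by rw [Odd.neg_pow hm]; push_cast; ring) Sm Sp hPa hP
        ((by norm_num : (2 : ℕ) ∣ 4).trans h4) hU hV
        (by
          push_cast
          rintro ⟨h1, h2⟩
          exact hnot ⟨h1, by linear_combination -h2⟩)
        hcb hca hne1 hne2
  · refine ⟨hzo, ?_⟩
    have hd : Odd d := by
      apply Odd.of_dvd_nat _ hdN
      exact ⟨m, rfl⟩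
    have h4 : l % 4 = 3 := by obtain ⟨k, hk⟩ := hd; omega
    have e1 := gcd_pow_eq_one hca
    have e2 := gcd_pow_eq_one hcb
    have hone : ¬ l ∣ 1 := fun h => hp.one_lt.ne' (Nat.dvd_one.1 h)
    have hloc := local_odd (l := l) (d := d) hld h7 hdN hm hy hzo hc h
      (by rw [e1]; exact hone) (by rw [e2]; exact hone)
    rw [e1, e2] at hloc
    obtain ⟨-, -, -, n4⟩ := numerics hp h7 h4
    rcases hloc with ⟨h0, -⟩ | h8 | h8
    · apply (ZMod.natCast_eq_zero_iff _ _).1
      push_cast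
      exact h0
    · exact (n4 h8).elim
    · exact (n4 h8).elim

end Pool.Agent.H48.BN
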