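import Pool.Agent.H48.BN.FieldK
import Pool.Agent.H48.BN.Split

set_option autoImplicit false

/-!
# The first case with a general auxiliary prime `ℓ = 2 k d + 1`, `d ∣ n + 1`
-/

namespace Pool.Agent.H48.BN

theorem pw_pow {l k d N : ℕ} [hl : Fact l.Prime] (hld : l = 2 * k * d + 1) (hdN : d ∣ N)
    (hN : N ≠ 0) (w : ZMod l) : Pw k (w ^ N) := by
  by_cases hw : w = 0
  · left; rw [hw, zero_pow hN]
  · right
    obtain ⟨c, rfl⟩ := hdN
    have h1 : w ^ (l - 1) = 1 := ZMod.pow_card_sub_one_eq_one hw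
    have h2 : l - 1 = 2 * k * d := by omega
    rw [h2] at h1
    have : (w ^ (d * c)) ^ (2 * k) = (w ^ (2 * k * d)) ^ c := by ring
    rw [this, h1, one_pow]

theorem gcd_pow_one {m k : ℕ} (h : Nat.Coprime k m) : Nat.gcd m (k ^ m) = 1 :=
  Nat.Coprime.pow_right m h.symm

/-- Odd `z`. -/
theorem oddK {l k d m x y z : ℕ} [hl : Fact l.Prime] (hk : 0 < k) (hr : NoRel k (ZMod l))
    (hld : l = 2 * k * d + 1) (h2l : 2 < l)
    (hdN : d ∣ 2 * m + 1) (hm : Odd m) (hy : 0 < y) (hz : Odd z)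
    (hc : Nat.Coprime x y) (h : x ^ (2 * m) = y ^ (2 * m) + z ^ (2 * m + 1))
    (hca : Nat.Coprime (x + y) m) (hcb : Nat.Coprime (x - y) m) : l ∣ x * y := by
  have hxy : y < x := y_lt_x (hz.pos) h
  have hx : 0 < x := by omega
  have hm0 : 0 < m := hm.pos
  have hN : 2 * m + 1 ≠ 0 := by omega
  obtain ⟨⟨v, hv⟩, ⟨u, hu⟩⟩ := split_odd hm0 hxy hc hz h
  have Sp := side_plus hm hx hy hc
  have Sm := side_minus hm hy hxy hc
  obtain ⟨⟨R, hR⟩, -⟩ := Sp.pow hm0 hv
  obtain ⟨⟨r, hr'⟩, -⟩ := Sm.pow hm0 hu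
  rw [gcd_pow_one hca, mul_one] at hR
  rw [gcd_pow_one hcb, mul_one] at hr'
  have hlt : y ^ m < x ^ m := Nat.pow_lt_pow_left hxy hm0.ne'
  have e1 : (x : ZMod l) + y = (R : ZMod l) ^ (2 * m + 1) := by
    have := congrArg (Nat.cast : ℕ → ZMod l) hR
    push_cast at this
    exact this
  have e2 : (x : ZMod l) - y = (r : ZMod l) ^ (2 * m + 1) := by
    have := congrArg (Nat.cast : ℕ → ZMod l) hr'
    push_cast [Nat.cast_sub hxy.le] at this
    exact this
  have e3 : (x : ZMod l) ^ m + (y : ZMod l) ^ m = (v : ZMod l) ^ (2 * m + 1) := by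
    have := congrArg (Nat.cast : ℕ → ZMod l) hv
    push_cast at this
    exact this
  have e4 : (x : ZMod l) ^ m - (y : ZMod l) ^ m = (u : ZMod l) ^ (2 * m + 1) := by
    have := congrArg (Nat.cast : ℕ → ZMod l) hu
    push_cast [Nat.cast_sub hlt.le] at this
    exact this
  have h2 : (2 : ZMod l) ≠ 0 := by
    intro h0
    have : l ∣ 2 := (ZMod.natCast_eq_zero_iff 2 l).1 (by exact_mod_cast h0)
    exact absurd (Nat.le_of_dvd (by norm_num) this) (not_le.2 h2l)
  have main := fieldK_odd (F := ZMod l) hk hr (x := x) (y := y) (X := (x : ZMod l) ^ m)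
    (Y := (y : ZMod l) ^ m) h2
    (by
      have : (x : ZMod l) * ((x : ZMod l) ^ m) ^ 2 = (x : ZMod l) ^ (2 * m + 1) := by ring
      rw [this]; exact pw_pow hld hdN hN _)
    (by
      have : (y : ZMod l) * ((y : ZMod l) ^ m) ^ 2 = (y : ZMod l) ^ (2 * m + 1) := by ring
      rw [this]; exact pw_pow hld hdN hN _)
    (by rw [pow_eq_zero_iff hm0.ne']) (by rw [pow_eq_zero_iff hm0.ne'])
    (by
      rintro ⟨hx0, hy0⟩
      have h1 := (ZMod.natCast_eq_zero_iff x l).1 hx0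
      have h2 := (ZMod.natCast_eq_zero_iff y l).1 hy0
      have := Nat.dvd_gcd h1 h2
      rw [hc] at this
      exact hl.out.one_lt.ne' (Nat.dvd_one.1 this))
    (by
      intro h
      have : (x : ZMod l) = -(y : ZMod l) := by linear_combination h
      rw [this, Odd.neg_pow hm]; ring)
    (by
      intro h
      have : (x : ZMod l) = (y : ZMod l) := by linear_combination h
      rw [this]; ring)
    (by rw [e1]; exact pw_pow hld hdN hN _)
    (by rw [e2]; exact pw_pow hld hdN hN _)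
    (by rw [e3]; exact pw_pow hld hdN hN _)
    (by rw [e4]; exact pw_pow hld hdN hN _)
  apply (ZMod.natCast_eq_zero_iff _ _).1
  push_cast
  exact main

/-- Even `z`. -/
theorem evenK {l k d m x a b sa sb P U V : ℕ} {yy : ℤ} [hl : Fact l.Prime]
    (hk : 0 < k) (hr : NoRel k (ZMod l))
    (hld : l = 2 * k * d + 1) (h2l : 2 < l)
    (hdN : d ∣ 2 * m + 1) (hm : Odd m)
    (ha : (a : ℤ) = x + yy) (hb : (b : ℤ) = x - yy)
    (hsa : (sa : ℤ) = (x : ℤ) ^ m + yy ^ m) (hsb : (sb : ℤ) = (x : ℤ) ^ m - yy ^ m)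
    (Sa : Side x m a sa) (Sb : Side x m b sb)
    (haP : a = 2 * P) (hP : Odd P) (hb2 : 2 ∣ b)
    (hU : sa = 2 * U ^ (2 * m + 1)) (hV : 2 * sb = V ^ (2 * m + 1))
    (hcop : ¬ ((x : ZMod l) = 0 ∧ (yy : ZMod l) = 0))
    (hca : Nat.Coprime a m) (hcb : Nat.Coprime b m)
    (hmG : ¬ (l : ℤ) ∣ (m : ℤ) ^ (2 * k) - 1) : False := by
  have hm0 : 0 < m := hm.pos
  have hN : 2 * m + 1 ≠ 0 := by omega
  have hPm : Nat.Coprime P m := Nat.Coprime.coprime_dvd_left ⟨2, by rw [haP]; ring⟩ hca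
  have hbm : Nat.Coprime (2 * b) m := Nat.Coprime.mul_left (Nat.coprime_two_left.2 hm) hcb
  obtain ⟨⟨R, hR⟩, -⟩ := Sa.pow_half hm0 haP hP hU
  obtain ⟨⟨r, hr'⟩, Gb, tb, hGb, -, Kb, hKb⟩ := Sb.pow_double hm0 hb2 hV
  rw [gcd_pow_one hPm, mul_one] at hR
  rw [gcd_pow_one hbm, mul_one] at hr'
  rw [gcd_pow_one hbm, one_mul] at hGb
  -- casts
  have ca : (a : ZMod l) = (x : ZMod l) + (yy : ZMod l) := by
    have := congrArg (Int.cast : ℤ → ZMod l) ha
    push_cast at this; exact this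
  have cb : (b : ZMod l) = (x : ZMod l) - (yy : ZMod l) := by
    have := congrArg (Int.cast : ℤ → ZMod l) hb
    push_cast at this; exact this
  have csa : (sa : ZMod l) = (x : ZMod l) ^ m + (yy : ZMod l) ^ m := by
    have := congrArg (Int.cast : ℤ → ZMod l) hsa
    push_cast at this; exact this
  have csb : (sb : ZMod l) = (x : ZMod l) ^ m - (yy : ZMod l) ^ m := by
    have := congrArg (Int.cast : ℤ → ZMod l) hsb
    push_cast at this; exact this
  have cP : (a : ZMod l) = 2 * (P : ZMod l) := by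
    have := congrArg (Nat.cast : ℕ → ZMod l) haP
    push_cast at this; exact this
  have cU : (sa : ZMod l) = 2 * (U : ZMod l) ^ (2 * m + 1) := by
    have := congrArg (Nat.cast : ℕ → ZMod l) hU
    push_cast at this; exact this
  have cV : 2 * (sb : ZMod l) = (V : ZMod l) ^ (2 * m + 1) := by
    have := congrArg (Nat.cast : ℕ → ZMod l) hV
    push_cast at this; exact this
  have cR : (P : ZMod l) = (R : ZMod l) ^ (2 * m + 1) := by
    have := congrArg (Nat.cast : ℕ → ZMod l) hR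
    push_cast at this; exact this
  have cr : 2 * (b : ZMod l) = (r : ZMod l) ^ (2 * m + 1) := by
    have := congrArg (Nat.cast : ℕ → ZMod l) hr'
    push_cast at this; exact this
  have cGb : (Gb : ZMod l) = (tb : ZMod l) ^ (2 * m + 1) := by
    have := congrArg (Nat.cast : ℕ → ZMod l) hGb
    push_cast at this; exact this
  have cKb : (Gb : ZMod l) = (m : ZMod l) * (x : ZMod l) ^ (m - 1) + (b : ZMod l) * (Kb : ZMod l) := by
    have := congrArg (Int.cast : ℤ → ZMod l) hKb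
    push_cast at this; exact this
  have h2 : (2 : ZMod l) ≠ 0 := by
    intro h0
    have : l ∣ 2 := (ZMod.natCast_eq_zero_iff 2 l).1 (by exact_mod_cast h0)
    exact absurd (Nat.le_of_dvd (by norm_num) this) (not_le.2 h2l)
  obtain ⟨hxy0, hxG⟩ := fieldK_even (F := ZMod l) hk hr (x := x) (y := yy)
    (X := (x : ZMod l) ^ m) (Y := (yy : ZMod l) ^ m) (g₁ := (R : ZMod l) ^ (2 * m + 1))
    (g₃ := (U : ZMod l) ^ (2 * m + 1)) h2
    (by
      have : (x : ZMod l) * ((x : ZMod l) ^ m) ^ 2 = (x : ZMod l) ^ (2 * m + 1) := by ring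
      rw [this]; exact pw_pow hld hdN hN _)
    (by
      have : (yy : ZMod l) * ((yy : ZMod l) ^ m) ^ 2 = (yy : ZMod l) ^ (2 * m + 1) := by ring
      rw [this]; exact pw_pow hld hdN hN _)
    (by rw [pow_eq_zero_iff hm0.ne']) (by rw [pow_eq_zero_iff hm0.ne'])
    hcop
    (by
      intro h
      have : (x : ZMod l) = -(yy : ZMod l) := by linear_combination h
      rw [this, Odd.neg_pow hm]; ring)
    (by
      intro h
      have : (x : ZMod l) = (yy : ZMod l) := by linear_combination h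
      rw [this]; ring)
    (by rw [← ca, cP, ← cR])
    (pw_pow hld hdN hN _)
    (by rw [← cb, cr]; exact pw_pow hld hdN hN _)
    (by rw [← csa, cU])
    (pw_pow hld hdN hN _)
    (by rw [← csb, cV]; exact pw_pow hld hdN hN _)
  have hb0 : (b : ZMod l) = 0 := by rw [cb]; exact hxy0
  have hxne : (x : ZMod l) ≠ 0 := ne_zero_of_G hk hxG
  have e : (m : ZMod l) * (x : ZMod l) ^ (m - 1) = (tb : ZMod l) ^ (2 * m + 1) := by
    rw [← cGb, cKb, hb0, zero_mul, add_zero]
  have hmne : (m : ZMod l) ≠ 0 := by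
    intro h0
    have hlm := (ZMod.natCast_eq_zero_iff _ _).1 h0
    have hlb := (ZMod.natCast_eq_zero_iff _ _).1 hb0
    have := Nat.dvd_gcd hlb hlm
    rw [hcb] at this
    exact hl.out.one_lt.ne' (Nat.dvd_one.1 this)
  have ht : (((tb : ZMod l)) ^ (2 * m + 1)) ^ (2 * k) = 1 := by
    apply (pw_pow hld hdN hN (tb : ZMod l)).one_of_ne
    rw [← e]
    exact mul_ne_zero hmne (pow_ne_zero _ hxne)
  have hmG' : (m : ZMod l) ^ (2 * k) = 1 := by
    rw [← e, mul_pow] at ht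
    have : ((x : ZMod l) ^ (m - 1)) ^ (2 * k) = 1 := by
      rw [← pow_mul, mul_comm, pow_mul, hxG, one_pow]
    rw [this, mul_one] at ht
    exact ht
  apply hmG
  apply (ZMod.intCast_zmod_eq_zero_iff_dvd _ _).1
  push_cast
  rw [hmG']; ring

theorem first_caseK {l k d m x y z : ℕ} (hp : l.Prime) (hk : 0 < k)
    (hr : ∀ _ : Fact l.Prime, NoRel k (ZMod l))
    (hld : l = 2 * k * d + 1) (h2l : 2 < l) (hdN : d ∣ 2 * m + 1) (hm : Odd m)
    (hmG : ¬ (l : ℤ) ∣ (m : ℤ) ^ (2 * k) - 1)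
    (hy : 0 < y) (hz : 0 < z) (h : x ^ (2 * m) = y ^ (2 * m) + z ^ (2 * m + 1))
    (hg : Nat.gcd (Nat.gcd x y) z = 1) (hfc : Nat.Coprime (x ^ 2 - y ^ 2) m) :
    Odd z ∧ l ∣ x * y := by
  have hfact : Fact l.Prime := ⟨hp⟩
  have hr := hr hfact
  have hm0 : 0 < m := hm.pos
  have hc : Nat.Coprime x y := coprime_xy (n := 2 * m) (by omega) hg h
  have hxy : y < x := y_lt_x hz h
  have hx : 0 < x := by omega
  rw [Nat.sq_sub_sq] at hfc
  have hca : Nat.Coprime (x + y) m := Nat.Coprime.coprime_dvd_left (Dvd.intro _ rfl) hfc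
  have hcb : Nat.Coprime (x - y) m := Nat.Coprime.coprime_dvd_left (Dvd.intro_left _ rfl) hfc
  have hnot : ¬ ((x : ZMod l) = 0 ∧ (y : ZMod l) = 0) := by
    rintro ⟨hx0, hy0⟩
    have h1 := (ZMod.natCast_eq_zero_iff x _).1 hx0
    have h2 := (ZMod.natCast_eq_zero_iff y _).1 hy0
    have := Nat.dvd_gcd h1 h2
    rw [hc] at this
    exact hp.one_lt.ne' (Nat.dvd_one.1 this)
  rcases Nat.even_or_odd z with hze | hzo
  · exfalso
    have Sp := side_plus hm hx hy hc
    have Sm := side_minus hm hy hxy hc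
    have hlt : y ^ m < x ^ m := Nat.pow_lt_pow_left hxy hm0.ne'
    rcases split_even hm hy hxy hc (by omega) hze h with
      ⟨h4, ⟨P, hP, hPa⟩, ⟨U, hU⟩, ⟨V, hV⟩⟩ | ⟨h4, ⟨P, hP, hPa⟩, ⟨U, hU⟩, ⟨V, hV⟩⟩
    · exact evenK (yy := (y : ℤ)) hk hr hld h2l hdN hm (a := x + y) (b := x - y)
        (sa := x ^ m + y ^ m) (sb := x ^ m - y ^ m) (P := P) (U := U) (V := V)
        (by push_cast; ring) (by push_cast [Nat.cast_sub hxy.le]; ring)
        (by push_cast; ring) (by push_cast [Nat.cast_sub hlt.le]; ring) Sp Sm hPa hP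
        ((by norm_num : (2 : ℕ) ∣ 4).trans h4) hU hV (by push_cast; exact hnot)
        hca hcb hmG
    · exact evenK (yy := -(y : ℤ)) hk hr hld h2l hdN hm (a := x - y) (b := x + y)
        (sa := x ^ m - y ^ m) (sb := x ^ m + y ^ m) (P := P) (U := U) (V := V)
        (by push_cast [Nat.cast_sub hxy.le]; ring) (by push_cast; ring)
        (by rw [Odd.neg_pow hm]; push_cast [Nat.cast_sub hlt.le]; ring)
        (by rw [Odd.neg_pow hm]; push_cast; ring) Sm Sp hPa hP
        ((by norm_num : (2 : ℕ) ∣ 4).trans h4) hU hV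
        (by
          push_cast
          rintro ⟨h1, h2⟩
          exact hnot ⟨h1, by linear_combination -h2⟩)
        hcb hca hmG
  · exact ⟨hzo, oddK hk hr hld h2l hdN hm hy hzo hc h hca hcb⟩

end Pool.Agent.H48.BN
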