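import Pool.Agent.H48.BN.Split
import Pool.Agent.H48.BN.FieldLemmas

set_option autoImplicit false

/-!
# The two local conclusions modulo an auxiliary prime `ℓ = 2 d + 1`, `d ∣ N`
-/

namespace Pool.Agent.H48.BN

theorem tri_pow {l d N : ℕ} [hl : Fact l.Prime] (hld : l = 2 * d + 1) (hdN : d ∣ N)
    (hN : N ≠ 0) (w : ZMod l) : Tri (w ^ N) := by
  by_cases hw : w = 0
  · left; rw [hw, zero_pow hN]
  · right
    obtain ⟨k, rfl⟩ := hdN
    have h1 : w ^ (l - 1) = 1 := ZMod.pow_card_sub_one_eq_one hw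
    have h2 : l - 1 = d * 2 := by omega
    rw [h2, pow_mul] at h1
    have h3 : (w ^ (d * k)) ^ 2 = 1 := by
      have : (w ^ (d * k)) ^ 2 = ((w ^ d) ^ 2) ^ k := by ring
      rw [this, h1, one_pow]
    exact one_or_neg_of_sq h3

theorem natCast_ne_zero_of_not_dvd {l k : ℕ} (h : ¬ l ∣ k) : (k : ZMod l) ≠ 0 := by
  intro h0
  exact h ((ZMod.natCast_eq_zero_iff k l).1 h0)

theorem small_ne_zero {l k : ℕ} (hk : 0 < k) (hkl : k < l) : (k : ZMod l) ≠ 0 := by
  apply natCast_ne_zero_of_not_dvd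
  intro h
  exact absurd (Nat.le_of_dvd hk h) (not_le.2 hkl)

/-- Local conclusion for odd `z`. -/
theorem local_odd {l d m x y z : ℕ} [hl : Fact l.Prime] (hld : l = 2 * d + 1) (h7 : 7 < l)
    (hdN : d ∣ 2 * m + 1) (hm : Odd m) (hy : 0 < y) (hz : Odd z)
    (hc : Nat.Coprime x y) (h : x ^ (2 * m) = y ^ (2 * m) + z ^ (2 * m + 1))
    (hm₁ : ¬ l ∣ Nat.gcd m ((x + y) ^ m)) (hm₂ : ¬ l ∣ Nat.gcd m ((x - y) ^ m)) :
    ((x : ZMod l) * (y : ZMod l) = 0 ∧
        ((Nat.gcd m ((x + y) ^ m) : ZMod l) = (Nat.gcd m ((x - y) ^ m) : ZMod l) ∨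
          (Nat.gcd m ((x + y) ^ m) : ZMod l) = -(Nat.gcd m ((x - y) ^ m) : ZMod l))) ∨
      (8 * (Nat.gcd m ((x - y) ^ m) : ZMod l) = 1 ∨ 8 * (Nat.gcd m ((x - y) ^ m) : ZMod l) = -1) ∨
      (8 * (Nat.gcd m ((x + y) ^ m) : ZMod l) = 1 ∨ 8 * (Nat.gcd m ((x + y) ^ m) : ZMod l) = -1) := by
  have hxy : y < x := y_lt_x (hz.pos) h
  have hx : 0 < x := by omega
  have hm0 : 0 < m := hm.pos
  have hN : 2 * m + 1 ≠ 0 := by omega
  obtain ⟨⟨v, hv⟩, ⟨u, hu⟩⟩ := split_odd hm0 hxy hc hz h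
  have Sp := side_plus hm hx hy hc
  have Sm := side_minus hm hy hxy hc
  obtain ⟨⟨R, hR⟩, -⟩ := Sp.pow hm0 hv
  obtain ⟨⟨r, hr⟩, -⟩ := Sm.pow hm0 hu
  have hlt : y ^ m < x ^ m := Nat.pow_lt_pow_left hxy hm0.ne'
  have e1 : (Nat.gcd m ((x + y) ^ m) : ZMod l) * ((x : ZMod l) + y) = (R : ZMod l) ^ (2 * m + 1) := by
    have := congrArg (Nat.cast : ℕ → ZMod l) hR
    push_cast at this
    rw [← this]; ring
  have e2 : (Nat.gcd m ((x - y) ^ m) : ZMod l) * ((x : ZMod l) - y) = (r : ZMod l) ^ (2 * m + 1) := by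
    have := congrArg (Nat.cast : ℕ → ZMod l) hr
    push_cast [Nat.cast_sub hxy.le] at this
    rw [← this]; ring
  have e3 : (x : ZMod l) ^ m + (y : ZMod l) ^ m = (v : ZMod l) ^ (2 * m + 1) := by
    have := congrArg (Nat.cast : ℕ → ZMod l) hv
    push_cast at this
    exact this
  have e4 : (x : ZMod l) ^ m - (y : ZMod l) ^ m = (u : ZMod l) ^ (2 * m + 1) := by
    have := congrArg (Nat.cast : ℕ → ZMod l) hu
    push_cast [Nat.cast_sub hlt.le] at this
    exact this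
  have h2 : (2 : ZMod l) ≠ 0 := by
    have := small_ne_zero (l := l) (k := 2) (by norm_num) (by omega)
    exact_mod_cast this
  have main := field_odd (F := ZMod l) (x := x) (y := y) (X := (x : ZMod l) ^ m)
    (Y := (y : ZMod l) ^ m) (m₁ := (Nat.gcd m ((x + y) ^ m) : ZMod l))
    (m₂ := (Nat.gcd m ((x - y) ^ m) : ZMod l)) h2
    (by
      have : (x : ZMod l) * ((x : ZMod l) ^ m) ^ 2 = (x : ZMod l) ^ (2 * m + 1) := by ring
      rw [this]; exact tri_pow hld hdN hN _)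
    (by
      have : (y : ZMod l) * ((y : ZMod l) ^ m) ^ 2 = (y : ZMod l) ^ (2 * m + 1) := by ring
      rw [this]; exact tri_pow hld hdN hN _)
    (by rw [pow_eq_zero_iff hm0.ne']) (by rw [pow_eq_zero_iff hm0.ne'])
    (by
      rintro ⟨hx0, hy0⟩
      have h1 := (ZMod.natCast_eq_zero_iff x l).1 hx0
      have h2 := (ZMod.natCast_eq_zero_iff y l).1 hy0
      have := Nat.dvd_gcd h1 h2
      rw [hc] at this
      exact hl.out.one_lt.ne' (Nat.dvd_one.1 this))
    (by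
      intro h
      have : (x : ZMod l) = -(y : ZMod l) := by linear_combination h
      rw [this, Odd.neg_pow hm]; ring)
    (by
      intro h
      have : (x : ZMod l) = (y : ZMod l) := by linear_combination h
      rw [this]; ring)
    (by rw [e1]; exact tri_pow hld hdN hN _)
    (by rw [e2]; exact tri_pow hld hdN hN _)
    (by rw [e3]; exact tri_pow hld hdN hN _)
    (by rw [e4]; exact tri_pow hld hdN hN _)
    (natCast_ne_zero_of_not_dvd hm₁) (natCast_ne_zero_of_not_dvd hm₂)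
  rcases main with h | h | h
  · left; exact h
  · right; left; exact h.2
  · right; right; exact h.2

/-- Local conclusion for even `z`. -/
theorem local_even {l d m x a b sa sb P U V : ℕ} {yy : ℤ} [hl : Fact l.Prime]
    (hld : l = 2 * d + 1) (h7 : 7 < l)
    (hdN : d ∣ 2 * m + 1) (hm : Odd m)
    (ha : (a : ℤ) = x + yy) (hb : (b : ℤ) = x - yy)
    (hsa : (sa : ℤ) = (x : ℤ) ^ m + yy ^ m) (hsb : (sb : ℤ) = (x : ℤ) ^ m - yy ^ m)
    (Sa : Side x m a sa) (Sb : Side x m b sb)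
    (haP : a = 2 * P) (hP : Odd P) (hb2 : 2 ∣ b)
    (hU : sa = 2 * U ^ (2 * m + 1)) (hV : 2 * sb = V ^ (2 * m + 1))
    (hcop : ¬ ((x : ZMod l) = 0 ∧ (yy : ZMod l) = 0))
    (hm₁ : ¬ l ∣ Nat.gcd m (P ^ m)) (hm₂ : ¬ l ∣ Nat.gcd m ((2 * b) ^ m)) :
    ((b : ZMod l) = 0 ∧ ((Nat.gcd m (P ^ m) : ZMod l) = 1 ∨ (Nat.gcd m (P ^ m) : ZMod l) = -1) ∧
        ((m : ZMod l) = 0 ∨ (m : ZMod l) = (Nat.gcd m ((2 * b) ^ m) : ZMod l) ∨
          (m : ZMod l) = -(Nat.gcd m ((2 * b) ^ m) : ZMod l))) ∨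
      ((64 * (Nat.gcd m ((2 * b) ^ m) : ZMod l) = 1 ∨
          64 * (Nat.gcd m ((2 * b) ^ m) : ZMod l) = -1) ∧
        ((m : ZMod l) = 0 ∨ (m : ZMod l) = 64 * (Nat.gcd m (P ^ m) : ZMod l) ∨
          (m : ZMod l) = -(64 * (Nat.gcd m (P ^ m) : ZMod l)))) ∨
      ((272 * (Nat.gcd m (P ^ m) : ZMod l) = 225 ∨ 272 * (Nat.gcd m (P ^ m) : ZMod l) = -225) ∧
        (512 * (Nat.gcd m ((2 * b) ^ m) : ZMod l) = 225 ∨
          512 * (Nat.gcd m ((2 * b) ^ m) : ZMod l) = -225)) ∨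
      ((128 * (Nat.gcd m (P ^ m) : ZMod l) = 225 ∨ 128 * (Nat.gcd m (P ^ m) : ZMod l) = -225) ∧
        (1088 * (Nat.gcd m ((2 * b) ^ m) : ZMod l) = 225 ∨
          1088 * (Nat.gcd m ((2 * b) ^ m) : ZMod l) = -225)) := by
  have hm0 : 0 < m := hm.pos
  have hN : 2 * m + 1 ≠ 0 := by omega
  obtain ⟨⟨R, hR⟩, Ga, ta, hGa, -, Ka, hKa⟩ := Sa.pow_half hm0 haP hP hU
  obtain ⟨⟨r, hr⟩, Gb, tb, hGb, -, Kb, hKb⟩ := Sb.pow_double hm0 hb2 hV
  -- casts
  have ca : (a : ZMod l) = (x : ZMod l) + (yy : ZMod l) := by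
    have := congrArg (Int.cast : ℤ → ZMod l) ha
    push_cast at this; exact this
  have cb : (b : ZMod l) = (x : ZMod l) - (yy : ZMod l) := by
    have := congrArg (Int.cast : ℤ → ZMod l) hb
    push_cast at this; exact this
  have csa : (sa : ZMod l) = (x : ZMod l) ^ m + (yy : ZMod l) ^ m := by
    have := congrArg (Int.cast : ℤ → ZMod l) hsa
    push_cast at this; exact this
  have csb : (sb : ZMod l) = (x : ZMod l) ^ m - (yy : ZMod l) ^ m := by
    have := congrArg (Int.cast : ℤ → ZMod l) hsb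
    push_cast at this; exact this
  have cP : (a : ZMod l) = 2 * (P : ZMod l) := by
    have := congrArg (Nat.cast : ℕ → ZMod l) haP
    push_cast at this; exact this
  have cU : (sa : ZMod l) = 2 * (U : ZMod l) ^ (2 * m + 1) := by
    have := congrArg (Nat.cast : ℕ → ZMod l) hU
    push_cast at this; exact this
  have cV : 2 * (sb : ZMod l) = (V : ZMod l) ^ (2 * m + 1) := by
    have := congrArg (Nat.cast : ℕ → ZMod l) hV
    push_cast at this; exact this
  have cR : (P : ZMod l) * (Nat.gcd m (P ^ m) : ZMod l) = (R : ZMod l) ^ (2 * m + 1) := by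
    have := congrArg (Nat.cast : ℕ → ZMod l) hR
    push_cast at this; exact this
  have cr : 2 * (b : ZMod l) * (Nat.gcd m ((2 * b) ^ m) : ZMod l) =
      (r : ZMod l) ^ (2 * m + 1) := by
    have := congrArg (Nat.cast : ℕ → ZMod l) hr
    push_cast at this; exact this
  have cGa : (Ga : ZMod l) = (Nat.gcd m (P ^ m) : ZMod l) * (ta : ZMod l) ^ (2 * m + 1) := by
    have := congrArg (Nat.cast : ℕ → ZMod l) hGa
    push_cast at this; exact this
  have cGb : (Gb : ZMod l) = (Nat.gcd m ((2 * b) ^ m) : ZMod l) * (tb : ZMod l) ^ (2 * m + 1) := by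
    have := congrArg (Nat.cast : ℕ → ZMod l) hGb
    push_cast at this; exact this
  have cKa : (Ga : ZMod l) = (m : ZMod l) * (x : ZMod l) ^ (m - 1) + (a : ZMod l) * (Ka : ZMod l) := by
    have := congrArg (Int.cast : ℤ → ZMod l) hKa
    push_cast at this; exact this
  have cKb : (Gb : ZMod l) = (m : ZMod l) * (x : ZMod l) ^ (m - 1) + (b : ZMod l) * (Kb : ZMod l) := by
    have := congrArg (Int.cast : ℤ → ZMod l) hKb
    push_cast at this; exact this
  have h2 : (2 : ZMod l) ≠ 0 := by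
    have := small_ne_zero (l := l) (k := 2) (by norm_num) (by omega)
    exact_mod_cast this
  have h3 : (3 : ZMod l) ≠ 0 := by
    have := small_ne_zero (l := l) (k := 3) (by norm_num) (by omega)
    exact_mod_cast this
  have h5 : (5 : ZMod l) ≠ 0 := by
    have := small_ne_zero (l := l) (k := 5) (by norm_num) (by omega)
    exact_mod_cast this
  have hxm : (x : ZMod l) ^ (m - 1) * (x : ZMod l) = (x : ZMod l) ^ m := by
    rw [← pow_succ]; congr 1; omega
  obtain ⟨m', hm'⟩ : ∃ m', m - 1 = 2 * m' := by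
    obtain ⟨k, hk⟩ := hm; exact ⟨k, by omega⟩
  have main := field_even (F := ZMod l) (x := x) (y := yy) (X := (x : ZMod l) ^ m)
    (Y := (yy : ZMod l) ^ m) (m₁ := (Nat.gcd m (P ^ m) : ZMod l))
    (m₂ := (Nat.gcd m ((2 * b) ^ m) : ZMod l)) (g₁ := (R : ZMod l) ^ (2 * m + 1))
    (g₃ := (U : ZMod l) ^ (2 * m + 1)) h2 h3 h5
    (by
      have : (x : ZMod l) * ((x : ZMod l) ^ m) ^ 2 = (x : ZMod l) ^ (2 * m + 1) := by ring
      rw [this]; exact tri_pow hld hdN hN _)
    (by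
      have : (yy : ZMod l) * ((yy : ZMod l) ^ m) ^ 2 = (yy : ZMod l) ^ (2 * m + 1) := by ring
      rw [this]; exact tri_pow hld hdN hN _)
    (by rw [pow_eq_zero_iff hm0.ne']) (by rw [pow_eq_zero_iff hm0.ne'])
    hcop
    (by
      intro h
      have : (x : ZMod l) = -(yy : ZMod l) := by linear_combination h
      rw [this, Odd.neg_pow hm]; ring)
    (by
      intro h
      have : (x : ZMod l) = (yy : ZMod l) := by linear_combination h
      rw [this]; ring)
    (by rw [← ca, cP, ← cR]; ring)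
    (tri_pow hld hdN hN _)
    (by
      have : 2 * (Nat.gcd m ((2 * b) ^ m) : ZMod l) * ((x : ZMod l) - (yy : ZMod l)) =
          (r : ZMod l) ^ (2 * m + 1) := by rw [← cb, ← cr]; ring
      rw [this]; exact tri_pow hld hdN hN _)
    (by rw [← csa, cU])
    (tri_pow hld hdN hN _)
    (by rw [← csb, cV]; exact tri_pow hld hdN hN _)
    (natCast_ne_zero_of_not_dvd hm₁) (natCast_ne_zero_of_not_dvd hm₂)
  rcases main with ⟨h, hg, hx2⟩ | ⟨h, hg, hx2, hX2⟩ | h | h
  · left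
    refine ⟨by rw [cb]; exact h, hg, ?_⟩
    have hb0 : (b : ZMod l) = 0 := by rw [cb]; exact h
    have e : (m : ZMod l) = (Nat.gcd m ((2 * b) ^ m) : ZMod l) * (tb : ZMod l) ^ (2 * m + 1) := by
      rw [← cGb, cKb, hb0, zero_mul, add_zero, hm', pow_mul, hx2, one_pow, mul_one]
    rcases tri_pow hld hdN hN (tb : ZMod l) with ht | ht | ht
    · left; rw [e, ht, mul_zero]
    · right; left
      conv_lhs => rw [e, ht, mul_one]
    · right; right
      conv_lhs => rw [e, ht]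
      ring
  · right; left
    refine ⟨hg, ?_⟩
    have ha0 : (a : ZMod l) = 0 := by rw [ca]; exact h
    have e : (m : ZMod l) * (x : ZMod l) ^ m =
        (Nat.gcd m (P ^ m) : ZMod l) * (ta : ZMod l) ^ (2 * m + 1) * (x : ZMod l) := by
      rw [← cGa, cKa, ha0, zero_mul, add_zero, mul_assoc, hxm]
    have e2 : (m : ZMod l) ^ 2 =
        (64 * (Nat.gcd m (P ^ m) : ZMod l) * (ta : ZMod l) ^ (2 * m + 1)) ^ 2 := by
      have : ((m : ZMod l) * (x : ZMod l) ^ m) ^ 2 =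
        ((Nat.gcd m (P ^ m) : ZMod l) * (ta : ZMod l) ^ (2 * m + 1) * (x : ZMod l)) ^ 2 := by
        rw [e]
      have e3 : (m : ZMod l) ^ 2 * (16 * ((x : ZMod l) ^ m) ^ 2) =
        16 * ((Nat.gcd m (P ^ m) : ZMod l) * (ta : ZMod l) ^ (2 * m + 1)) ^ 2 *
          (x : ZMod l) ^ 2 := by linear_combination 16 * this
      rw [hX2, hx2] at e3
      linear_combination e3
    rcases sq_eq_sq_iff_eq_or_eq_neg.1 e2 with e3 | e3 <;>
    rcases tri_pow hld hdN hN (ta : ZMod l) with ht | ht | ht <;> rw [ht] at e3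
    · left; rw [e3]; ring
    · right; left; rw [e3]; ring
    · right; right; rw [e3]; ring
    · left; rw [e3]; ring
    · right; right; rw [e3]; ring
    · right; left; rw [e3]; ring
  · right; right; left; exact h
  · right; right; right; exact h

end Pool.Agent.H48.BN
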