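import Pool.Agent.H48.BN.Local
import Pool.Agent.H48.BN.Finite

set_option autoImplicit false

/-!
# The dichotomy when `2 n + 3 = 4 m + 3` is prime
-/

namespace Pool.Agent.H48.BN

theorem dvd_of_intCast {l : ℕ} {a : ℤ} (h : (a : ZMod l) = 0) : (l : ℤ) ∣ a :=
  (ZMod.intCast_zmod_eq_zero_iff_dvd a l).1 h

/-- `8 k` is not `± 1` modulo `4 m + 3` for a divisor `k` of the odd number `m > 1`. -/
theorem eight_ne {m k l : ℕ} (hl : l = 4 * m + 3) (hm1 : 1 < m) (hk : 0 < k)
    (hkm : k ∣ m) (h : 8 * (k : ZMod l) = 1 ∨ 8 * (k : ZMod l) = -1) : False := by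
  have hle : k ≤ m := Nat.le_of_dvd (by omega) hkm
  rcases h with h | h
  · have h1 : (((8 * (k : ℤ) - 1 : ℤ)) : ZMod l) = 0 := by
      push_cast; rw [h]; ring
    obtain ⟨c, hc⟩ := dvd_of_intCast h1
    have hc1 : c = 1 := by
      have hpos : 0 < c := by
        by_contra hcon
        push Not at hcon
        have : (l : ℤ) * c ≤ 0 := mul_nonpos_of_nonneg_of_nonpos (by positivity) hcon
        omega
      by_contra hne
      have h2 : 2 ≤ c := by omega
      have : (l : ℤ) * 2 ≤ (l : ℤ) * c := mul_le_mul_of_nonneg_left h2 (by positivity)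
      omega
    rw [hc1, mul_one] at hc
    have h3 : 2 * k = m + 1 := by omega
    have h4 : k ∣ m + 1 := ⟨2, by omega⟩
    have h5 : k ∣ 1 := (Nat.dvd_add_right hkm).1 h4
    have := Nat.dvd_one.1 h5
    omega
  · have h1 : (((8 * (k : ℤ) + 1 : ℤ)) : ZMod l) = 0 := by
      push_cast; rw [h]; ring
    obtain ⟨c, hc⟩ := dvd_of_intCast h1
    have hc1 : c = 1 := by
      have hpos : 0 < c := by
        by_contra hcon
        push Not at hcon
        have : (l : ℤ) * c ≤ 0 := mul_nonpos_of_nonneg_of_nonpos (by positivity) hcon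
        omega
      by_contra hne
      have h2 : 2 ≤ c := by omega
      have : (l : ℤ) * 2 ≤ (l : ℤ) * c := mul_le_mul_of_nonneg_left h2 (by positivity)
      omega
    rw [hc1, mul_one] at hc
    omega

theorem natCast_inj_of_le {l a b : ℕ} (ha : a < l) (hb : b < l)
    (h : (a : ZMod l) = (b : ZMod l)) : a = b := by
  have := (ZMod.natCast_eq_natCast_iff' a b l).1 h
  rwa [Nat.mod_eq_of_lt ha, Nat.mod_eq_of_lt hb] at this

theorem natCast_ne_neg {l a b : ℕ} (ha : 0 < a) (hab : a + b < l)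
    (h : (a : ZMod l) = -(b : ZMod l)) : False := by
  have h1 : ((a + b : ℕ) : ZMod l) = 0 := by push_cast; rw [h]; ring
  have h2 := (ZMod.natCast_eq_zero_iff _ _).1 h1
  have := Nat.le_of_dvd (by omega) h2
  omega

/-- The arithmetic excluding the case `ℓ ∣ a` for even `z`. -/
theorem case_one {m m₁ m₂ l : ℕ} (hl : l = 4 * m + 3) (hp : l.Prime) (hm : Odd m) (hm1 : 1 < m)
    (h1 : 0 < m₁) (h2 : 0 < m₂) (h2m : m₂ ∣ m) (hle : m₁ * m₂ ≤ m)
    (ha : 64 * (m₂ : ZMod l) = 1 ∨ 64 * (m₂ : ZMod l) = -1)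
    (hb : (m : ZMod l) = 0 ∨ (m : ZMod l) = 64 * (m₁ : ZMod l) ∨
      (m : ZMod l) = -(64 * (m₁ : ZMod l))) : False := by
  have hm₂odd : Odd m₂ := Odd.of_dvd_nat hm h2m
  have hm₁le : m₁ ≤ m := by nlinarith
  have hm₂le : m₂ ≤ m := by nlinarith
  have h4m : 4 * (m : ZMod l) = -3 := by
    have : ((4 * m + 3 : ℕ) : ZMod l) = 0 := by rw [← hl]; exact ZMod.natCast_self l
    push_cast at this
    linear_combination this
  have key : 4 * (m₁ : ZMod l) + 3 * (m₂ : ZMod l) = 0 ∨
      4 * (m₁ : ZMod l) - 3 * (m₂ : ZMod l) = 0 := by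
    rcases hb with hb | hb | hb
    · exfalso
      have := (ZMod.natCast_eq_zero_iff _ _).1 hb
      have := Nat.le_of_dvd (by omega) this
      omega
    · rcases ha with ha | ha
      · left
        linear_combination (-4 * (m₂ : ZMod l)) * hb + (m₂ : ZMod l) * h4m - 4 * (m₁ : ZMod l) * ha
      · right
        linear_combination (4 * (m₂ : ZMod l)) * hb - (m₂ : ZMod l) * h4m + 4 * (m₁ : ZMod l) * ha
    · rcases ha with ha | ha
      · right
        linear_combination (4 * (m₂ : ZMod l)) * hb - (m₂ : ZMod l) * h4m - 4 * (m₁ : ZMod l) * ha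
      · left
        linear_combination (-4 * (m₂ : ZMod l)) * hb + (m₂ : ZMod l) * h4m + 4 * (m₁ : ZMod l) * ha
  rcases key with hk | hk
  · have h3 : ((4 * m₁ + 3 * m₂ : ℕ) : ZMod l) = 0 := by push_cast; exact hk
    obtain ⟨c, hc⟩ := (ZMod.natCast_eq_zero_iff _ _).1 h3
    have hc1 : c = 1 := by
      have hpos : c ≠ 0 := by rintro rfl; omega
      by_contra hne
      have h2 : 2 ≤ c := by omega
      have : l * 2 ≤ l * c := Nat.mul_le_mul_left l h2
      omega
    rw [hc1, mul_one, hl] at hc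
    have hm2 : m₂ = 1 := by
      by_contra hne
      have : 2 ≤ m₂ := by omega
      nlinarith
    rw [hm2] at ha
    rcases ha with ha | ha
    · have : ((63 : ℕ) : ZMod l) = 0 := by
        push_cast at ha ⊢
        linear_combination ha
      have hd := (ZMod.natCast_eq_zero_iff _ _).1 this
      have h63 : l ∣ 3 * 3 * 7 := by norm_num; exact hd
      rcases (hp.dvd_mul).1 h63 with h | h
      · rcases (hp.dvd_mul).1 h with h | h
        · have := Nat.le_of_dvd (by norm_num) h; omega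
        · have := Nat.le_of_dvd (by norm_num) h; omega
      · have := Nat.le_of_dvd (by norm_num) h; omega
    · have : ((65 : ℕ) : ZMod l) = 0 := by
        push_cast at ha ⊢
        linear_combination ha
      have hd := (ZMod.natCast_eq_zero_iff _ _).1 this
      have h65 : l ∣ 5 * 13 := by norm_num; exact hd
      rcases (hp.dvd_mul).1 h65 with h | h
      · have := Nat.le_of_dvd (by norm_num) h; omega
      · have := (Nat.prime_dvd_prime_iff_eq hp (by norm_num)).1 h
        omega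
  · have h3 : (((4 * (m₁ : ℤ) - 3 * (m₂ : ℤ) : ℤ)) : ZMod l) = 0 := by push_cast; exact hk
    obtain ⟨c, hc⟩ := dvd_of_intCast h3
    obtain ⟨e, he⟩ := hm₂odd
    have hc0 : c = 0 := by
      by_contra hne
      rcases lt_or_gt_of_ne hne with hneg | hpos
      · have h2 : c ≤ -1 := by omega
        have : (l : ℤ) * c ≤ (l : ℤ) * (-1) := mul_le_mul_of_nonneg_left h2 (by positivity)
        omega
      · have h2 : 1 ≤ c := by omega
        have : (l : ℤ) * 1 ≤ (l : ℤ) * c := mul_le_mul_of_nonneg_left h2 (by positivity)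
        omega
    rw [hc0, mul_zero] at hc
    omega

/-- Even case, abstract form. -/
theorem even_main {l m x a b sa sb P U V : ℕ} {yy : ℤ} (hp : l.Prime)
    (hl : l = 4 * m + 3) (hm : Odd m) (hm1 : 1 < m)
    (ha : (a : ℤ) = x + yy) (hb : (b : ℤ) = x - yy)
    (hsa : (sa : ℤ) = (x : ℤ) ^ m + yy ^ m) (hsb : (sb : ℤ) = (x : ℤ) ^ m - yy ^ m)
    (Sa : Side x m a sa) (Sb : Side x m b sb)
    (haP : a = 2 * P) (hP : Odd P) (hb2 : 2 ∣ b) (hPb : Nat.Coprime P b)
    (hU : sa = 2 * U ^ (2 * m + 1)) (hV : 2 * sb = V ^ (2 * m + 1))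
    (hcop : ¬ ((x : ZMod l) = 0 ∧ (yy : ZMod l) = 0)) :
    ∀ p, p.Prime → p ∣ 2 * m * l → p ∣ b := by
  have hfact : Fact l.Prime := ⟨hp⟩
  have hm0 : 0 < m := by omega
  set m₁ := Nat.gcd m (P ^ m) with hm₁
  set m₂ := Nat.gcd m ((2 * b) ^ m) with hm₂
  have h1 : 0 < m₁ := Nat.gcd_pos_of_pos_left _ hm0
  have h2 : 0 < m₂ := Nat.gcd_pos_of_pos_left _ hm0
  have hd1 : m₁ ∣ m := Nat.gcd_dvd_left _ _
  have hd2 : m₂ ∣ m := Nat.gcd_dvd_left _ _
  have hle1 : m₁ ≤ m := Nat.le_of_dvd hm0 hd1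
  have hle2 : m₂ ≤ m := Nat.le_of_dvd hm0 hd2
  have hP2b : Nat.Coprime P (2 * b) := Nat.Coprime.mul_right
    (Nat.coprime_two_right.2 hP) hPb
  have hcop12 : Nat.Coprime m₁ m₂ := by
    apply Nat.Coprime.coprime_dvd_left (Nat.gcd_dvd_right _ _)
    apply Nat.Coprime.coprime_dvd_right (Nat.gcd_dvd_right _ _)
    exact Nat.Coprime.pow _ _ hP2b
  have hd12 : m₁ * m₂ ∣ m := Nat.Coprime.mul_dvd_of_dvd_of_dvd hcop12 hd1 hd2
  have hle12 : m₁ * m₂ ≤ m := Nat.le_of_dvd hm0 hd12
  have hn1 : ¬ l ∣ m₁ := fun h => by have := Nat.le_of_dvd h1 h; omega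
  have hn2 : ¬ l ∣ m₂ := fun h => by have := Nat.le_of_dvd h2 h; omega
  have hloc := local_even (l := l) (d := 2 * m + 1) (m := m) (by omega) (by omega)
    (dvd_refl _) hm ha hb hsa hsb Sa Sb haP hP hb2 hU hV hcop hn1 hn2
  rw [← hm₁, ← hm₂] at hloc
  rcases hloc with ⟨hb0, hg, hmm⟩ | ⟨h64, hmm⟩ | ⟨hA, hB⟩ | ⟨hA, hB⟩
  · have hlb : l ∣ b := (ZMod.natCast_eq_zero_iff _ _).1 hb0
    have hmeq : m = m₂ := by
      rcases hmm with h | h | h
      · exfalso
        have := (ZMod.natCast_eq_zero_iff _ _).1 h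
        have := Nat.le_of_dvd hm0 this
        omega
      · exact natCast_inj_of_le (by omega) (by omega) h
      · exact (natCast_ne_neg hm0 (by omega) h).elim
    intro p hpp hpd
    rcases (hpp.dvd_mul).1 hpd with h | h
    · rcases (hpp.dvd_mul).1 h with h | h
      · exact h.trans hb2
      · have h3 : p ∣ (2 * b) ^ m := by
          have : p ∣ m₂ := by rw [← hmeq]; exact h
          exact this.trans (Nat.gcd_dvd_right _ _)
        have h4 := hpp.dvd_of_dvd_pow h3
        rcases (hpp.dvd_mul).1 h4 with h5 | h5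
        · exact h5.trans hb2
        · exact h5
    · exact h.trans hlb
  · exact (case_one hl hp hm hm1 h1 h2 hd2 hle12 h64 hmm).elim
  · exfalso
    obtain ⟨m₃, hm₃⟩ := hd12
    have h3 : 0 < m₃ := by
      rcases Nat.eq_zero_or_pos m₃ with h | h
      · rw [h, mul_zero] at hm₃; omega
      · exact h
    obtain ⟨e, he⟩ := hm
    exact no_caseA (l := l) (by rw [← hm₃]; exact hl) h1 h2 h3 (by rw [← hm₃]; omega) hA hB
  · exfalso
    obtain ⟨m₃, hm₃⟩ := hd12
    have h3 : 0 < m₃ := by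
      rcases Nat.eq_zero_or_pos m₃ with h | h
      · rw [h, mul_zero] at hm₃; omega
      · exact h
    obtain ⟨e, he⟩ := hm
    exact no_caseB (l := l) (by rw [← hm₃]; exact hl) h1 h2 h3 (by rw [← hm₃]; omega) hA hB

/-- The dichotomy. -/
theorem dichotomy {m x y z : ℕ} (hm : Odd m) (hm1 : 1 < m) (hp : (4 * m + 3).Prime)
    (hy : 0 < y) (hz : 0 < z) (h : x ^ (2 * m) = y ^ (2 * m) + z ^ (2 * m + 1))
    (hg : Nat.gcd (Nat.gcd x y) z = 1) :
    (Odd z ∧ (4 * m + 3) ∣ x * y ∧ Nat.Coprime (x ^ 2 - y ^ 2) (2 * m)) ∨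
      (Even z ∧ ((∀ p, p.Prime → p ∣ 2 * m * (4 * m + 3) → p ∣ x - y) ∨
        (∀ p, p.Prime → p ∣ 2 * m * (4 * m + 3) → p ∣ x + y))) := by
  have hm0 : 0 < m := by omega
  have hc : Nat.Coprime x y := coprime_xy (n := 2 * m) (by omega) hg h
  have hxy : y < x := y_lt_x hz h
  have hx : 0 < x := by omega
  have hfact : Fact (4 * m + 3).Prime := ⟨hp⟩
  have hnot : ¬ ((x : ZMod (4 * m + 3)) = 0 ∧ (y : ZMod (4 * m + 3)) = 0) := by
    rintro ⟨hx0, hy0⟩
    have h1 := (ZMod.natCast_eq_zero_iff x _).1 hx0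
    have h2 := (ZMod.natCast_eq_zero_iff y _).1 hy0
    have := Nat.dvd_gcd h1 h2
    rw [hc] at this
    exact hp.one_lt.ne' (Nat.dvd_one.1 this)
  rcases Nat.even_or_odd z with hze | hzo
  · right
    refine ⟨hze, ?_⟩
    have Sp := side_plus hm hx hy hc
    have Sm := side_minus hm hy hxy hc
    have hlt : y ^ m < x ^ m := Nat.pow_lt_pow_left hxy hm0.ne'
    rcases split_even hm hy hxy hc (by omega) hze h with
      ⟨h4, ⟨P, hP, hPa⟩, ⟨U, hU⟩, ⟨V, hV⟩⟩ | ⟨h4, ⟨P, hP, hPa⟩, ⟨U, hU⟩, ⟨V, hV⟩⟩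
    · left
      apply even_main (yy := (y : ℤ)) hp rfl hm hm1 (a := x + y) (b := x - y)
        (sa := x ^ m + y ^ m) (sb := x ^ m - y ^ m) (P := P) (U := U) (V := V)
        (by push_cast; ring) (by push_cast [Nat.cast_sub hxy.le]; ring)
        (by push_cast; ring) (by push_cast [Nat.cast_sub hlt.le]; ring) Sp Sm hPa hP
        ((by norm_num : (2 : ℕ) ∣ 4).trans h4) ?_ hU hV
      · push_cast; exact hnot
      · rw [Nat.coprime_iff_gcd_eq_one]
        by_contra hne
        obtain ⟨p, hpp, hpd⟩ := Nat.exists_prime_and_dvd hne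
        have h1 : p ∣ P := hpd.trans (Nat.gcd_dvd_left _ _)
        have h2 : p ∣ x - y := hpd.trans (Nat.gcd_dvd_right _ _)
        have h3 : p ∣ x + y := by rw [hPa]; exact h1.mul_left 2
        have hp2 : p ≠ 2 := by
          rintro rfl
          exact (Nat.not_even_iff_odd.2 hP) (even_iff_two_dvd.2 h1)
        have h5 : p ∣ 2 * x := by
          have : 2 * x = (x + y) + (x - y) := by omega
          rw [this]; exact dvd_add h3 h2
        have h6 : p ∣ x := by
          rcases (hpp.dvd_mul).1 h5 with h | h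
          · exact absurd ((Nat.prime_dvd_prime_iff_eq hpp Nat.prime_two).1 h) hp2
          · exact h
        have h7 : p ∣ y := (Nat.dvd_add_right h6).1 h3
        have := Nat.dvd_gcd h6 h7
        rw [hc] at this
        exact hpp.one_lt.ne' (Nat.dvd_one.1 this)
    · right
      apply even_main (yy := -(y : ℤ)) hp rfl hm hm1 (a := x - y) (b := x + y)
        (sa := x ^ m - y ^ m) (sb := x ^ m + y ^ m) (P := P) (U := U) (V := V)
        (by push_cast [Nat.cast_sub hxy.le]; ring) (by push_cast; ring)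
        (by rw [Odd.neg_pow hm]; push_cast [Nat.cast_sub hlt.le]; ring)
        (by rw [Odd.neg_pow hm]; push_cast; ring) Sm Sp hPa hP
        ((by norm_num : (2 : ℕ) ∣ 4).trans h4) ?_ hU hV
      · push_cast
        rintro ⟨h1, h2⟩
        exact hnot ⟨h1, by linear_combination -h2⟩
      · rw [Nat.coprime_iff_gcd_eq_one]
        by_contra hne
        obtain ⟨p, hpp, hpd⟩ := Nat.exists_prime_and_dvd hne
        have h1 : p ∣ P := hpd.trans (Nat.gcd_dvd_left _ _)
        have h2 : p ∣ x + y := hpd.trans (Nat.gcd_dvd_right _ _)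
        have h3 : p ∣ x - y := by rw [hPa]; exact h1.mul_left 2
        have hp2 : p ≠ 2 := by
          rintro rfl
          exact (Nat.not_even_iff_odd.2 hP) (even_iff_two_dvd.2 h1)
        have h5 : p ∣ 2 * x := by
          have : 2 * x = (x + y) + (x - y) := by omega
          rw [this]; exact dvd_add h2 h3
        have h6 : p ∣ x := by
          rcases (hpp.dvd_mul).1 h5 with h | h
          · exact absurd ((Nat.prime_dvd_prime_iff_eq hpp Nat.prime_two).1 h) hp2
          · exact h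
        have h7 : p ∣ y := (Nat.dvd_add_right h6).1 h2
        have := Nat.dvd_gcd h6 h7
        rw [hc] at this
        exact hpp.one_lt.ne' (Nat.dvd_one.1 this)
  · left
    refine ⟨hzo, ?_⟩
    set m₁ := Nat.gcd m ((x + y) ^ m) with hm₁
    set m₂ := Nat.gcd m ((x - y) ^ m) with hm₂
    have h1 : 0 < m₁ := Nat.gcd_pos_of_pos_left _ hm0
    have h2 : 0 < m₂ := Nat.gcd_pos_of_pos_left _ hm0
    have hd1 : m₁ ∣ m := Nat.gcd_dvd_left _ _
    have hd2 : m₂ ∣ m := Nat.gcd_dvd_left _ _
    have hle1 : m₁ ≤ m := Nat.le_of_dvd hm0 hd1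
    have hle2 : m₂ ≤ m := Nat.le_of_dvd hm0 hd2
    have hn1 : ¬ (4 * m + 3) ∣ m₁ := fun h => by have := Nat.le_of_dvd h1 h; omega
    have hn2 : ¬ (4 * m + 3) ∣ m₂ := fun h => by have := Nat.le_of_dvd h2 h; omega
    -- parity
    have hodd : Odd (x + y) := by
      by_contra hcon
      rw [Nat.not_odd_iff_even] at hcon
      have he : Even ((x ^ m + y ^ m) * (x ^ m - y ^ m)) := by
        have : Even (x ^ m + y ^ m) := by
          rw [Nat.even_add, Nat.even_pow' hm0.ne', Nat.even_pow' hm0.ne']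
          exact Nat.even_add.1 hcon
        exact this.mul_right _
      rw [prod_eq hxy h] at he
      have := (Nat.even_pow' (by omega : 2 * m + 1 ≠ 0)).1 he
      exact (Nat.not_even_iff_odd.2 hzo) this
    have hodd' : Odd (x - y) := by
      obtain ⟨k, hk⟩ := hodd
      exact ⟨k - y, by omega⟩
    have hcoppm : Nat.Coprime (x + y) (x - y) := by
      rw [Nat.coprime_iff_gcd_eq_one]
      by_contra hne
      obtain ⟨p, hpp, hpd⟩ := Nat.exists_prime_and_dvd hne
      have h1 : p ∣ x + y := hpd.trans (Nat.gcd_dvd_left _ _)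
      have h2 : p ∣ x - y := hpd.trans (Nat.gcd_dvd_right _ _)
      have hp2 : p ≠ 2 := by
        rintro rfl
        exact (Nat.not_even_iff_odd.2 hodd) (even_iff_two_dvd.2 h1)
      have h5 : p ∣ 2 * x := by
        have : 2 * x = (x + y) + (x - y) := by omega
        rw [this]; exact dvd_add h1 h2
      have h6 : p ∣ x := by
        rcases (hpp.dvd_mul).1 h5 with h | h
        · exact absurd ((Nat.prime_dvd_prime_iff_eq hpp Nat.prime_two).1 h) hp2
        · exact h
      have h7 : p ∣ y := (Nat.dvd_add_right h6).1 h1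
      have := Nat.dvd_gcd h6 h7
      rw [hc] at this
      exact hpp.one_lt.ne' (Nat.dvd_one.1 this)
    have hcop12 : Nat.Coprime m₁ m₂ := by
      apply Nat.Coprime.coprime_dvd_left (Nat.gcd_dvd_right _ _)
      apply Nat.Coprime.coprime_dvd_right (Nat.gcd_dvd_right _ _)
      exact Nat.Coprime.pow _ _ hcoppm
    have hloc := local_odd (l := 4 * m + 3) (d := 2 * m + 1) (by omega) (by omega)
      (dvd_refl _) hm hy hzo hc h hn1 hn2
    rw [← hm₁, ← hm₂] at hloc
    rcases hloc with ⟨hxy0, hmm⟩ | h8 | h8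
    · have hdiv : (4 * m + 3) ∣ x * y := by
        apply (ZMod.natCast_eq_zero_iff _ _).1
        push_cast
        exact hxy0
      have heq : m₁ = m₂ := by
        rcases hmm with h | h
        · exact natCast_inj_of_le (by omega) (by omega) h
        · exact (natCast_ne_neg h1 (by omega) h).elim
      rw [heq] at hcop12
      have h21 : m₂ = 1 := (Nat.coprime_self _).1 hcop12
      have h11 : m₁ = 1 := by rw [heq, h21]
      have hca : Nat.Coprime (x + y) m := by
        apply Nat.Coprime.symm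
        apply Nat.eq_one_of_dvd_one
        have : Nat.gcd m (x + y) ∣ m₁ := Nat.dvd_gcd (Nat.gcd_dvd_left _ _)
          ((Nat.gcd_dvd_right _ _).trans (dvd_pow_self _ hm0.ne'))
        rwa [h11] at this
      have hcb : Nat.Coprime (x - y) m := by
        apply Nat.Coprime.symm
        apply Nat.eq_one_of_dvd_one
        have : Nat.gcd m (x - y) ∣ m₂ := Nat.dvd_gcd (Nat.gcd_dvd_left _ _)
          ((Nat.gcd_dvd_right _ _).trans (dvd_pow_self _ hm0.ne'))
        rwa [h21] at this
      refine ⟨hdiv, ?_⟩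
      rw [Nat.sq_sub_sq]
      apply Nat.Coprime.mul_right
      · exact Nat.coprime_two_right.2 (hodd.mul hodd')
      · exact Nat.Coprime.mul_left hca hcb
    · exact (eight_ne rfl hm1 h2 hd2 h8).elim
    · exact (eight_ne rfl hm1 h1 hd1 h8).elim

end Pool.Agent.H48.BN
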