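import Pool.Agent.H48.BN.Psi
import Pool.Agent.H48.BN.Split

set_option autoImplicit false

/-!
# A prime factor `p` of `y` with `gcd (p (p - 1), m) > 1`
-/

namespace Pool.Agent.H48.BN

theorem coprime_of_primes {n m : ℕ} (h : ∀ p, p.Prime → p ∣ n → Nat.Coprime (p * (p - 1)) m) :
    Nat.Coprime n m := by
  rw [Nat.coprime_iff_gcd_eq_one]
  by_contra hne
  obtain ⟨p, hp, hpd⟩ := Nat.exists_prime_and_dvd hne
  have h1 : p ∣ n := hpd.trans (Nat.gcd_dvd_left _ _)
  have h2 : p ∣ m := hpd.trans (Nat.gcd_dvd_right _ _)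
  have h3 := h p hp h1
  have h4 : p ∣ Nat.gcd (p * (p - 1)) m := Nat.dvd_gcd (Dvd.intro _ rfl) h2
  rw [h3] at h4
  exact hp.one_lt.ne' (Nat.dvd_one.1 h4)

theorem coprime_totient {n m : ℕ} (hn : n ≠ 0)
    (h : ∀ p, p.Prime → p ∣ n → Nat.Coprime (p * (p - 1)) m) :
    Nat.Coprime (Nat.totient n) m := by
  have h1 : Nat.Coprime (n * ∏ p ∈ n.primeFactors, (p - 1)) m := by
    apply Nat.Coprime.mul_left (coprime_of_primes h)
    apply Nat.Coprime.prod_left
    intro p hp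
    have hpp := Nat.prime_of_mem_primeFactors hp
    have hpd := Nat.dvd_of_mem_primeFactors hp
    exact Nat.Coprime.coprime_dvd_left (Dvd.intro_left _ rfl) (h p hpp hpd)
  rw [← Nat.totient_mul_prod_primeFactors] at h1
  exact Nat.Coprime.coprime_dvd_left (Dvd.intro _ rfl) h1

/-- Injectivity of the `m`-th power map on units modulo `n`. -/
theorem pow_inj_mod {n m : ℕ} (hn : n ≠ 0)
    (h : ∀ p, p.Prime → p ∣ n → Nat.Coprime (p * (p - 1)) m) (hm : m ≠ 0) {c a : ℤ}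
    (ha : IsCoprime a (n : ℤ)) (hca : (n : ℤ) ∣ c ^ m - a ^ m) : (n : ℤ) ∣ c - a := by
  have hne : NeZero n := ⟨hn⟩
  have hau : IsUnit (a : ZMod n) := by
    obtain ⟨u, v, huv⟩ := ha
    have : (u : ZMod n) * (a : ZMod n) = 1 := by
      have := congrArg (Int.cast : ℤ → ZMod n) huv
      push_cast at this
      rw [ZMod.natCast_self, mul_zero, add_zero] at this
      exact this
    exact IsUnit.of_mul_eq_one (u : ZMod n) (by rw [mul_comm]; exact this)
  have heq : (c : ZMod n) ^ m = (a : ZMod n) ^ m := by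
    have := (ZMod.intCast_zmod_eq_zero_iff_dvd (c ^ m - a ^ m) n).2 hca
    push_cast at this
    linear_combination this
  have hcu : IsUnit (c : ZMod n) := by
    have : IsUnit ((c : ZMod n) ^ m) := by rw [heq]; exact hau.pow m
    exact (isUnit_pow_iff hm).1 this
  obtain ⟨u, hu⟩ := hau
  obtain ⟨v, hv⟩ := hcu
  have h1 : (v / u) ^ m = 1 := by
    rw [div_pow, div_eq_one]
    ext
    push_cast
    rw [hu, hv, heq]
  have h2 : (v / u) ^ Nat.totient n = 1 := ZMod.pow_totient _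
  have h3 : orderOf (v / u) ∣ Nat.gcd (Nat.totient n) m :=
    Nat.dvd_gcd (orderOf_dvd_of_pow_eq_one h2) (orderOf_dvd_of_pow_eq_one h1)
  rw [coprime_totient hn h] at h3
  have h4 : orderOf (v / u) = 1 := Nat.dvd_one.1 h3
  have h5 : v / u = 1 := orderOf_eq_one_iff.1 h4
  have h6 : v = u := div_eq_one.1 h5
  have h7 : (c : ZMod n) = (a : ZMod n) := by rw [← hv, ← hu, h6]
  apply (ZMod.intCast_zmod_eq_zero_iff_dvd (c - a) n).1
  push_cast
  rw [h7]; ring

theorem nine_pow {m : ℕ} (hm : 5 ≤ m) : 8 * m * (2 * m + 1) ^ 2 < 9 ^ m := by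
  induction m, hm using Nat.le_induction with
  | base => norm_num
  | succ m hm ih =>
    have h1 : 8 * (m + 1) * (2 * (m + 1) + 1) ^ 2 ≤ 9 * (8 * m * (2 * m + 1) ^ 2) := by
      obtain ⟨k, rfl⟩ := Nat.exists_eq_add_of_le hm
      have e : 9 * (8 * (5 + k) * (2 * (5 + k) + 1) ^ 2) = 8 * (5 + k + 1) * (2 * (5 + k + 1) + 1) ^ 2 +
          (256 * k ^ 3 + 4000 * k ^ 2 + 20704 * k + 35448) := by ring
      rw [e]; exact Nat.le_add_right _ _
    have h2 : 9 ^ (m + 1) = 9 * 9 ^ m := by ring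
    omega

theorem four_pow {m : ℕ} (hm : 5 ≤ m) : 2 * m ^ 2 * (2 * m + 1) < 4 ^ m := by
  induction m, hm using Nat.le_induction with
  | base => norm_num
  | succ m hm ih =>
    have h1 : 2 * (m + 1) ^ 2 * (2 * (m + 1) + 1) ≤ 4 * (2 * m ^ 2 * (2 * m + 1)) := by
      obtain ⟨k, rfl⟩ := Nat.exists_eq_add_of_le hm
      nlinarith
    have h2 : 4 ^ (m + 1) = 4 * 4 ^ m := by ring
    omega

theorem taylor (a t : ℤ) (m : ℕ) : ∃ E : ℤ, (a + t) ^ (m + 1) =
    a ^ (m + 1) + (m + 1) * a ^ m * t + t ^ 2 * E := by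
  induction m with
  | zero => exact ⟨0, by simp⟩
  | succ m ih =>
    obtain ⟨E, hE⟩ := ih
    refine ⟨a * E + (m + 1) * a ^ m + t * E, ?_⟩
    have : (a + t) ^ (m + 1 + 1) = (a + t) * (a + t) ^ (m + 1) := by ring
    rw [this, hE]
    push_cast
    ring

theorem prime_int_dvd_of_pow {p : ℕ} (hp : p.Prime) {a : ℤ} {k : ℕ} (h : (p : ℤ) ∣ a ^ k) :
    (p : ℤ) ∣ a := (Nat.prime_iff_prime_int.1 hp).dvd_of_dvd_pow h

/-- The core of the argument. -/
theorem core {m : ℕ} (hm : Odd m) (h5 : 5 ≤ m) {α β : ℤ} {X Y : ℕ}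
    (hα : 0 < α) (hβ : 0 < β) (hcop : IsCoprime α β) (hodd : Odd (α + β))
    (hX : (X : ℤ) ^ m = α * (PQ (α ^ 2) (β ^ 2) m).1)
    (hY : (Y : ℤ) ^ m = β * (PQ (α ^ 2) (β ^ 2) m).2)
    (hY0 : 0 < Y)
    (hXN : Nat.Coprime X (2 * m + 1))
    (hprime : ∀ p, p.Prime → p ∣ Y → Nat.Coprime (p * (p - 1)) m) :
    β = 1 ∧ ∃ A C : ℤ, 0 < A ∧ 0 < C ∧ α = A ^ m ∧ (PQ (α ^ 2) (β ^ 2) m).1 = C ^ m ∧
      α ^ 2 < C ∧ C < α ^ 2 + (2 * m + 1) * β ^ 2 := by
  obtain ⟨m', rfl⟩ : ∃ m', m = m' + 1 := ⟨m - 1, by omega⟩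
  set a := α ^ 2 with ha
  set b := β ^ 2 with hb
  have ha0 : 0 < a := by positivity
  have hb0 : 0 < b := by positivity
  set m := m' + 1 with hmdef
  set p1 := (PQ a b m).1 with hp1
  set q1 := (PQ a b m).2 with hq1
  have hm0 : m ≠ 0 := by omega
  obtain ⟨hp1pos, hq1pos⟩ := PQ_pos ha0 hb0 m
  have hcab : IsCoprime a b := IsCoprime.pow hcop
  -- coprimality of α and p1
  have hcop1 : IsCoprime α p1 := by
    rw [Int.isCoprime_iff_gcd_eq_one]
    by_contra hne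
    obtain ⟨r, hr, hrd⟩ := Nat.exists_prime_and_dvd hne
    have hrα : (r : ℤ) ∣ α := (Int.natCast_dvd_natCast.2 hrd).trans (Int.gcd_dvd_left _ _)
    have hrp : (r : ℤ) ∣ p1 := (Int.natCast_dvd_natCast.2 hrd).trans (Int.gcd_dvd_right _ _)
    obtain ⟨⟨E, hE⟩, -⟩ := PQ_cong b a m
    have hsw : (PQ b a m).2 = p1 := by rw [PQ_swap a b m]
    rw [hsw] at hE
    have h1 : (r : ℤ) ∣ (2 * m + 1) * b ^ m := by
      have : (2 * (m : ℤ) + 1) * b ^ m = p1 - a * E := by rw [hE]; ring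
      rw [this]
      exact dvd_sub hrp ((hrα.trans (dvd_pow_self α two_ne_zero)).mul_right E)
    have hrP := Nat.prime_iff_prime_int.1 hr
    have hrX : r ∣ X := by
      have : (r : ℤ) ∣ (X : ℤ) ^ m := by rw [hX]; exact hrα.mul_right _
      exact_mod_cast hrP.dvd_of_dvd_pow this
    rcases hrP.dvd_or_dvd h1 with h | h
    · have h2 : r ∣ 2 * m + 1 := by exact_mod_cast h
      have := Nat.dvd_gcd hrX h2
      rw [hXN] at this
      exact hr.one_lt.ne' (Nat.dvd_one.1 this)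
    · have h2 : (r : ℤ) ∣ β := by
        have := hrP.dvd_of_dvd_pow h
        rw [hb] at this
        exact hrP.dvd_of_dvd_pow this
      have := hcop.isUnit_of_dvd' hrα h2
      exact hrP.not_isUnit this
  obtain ⟨⟨A, hA⟩, ⟨C, hC⟩⟩ := Int.eq_pow_of_mul_eq_pow_odd hcop1 hm hX.symm
  have hApos : 0 < A := by
    have : 0 < A ^ m := by rw [← hA]; exact hα
    exact (Odd.pow_pos_iff hm).1 this
  have hCpos : 0 < C := by
    have : 0 < C ^ m := by rw [← hC]; exact hp1pos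
    exact (Odd.pow_pos_iff hm).1 this
  -- size
  have hCa : a < C := by
    have h1 := PQ_lower' ha0 hb0 m'
    have h2 : a ^ m < C ^ m := by
      rw [← hC, hp1, hmdef]
      have : 0 < (m' + 1) * (2 * m' + 3) * a ^ m' * b := by positivity
      linarith
    exact lt_of_pow_lt_pow_left₀ m hCpos.le h2
  have hCb : C < a + (2 * m + 1) * b := by
    have h1 := PQ_upper_lt ha0 hb0 m (by omega)
    rw [← hp1, hC] at h1
    exact lt_of_pow_lt_pow_left₀ m (by positivity) h1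
  -- primes of β divide Y
  have hrP : ∀ r : ℕ, r.Prime → (r : ℤ) ∣ β → r ∣ Y := by
    intro r hr hrd
    have : (r : ℤ) ∣ (Y : ℤ) ^ m := by rw [hY]; exact hrd.mul_right _
    exact_mod_cast (Nat.prime_iff_prime_int.1 hr).dvd_of_dvd_pow this
  -- modulus n = b.natAbs
  set n := b.natAbs with hn
  have hnb : (n : ℤ) = b := by rw [hn]; exact Int.natAbs_of_nonneg hb0.le
  have hn0 : n ≠ 0 := by rw [hn]; exact Int.natAbs_ne_zero.2 hb0.ne'
  have hprn : ∀ p, p.Prime → p ∣ n → Nat.Coprime (p * (p - 1)) m := by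
    intro p hp hpn
    apply hprime p hp
    apply hrP p hp
    have : (p : ℤ) ∣ b := by rw [← hnb]; exact_mod_cast hpn
    rw [hb] at this
    exact prime_int_dvd_of_pow hp this
  have hconC : (n : ℤ) ∣ C ^ m - a ^ m := by
    obtain ⟨-, ⟨E, hE⟩⟩ := PQ_cong a b m'
    rw [← hC, hp1, hmdef, hE, hnb]
    refine ⟨(m' + 1) * (2 * m' + 3) * a ^ m' + b * E, by ring⟩
  have hinj := pow_inj_mod hn0 hprn hm0 (c := C) (a := a) (by rw [hnb]; exact hcab) hconC
  rw [hnb] at hinj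
  obtain ⟨k, hk⟩ := hinj
  have hCk : C = a + b * k := by linarith
  have hk1 : 0 < k := by
    have : 0 < b * k := by linarith
    exact (mul_pos_iff_of_pos_left hb0).1 this
  have hk2 : k < 2 * m + 1 := by
    have : b * k < b * (2 * m + 1) := by linarith
    exact lt_of_mul_lt_mul_left this hb0.le
  -- b ∣ N - k
  have hdvd : b ∣ (2 * m + 1) - k := by
    obtain ⟨-, ⟨E, hE⟩⟩ := PQ_cong a b m'
    obtain ⟨E', hE'⟩ := taylor a (b * k) m'
    have h1 : C ^ m = (PQ a b (m' + 1)).1 := by rw [← hC, hp1]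
    rw [hCk, hmdef, hE', hE] at h1
    have h2 : b * ((m' + 1) * a ^ m' * ((2 * m' + 3) - k)) = b * (b * (k ^ 2 * E' - E)) := by
      linear_combination -h1
    have h3 : (m' + 1) * a ^ m' * ((2 * m' + 3) - k) = b * (k ^ 2 * E' - E) :=
      mul_left_cancel₀ hb0.ne' h2
    have h4 : b ∣ ((m : ℤ) * a ^ m') * ((2 * m + 1) - k) := by
      refine ⟨k ^ 2 * E' - E, ?_⟩
      rw [← h3, hmdef]; push_cast; ring
    have hcm : IsCoprime b (m : ℤ) := by
      have := coprime_of_primes hprn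
      rw [← hnb]
      exact Nat.isCoprime_iff_coprime.2 this
    have hc2 : IsCoprime b ((m : ℤ) * a ^ m') := hcm.mul_right (hcab.symm.pow_right)
    exact hc2.dvd_of_dvd_mul_left h4
  have hble : b ≤ 2 * m := by
    have := Int.le_of_dvd (by linarith) hdvd
    linarith
  refine ⟨?_, A, C, hApos, hCpos, hA, hC, hCa, hCb⟩
  -- β = 1
  by_contra hβ1
  have hβ2 : 2 ≤ β := by omega
  obtain ⟨p, hp, hpd⟩ := Nat.exists_prime_and_dvd (n := β.natAbs) (by omega)
  have hpβ : (p : ℤ) ∣ β := Int.natCast_dvd.2 hpd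
  have hpY := hrP p hp hpβ
  have hpYm : (p : ℤ) ^ m ∣ (Y : ℤ) ^ m := pow_dvd_pow_of_dvd (by exact_mod_cast hpY) m
  have hpP := Nat.prime_iff_prime_int.1 hp
  have hpα : ¬ (p : ℤ) ∣ α := fun h => hpP.not_isUnit (hcop.isUnit_of_dvd' h hpβ)
  by_cases hp2 : p = 2
  · subst hp2
    -- q1 is odd
    obtain ⟨⟨E, hE⟩, -⟩ := PQ_cong a b m
    have hβe : Even β := even_iff_two_dvd.2 (by exact_mod_cast hpβ)
    have hαo : Odd α := by
      rcases Int.even_or_odd α with h | h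
      · exfalso
        exact (Int.not_even_iff_odd.2 hodd) (h.add hβe)
      · exact h
    have hqo : Odd q1 := by
      rw [hq1, hE]
      apply Odd.add_even
      · exact (Odd.mul ⟨(m : ℤ), by ring⟩ ((hαo.pow).pow))
      · exact Even.mul_right (by rw [hb]; exact (Int.even_pow.2 ⟨hβe, two_ne_zero⟩)) _
    have h1 : (2 : ℤ) ^ m ∣ β * q1 := by
      rw [← hY]; exact_mod_cast hpYm
    have hc2 : IsCoprime ((2 : ℤ) ^ m) q1 := by
      apply IsCoprime.pow_left
      rw [Int.isCoprime_iff_gcd_eq_one]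
      by_contra hne
      have hdv : (Int.gcd 2 q1) ∣ 2 := by
        have := Int.gcd_dvd_left (2 : ℤ) q1
        exact_mod_cast this
      rcases (Nat.dvd_prime Nat.prime_two).1 hdv with h | h
      · exact hne h
      · have := Int.gcd_dvd_right (2 : ℤ) q1
        rw [h] at this
        exact (Int.not_even_iff_odd.2 hqo) (even_iff_two_dvd.2 (by exact_mod_cast this))
    have h2 : (2 : ℤ) ^ m ∣ β := hc2.dvd_of_dvd_mul_right h1
    have h3 : (2 : ℤ) ^ m ≤ β := Int.le_of_dvd hβ h2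
    have h4 : (4 : ℤ) ^ m ≤ b := by
      have : (4 : ℤ) ^ m = (2 : ℤ) ^ m * 2 ^ m := by rw [← mul_pow]; norm_num
      rw [this, hb, sq]
      exact mul_le_mul h3 h3 (by positivity) hβ.le
    have h5' := four_pow h5
    have h6 : (2 * (m : ℤ) ^ 2 * (2 * m + 1)) < 4 ^ m := by exact_mod_cast h5'
    have h7 : (5 : ℤ) ≤ m := by exact_mod_cast h5
    nlinarith
  · have hpodd : Odd p := hp.odd_of_ne_two hp2
    have hsub : (α + β) - (α - β) = 2 * β := by ring
    have hlte := Int.emultiplicity_pow_sub_pow hp hpodd (x := α + β) (y := α - β)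
      (by rw [hsub]; exact hpβ.mul_left 2)
      (by
        intro h
        exact hpα (by
          have := dvd_sub h hpβ
          simpa using this)) (2 * m + 1)
    have hdiff : (α + β) ^ (2 * m + 1) - (α - β) ^ (2 * m + 1) = 2 * (Y : ℤ) ^ m := by
      rw [PQ_add, PQ_sub, hY]; ring
    rw [hdiff, hsub] at hlte
    have hmul : emultiplicity (p : ℤ) (2 * β * ((2 * m + 1 : ℕ) : ℤ)) =
        emultiplicity (p : ℤ) (2 * β) + emultiplicity (p : ℤ) ((2 * m + 1 : ℕ) : ℤ) :=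
      emultiplicity_mul hpP
    have h1 : (p : ℤ) ^ m ∣ 2 * β * ((2 * m + 1 : ℕ) : ℤ) := by
      apply pow_dvd_of_le_emultiplicity
      rw [hmul, Int.natCast_emultiplicity, ← hlte]
      exact le_emultiplicity_of_pow_dvd (hpYm.mul_left 2)
    have h2 : (p : ℤ) ^ m ≤ 2 * β * ((2 * m + 1 : ℕ) : ℤ) := Int.le_of_dvd (by positivity) h1
    have hp3 : (3 : ℤ) ≤ p := by
      have := hp.two_le
      have : 3 ≤ p := by omega
      exact_mod_cast this
    have h3 : (3 : ℤ) ^ m ≤ (p : ℤ) ^ m := pow_le_pow_left₀ (by norm_num) hp3 m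
    have h4 : (9 : ℤ) ^ m = (3 : ℤ) ^ m * 3 ^ m := by rw [← mul_pow]; norm_num
    have h6 : (9 : ℤ) ^ m ≤ (2 * β * ((2 * m + 1 : ℕ) : ℤ)) * (2 * β * ((2 * m + 1 : ℕ) : ℤ)) := by
      rw [h4]
      exact mul_le_mul (h3.trans h2) (h3.trans h2) (by positivity) (by positivity)
    have h7 : (8 * (m : ℤ) * (2 * m + 1) ^ 2) < 9 ^ m := by exact_mod_cast nine_pow h5
    have h8 : (2 * β * ((2 * m + 1 : ℕ) : ℤ)) * (2 * β * ((2 * m + 1 : ℕ) : ℤ)) =
        4 * b * (2 * m + 1) ^ 2 := by rw [hb]; push_cast; ring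
    rw [h8] at h6
    have h9 : 4 * b * (2 * (m : ℤ) + 1) ^ 2 ≤ 4 * (2 * m) * (2 * m + 1) ^ 2 := by
      apply mul_le_mul_of_nonneg_right _ (by positivity)
      linarith
    linarith

end Pool.Agent.H48.BN
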