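import Pool.Agent.H48.BN.PrimeFactor

set_option autoImplicit false

/-!
# Prime factors of `x` and `y` for odd `z`
-/

namespace Pool.Agent.H48.BN

/-- The numbers `α > β > 0` with `α + β = v`, `α - β = u`. -/
theorem alpha_beta {m x y z : ℕ} (hm : 0 < m) (hxy : y < x) (hy : 0 < y)
    (hc : Nat.Coprime x y) (hz : Odd z)
    (h : x ^ (2 * m) = y ^ (2 * m) + z ^ (2 * m + 1)) :
    ∃ α β : ℤ, 0 < β ∧ β < α ∧ IsCoprime α β ∧ Odd (α + β) ∧
      (x : ℤ) ^ m = α * (PQ (α ^ 2) (β ^ 2) m).1 ∧ (y : ℤ) ^ m = β * (PQ (α ^ 2) (β ^ 2) m).2 := by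
  obtain ⟨⟨v, hv⟩, ⟨u, hu⟩⟩ := split_odd hm hxy hc hz h
  have hlt : y ^ m < x ^ m := Nat.pow_lt_pow_left hxy hm.ne'
  have hN : 2 * m + 1 ≠ 0 := by omega
  have hvu : v ^ (2 * m + 1) * u ^ (2 * m + 1) = z ^ (2 * m + 1) := by
    rw [← hv, ← hu]; exact prod_eq hxy h
  have hzodd : Odd (z ^ (2 * m + 1)) := hz.pow
  have hvo : Odd v := by
    by_contra hcon
    rw [Nat.not_odd_iff_even] at hcon
    have h1 : Even (v ^ (2 * m + 1) * u ^ (2 * m + 1)) :=
      ((Nat.even_pow.2 ⟨hcon, hN⟩)).mul_right _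
    rw [hvu] at h1
    exact (Nat.not_even_iff_odd.2 hzodd) h1
  have huo : Odd u := by
    by_contra hcon
    rw [Nat.not_odd_iff_even] at hcon
    have h1 : Even (v ^ (2 * m + 1) * u ^ (2 * m + 1)) :=
      ((Nat.even_pow.2 ⟨hcon, hN⟩)).mul_left _
    rw [hvu] at h1
    exact (Nat.not_even_iff_odd.2 hzodd) h1
  have huv : u < v := by
    have h1 : u ^ (2 * m + 1) < v ^ (2 * m + 1) := by
      rw [← hv, ← hu]
      have := pow_pos hy m
      omega
    exact lt_of_pow_lt_pow_left₀ _ (Nat.zero_le _) h1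
  obtain ⟨s, hs⟩ := hvo
  obtain ⟨t, ht⟩ := huo
  refine ⟨(s : ℤ) + t + 1, (s : ℤ) - t, by omega, by omega, ?_, ⟨s, by ring⟩, ?_, ?_⟩
  · -- coprimality
    have hadd : (s : ℤ) + t + 1 + (s - t) = v := by rw [hs]; push_cast; ring
    have hsub : (s : ℤ) + t + 1 - (s - t) = u := by rw [ht]; push_cast; ring
    rw [Int.isCoprime_iff_gcd_eq_one]
    by_contra hne
    obtain ⟨r, hr, hrd⟩ := Nat.exists_prime_and_dvd hne
    have h1 : (r : ℤ) ∣ (s : ℤ) + t + 1 :=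
      (Int.natCast_dvd_natCast.2 hrd).trans (Int.gcd_dvd_left _ _)
    have h2 : (r : ℤ) ∣ (s : ℤ) - t :=
      (Int.natCast_dvd_natCast.2 hrd).trans (Int.gcd_dvd_right _ _)
    have hrv : r ∣ v := by
      have : (r : ℤ) ∣ (v : ℤ) := by rw [← hadd]; exact dvd_add h1 h2
      exact_mod_cast this
    have hru : r ∣ u := by
      have : (r : ℤ) ∣ (u : ℤ) := by rw [← hsub]; exact dvd_sub h1 h2
      exact_mod_cast this
    have h3 : r ∣ x ^ m + y ^ m := by rw [hv]; exact dvd_pow hrv hN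
    have h4 : r ∣ x ^ m - y ^ m := by rw [hu]; exact dvd_pow hru hN
    have hr2 : r ≠ 2 := by
      rintro rfl
      omega
    have h5 : r ∣ 2 * x ^ m := by
      have : 2 * x ^ m = (x ^ m + y ^ m) + (x ^ m - y ^ m) := by omega
      rw [this]; exact dvd_add h3 h4
    have h6 : r ∣ x ^ m := by
      rcases (hr.dvd_mul).1 h5 with h | h
      · exact absurd ((Nat.prime_dvd_prime_iff_eq hr Nat.prime_two).1 h) hr2
      · exact h
    have h7 : r ∣ y ^ m := (Nat.dvd_add_right h6).1 h3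
    have h8 := Nat.dvd_gcd (hr.dvd_of_dvd_pow h6) (hr.dvd_of_dvd_pow h7)
    rw [hc] at h8
    exact hr.one_lt.ne' (Nat.dvd_one.1 h8)
  · have h1 := PQ_add ((s : ℤ) + t + 1) ((s : ℤ) - t) m
    have h2 := PQ_sub ((s : ℤ) + t + 1) ((s : ℤ) - t) m
    have hadd : (s : ℤ) + t + 1 + (s - t) = v := by rw [hs]; push_cast; ring
    have hsub : (s : ℤ) + t + 1 - (s - t) = u := by rw [ht]; push_cast; ring
    rw [hadd] at h1
    rw [hsub] at h2
    have e1 : (x : ℤ) ^ m + (y : ℤ) ^ m = (v : ℤ) ^ (2 * m + 1) := by exact_mod_cast hv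
    have e2 : (x : ℤ) ^ m - (y : ℤ) ^ m = (u : ℤ) ^ (2 * m + 1) := by
      have := congrArg (Nat.cast : ℕ → ℤ) hu
      push_cast [Nat.cast_sub hlt.le] at this
      exact this
    linarith
  · have h1 := PQ_add ((s : ℤ) + t + 1) ((s : ℤ) - t) m
    have h2 := PQ_sub ((s : ℤ) + t + 1) ((s : ℤ) - t) m
    have hadd : (s : ℤ) + t + 1 + (s - t) = v := by rw [hs]; push_cast; ring
    have hsub : (s : ℤ) + t + 1 - (s - t) = u := by rw [ht]; push_cast; ring
    rw [hadd] at h1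
    rw [hsub] at h2
    have e1 : (x : ℤ) ^ m + (y : ℤ) ^ m = (v : ℤ) ^ (2 * m + 1) := by exact_mod_cast hv
    have e2 : (x : ℤ) ^ m - (y : ℤ) ^ m = (u : ℤ) ^ (2 * m + 1) := by
      have := congrArg (Nat.cast : ℕ → ℤ) hu
      push_cast [Nat.cast_sub hlt.le] at this
      exact this
    linarith

/-- If `z` is odd and `gcd (y, n + 1) = 1` then `x` has a prime factor `p` with
`gcd (p (p - 1), n / 2) > 1`. -/
theorem factor_x {m x y z : ℕ} (hm : Odd m) (h5 : 5 ≤ m) (hy : 0 < y)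
    (hg : Nat.gcd (Nat.gcd x y) z = 1) (hz : Odd z)
    (h : x ^ (2 * m) = y ^ (2 * m) + z ^ (2 * m + 1)) (hyN : Nat.Coprime y (2 * m + 1)) :
    ∃ p, p.Prime ∧ p ∣ x ∧ ¬ Nat.Coprime (p * (p - 1)) m := by
  by_contra hcon
  push Not at hcon
  have hc : Nat.Coprime x y := coprime_xy (n := 2 * m) (by omega) hg h
  have hxy : y < x := y_lt_x hz.pos h
  obtain ⟨α, β, hβ, hlt, hcop, hodd, hX, hY⟩ := alpha_beta (by omega) hxy hy hc hz h
  have hα : 0 < α := by linarith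
  have hswap : PQ (α ^ 2) (β ^ 2) m = ((PQ (β ^ 2) (α ^ 2) m).2, (PQ (β ^ 2) (α ^ 2) m).1) :=
    PQ_swap _ _ _
  rw [hswap] at hX hY
  simp only at hX hY
  have := core hm h5 (α := β) (β := α) (X := y) (Y := x) hβ hα hcop.symm
    (by rw [add_comm]; exact hodd) hY hX (by omega) hyN hcon
  omega

/-- If `z` is odd and `gcd (x, n + 1) = 1` then `y` has a prime factor `p` with
`gcd (p (p - 1), n / 2) > 1`. -/
theorem factor_y {m x y z : ℕ} (hm : Odd m) (h5 : 5 ≤ m) (hy : 0 < y)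
    (hg : Nat.gcd (Nat.gcd x y) z = 1) (hz : Odd z)
    (h : x ^ (2 * m) = y ^ (2 * m) + z ^ (2 * m + 1)) (hxN : Nat.Coprime x (2 * m + 1)) :
    ∃ p, p.Prime ∧ p ∣ y ∧ ¬ Nat.Coprime (p * (p - 1)) m := by
  by_contra hcon
  push Not at hcon
  have hc : Nat.Coprime x y := coprime_xy (n := 2 * m) (by omega) hg h
  have hxy : y < x := y_lt_x hz.pos h
  obtain ⟨α, β, hβ, hlt, hcop, hodd, hX, hY⟩ := alpha_beta (by omega) hxy hy hc hz h
  have hα : 0 < α := by linarith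
  obtain ⟨hβ1, A, C, hA, hC, hαA, hpC, hCa, hCb⟩ := core hm h5 hα hβ hcop hodd hX hY hy hxN hcon
  rw [hβ1] at hCb hpC
  have hm0 : m ≠ 0 := by omega
  -- α is even, so A is even
  have hαe : Even α := by
    rw [hβ1] at hodd
    rcases Int.even_or_odd α with h | h
    · exact h
    · exfalso
      exact (Int.not_even_iff_odd.2 hodd) (h.add_odd odd_one)
  have hAe : Even A := by
    rw [hαA] at hαe
    exact ((Int.even_pow).1 hαe).1
  have hA2 : 2 ≤ A := by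
    obtain ⟨k, hk⟩ := hAe
    omega
  have ha4 : (4 : ℤ) ^ m ≤ α ^ 2 := by
    have h1 : (2 : ℤ) ^ m ≤ A ^ m := pow_le_pow_left₀ (by norm_num) hA2 m
    have h2 : (4 : ℤ) ^ m = (2 : ℤ) ^ m * 2 ^ m := by rw [← mul_pow]; norm_num
    rw [h2, hαA, sq]
    exact mul_le_mul h1 h1 (by positivity) (by positivity)
  set a := α ^ 2 with ha
  have ha0 : 0 < a := by positivity
  have h6 : (2 * (m : ℤ) ^ 2 * (2 * m + 1)) < 4 ^ m := by exact_mod_cast four_pow h5
  obtain ⟨m', rfl⟩ : ∃ m', m = m' + 1 := ⟨m - 1, by omega⟩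
  have hC' : C ≤ a + 2 * ((m' + 1 : ℕ) : ℤ) := by
    have : C < a + (2 * ((m' + 1 : ℕ) : ℤ) + 1) * 1 ^ 2 := hCb
    linarith
  have hlow := PQ_lower' ha0 (by norm_num : (0 : ℤ) < 1) m'
  have h1sq : ((1 : ℤ)) ^ 2 = 1 := by norm_num
  rw [h1sq] at hpC
  rw [hpC] at hlow
  set M : ℤ := ((m' + 1 : ℕ) : ℤ) with hM
  have hM5 : 5 ≤ M := by rw [hM]; exact_mod_cast h5
  have hM' : (m' : ℤ) + 1 = M := by rw [hM]; push_cast; ring
  have hpow : C ^ (m' + 1) ≤ (a + 2 * M) ^ (m' + 1) := pow_le_pow_left₀ hC.le hC' _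
  have hup := pow_add_upper ha0.le (by positivity : (0 : ℤ) ≤ 2 * M) (m' + 1)
    (by
      have : M * (2 * M) ≤ 2 * M ^ 2 * (2 * M + 1) := by nlinarith
      exact this.trans (h6.le.trans ha4))
  have h7 : a ^ m' * ((a + M * (2 * M + 1))) ≤ (a + 2 * M) ^ (m' + 1) := by
    refine le_trans ?_ hpow
    refine le_trans (le_of_eq ?_) hlow
    rw [pow_succ]
    have : (2 * (m' : ℤ) + 3) = 2 * M + 1 := by rw [← hM']; ring
    rw [this, hM']
    ring
  have hpos : 0 < a - M * (2 * M) := by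
    have : M * (2 * M) < 2 * M ^ 2 * (2 * M + 1) := by nlinarith
    linarith
  have h8 : a ^ m' * ((a + M * (2 * M + 1))) * (a - M * (2 * M)) ≤ a ^ m' * (a * a) := by
    have h9 : a ^ m' * ((a + M * (2 * M + 1))) * (a - M * (2 * M)) ≤
        (a + 2 * M) ^ (m' + 1) * (a - M * (2 * M)) := mul_le_mul_of_nonneg_right h7 hpos.le
    refine h9.trans (hup.trans (le_of_eq ?_))
    ring
  have h9 : (a + M * (2 * M + 1)) * (a - M * (2 * M)) ≤ a * a := by
    have hap : 0 < a ^ m' := by positivity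
    apply le_of_mul_le_mul_left _ hap
    rw [← mul_assoc]; exact h8
  -- a M ≤ 2 M ^ 3 (2 M + 1)
  have h10 : M * a ≤ M * (2 * M ^ 2 * (2 * M + 1)) := by nlinarith
  have h11 : a ≤ 2 * M ^ 2 * (2 * M + 1) := le_of_mul_le_mul_left h10 (by linarith)
  linarith

end Pool.Agent.H48.BN
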