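import Mathlib

set_option autoImplicit false

/-!
# The binary forms `((α + β) ^ N ± (α - β) ^ N) / 2`, `N = 2 m + 1`
-/

namespace Pool.Agent.H48.BN

/-- The pair `(p, q)` with `(α + β) ^ (2 m + 1) = α p (α², β²) + β q (α², β²)`. -/
def PQ (a b : ℤ) : ℕ → ℤ × ℤ
  | 0 => (1, 1)
  | m + 1 => ((a + b) * (PQ a b m).1 + 2 * b * (PQ a b m).2,
      (a + b) * (PQ a b m).2 + 2 * a * (PQ a b m).1)

theorem PQ_succ (a b : ℤ) (m : ℕ) : PQ a b (m + 1) =
    ((a + b) * (PQ a b m).1 + 2 * b * (PQ a b m).2,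
      (a + b) * (PQ a b m).2 + 2 * a * (PQ a b m).1) := rfl

theorem PQ_add (α β : ℤ) (m : ℕ) :
    (α + β) ^ (2 * m + 1) = α * (PQ (α ^ 2) (β ^ 2) m).1 + β * (PQ (α ^ 2) (β ^ 2) m).2 := by
  induction m with
  | zero => simp [PQ]
  | succ m ih =>
    rw [PQ_succ]
    have : (α + β) ^ (2 * (m + 1) + 1) = (α + β) ^ 2 * (α + β) ^ (2 * m + 1) := by ring
    rw [this, ih]
    ring

theorem PQ_sub (α β : ℤ) (m : ℕ) :
    (α - β) ^ (2 * m + 1) = α * (PQ (α ^ 2) (β ^ 2) m).1 - β * (PQ (α ^ 2) (β ^ 2) m).2 := by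
  have := PQ_add α (-β) m
  rw [neg_sq] at this
  rw [sub_eq_add_neg, this]; ring

theorem PQ_swap (a b : ℤ) (m : ℕ) : PQ b a m = ((PQ a b m).2, (PQ a b m).1) := by
  induction m with
  | zero => rfl
  | succ m ih =>
    rw [PQ_succ, PQ_succ, ih]
    ext
    · simp only; ring
    · simp only; ring

theorem PQ_cong (a b : ℤ) (m : ℕ) :
    (∃ E : ℤ, (PQ a b m).2 = (2 * m + 1) * a ^ m + b * E) ∧
      (∃ E : ℤ, (PQ a b (m + 1)).1 =
        a ^ (m + 1) + (m + 1) * (2 * m + 3) * a ^ m * b + b ^ 2 * E) := by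
  induction m with
  | zero =>
    refine ⟨⟨0, by simp [PQ]⟩, ⟨0, ?_⟩⟩
    simp [PQ]; ring
  | succ m ih =>
    obtain ⟨⟨E, hE⟩, ⟨E', hE'⟩⟩ := ih
    have h2 : ∃ E₂ : ℤ, (PQ a b (m + 1)).2 = (2 * ((m + 1 : ℕ) : ℤ) + 1) * a ^ (m + 1) + b * E₂ := by
      rw [PQ_succ]
      -- (a + b) q + 2 a p, with p ≡ a ^ m mod b
      have hp : ∃ E₁ : ℤ, (PQ a b m).1 = a ^ m + b * E₁ := by
        rcases m with _ | m
        · exact ⟨0, by simp [PQ]⟩
        · have hp' : ∀ k : ℕ, ∃ E₁ : ℤ, (PQ a b k).1 = a ^ k + b * E₁ := by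
            intro k
            induction k with
            | zero => exact ⟨0, by simp [PQ]⟩
            | succ k ihk =>
              obtain ⟨E₁, h₁⟩ := ihk
              refine ⟨a * E₁ + (PQ a b k).1 + 2 * (PQ a b k).2, ?_⟩
              rw [PQ_succ]
              simp only
              have : (a + b) * (PQ a b k).1 = a * (PQ a b k).1 + b * (PQ a b k).1 := by ring
              rw [this]
              conv_lhs => rw [show a * (PQ a b k).1 = a * (a ^ k + b * E₁) by rw [← h₁]]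
              ring
          exact hp' _
      obtain ⟨E₁, h₁⟩ := hp
      refine ⟨a * E + (PQ a b m).2 + 2 * a * E₁, ?_⟩
      simp only
      have e1 : (a + b) * (PQ a b m).2 = a * (PQ a b m).2 + b * (PQ a b m).2 := by ring
      rw [e1]
      conv_lhs => rw [show a * (PQ a b m).2 = a * ((2 * m + 1) * a ^ m + b * E) by rw [← hE], h₁]
      push_cast
      ring
    refine ⟨h2, ?_⟩
    obtain ⟨E₂, h₂⟩ := h2
    rw [PQ_succ]
    refine ⟨a * E' + (m + 1) * (2 * m + 3) * a ^ m + b * E' + 2 * E₂, ?_⟩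
    simp only
    rw [hE', h₂]
    push_cast
    ring

theorem PQ_pos {a b : ℤ} (ha : 0 < a) (hb : 0 < b) (m : ℕ) :
    0 < (PQ a b m).1 ∧ 0 < (PQ a b m).2 := by
  induction m with
  | zero => simp [PQ]
  | succ m ih =>
    obtain ⟨h1, h2⟩ := ih
    rw [PQ_succ]
    constructor <;> simp only <;> positivity

theorem PQ_lower {a b : ℤ} (ha : 0 < a) (hb : 0 < b) (m : ℕ) :
    (2 * m + 1) * a ^ m ≤ (PQ a b m).2 ∧ a ^ m ≤ (PQ a b m).1 := by
  induction m with
  | zero => simp [PQ]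
  | succ m ih =>
    obtain ⟨h1, h2⟩ := ih
    obtain ⟨p1, p2⟩ := PQ_pos ha hb m
    rw [PQ_succ]
    simp only
    constructor
    · have e : (2 * ((m + 1 : ℕ) : ℤ) + 1) * a ^ (m + 1) =
          a * ((2 * m + 1) * a ^ m) + 2 * a * a ^ m := by push_cast; ring
      rw [e]
      have h3 : a * ((2 * m + 1) * a ^ m) ≤ a * (PQ a b m).2 := mul_le_mul_of_nonneg_left h1 ha.le
      have h4 : 2 * a * a ^ m ≤ 2 * a * (PQ a b m).1 :=
        mul_le_mul_of_nonneg_left h2 (by positivity)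
      have h5 : 0 < b * (PQ a b m).2 := mul_pos hb p2
      nlinarith
    · have e : a ^ (m + 1) = a * a ^ m := by ring
      rw [e]
      have h3 : a * a ^ m ≤ a * (PQ a b m).1 := mul_le_mul_of_nonneg_left h2 ha.le
      have h4 : 0 < b * (PQ a b m).1 := mul_pos hb p1
      have h5 : 0 < 2 * b * (PQ a b m).2 := by positivity
      nlinarith

theorem PQ_lower' {a b : ℤ} (ha : 0 < a) (hb : 0 < b) (m : ℕ) :
    a ^ (m + 1) + (m + 1) * (2 * m + 3) * a ^ m * b ≤ (PQ a b (m + 1)).1 := by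
  induction m with
  | zero => simp [PQ]; linarith
  | succ m ih =>
    obtain ⟨h1, -⟩ := PQ_lower ha hb (m + 1)
    rw [PQ_succ]
    simp only
    have e : a ^ (m + 1 + 1) + (((m + 1 : ℕ) : ℤ) + 1) * (2 * ((m + 1 : ℕ) : ℤ) + 3) * a ^ (m + 1) * b =
        a * (a ^ (m + 1) + (m + 1) * (2 * m + 3) * a ^ m * b) + b * a ^ (m + 1) +
          2 * b * ((2 * ((m + 1 : ℕ) : ℤ) + 1) * a ^ (m + 1)) := by push_cast; ring
    rw [e]
    have h3 : a * (a ^ (m + 1) + (m + 1) * (2 * m + 3) * a ^ m * b) ≤ a * (PQ a b (m + 1)).1 :=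
      mul_le_mul_of_nonneg_left ih ha.le
    have h4 : b * a ^ (m + 1) ≤ b * (PQ a b (m + 1)).1 :=
      mul_le_mul_of_nonneg_left (PQ_lower ha hb (m + 1)).2 hb.le
    have h5 : 2 * b * ((2 * ((m + 1 : ℕ) : ℤ) + 1) * a ^ (m + 1)) ≤ 2 * b * (PQ a b (m + 1)).2 :=
      mul_le_mul_of_nonneg_left h1 (by positivity)
    nlinarith

theorem pow_add_lower {w t : ℤ} (hw : 0 ≤ w) (ht : 0 ≤ t) (m : ℕ) :
    w ^ (m + 1) + (m + 1) * t * w ^ m ≤ (w + t) ^ (m + 1) := by
  induction m with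
  | zero => simp
  | succ m ih =>
    have h1 : (w + t) ^ (m + 1 + 1) = (w + t) * (w + t) ^ (m + 1) := by ring
    rw [h1]
    have h2 : (w + t) * (w ^ (m + 1) + (m + 1) * t * w ^ m) ≤ (w + t) * (w + t) ^ (m + 1) :=
      mul_le_mul_of_nonneg_left ih (by positivity)
    have h3 : 0 ≤ (m + 1) * t * t * w ^ m := by positivity
    have e3 : (w + t) * (w ^ (m + 1) + (m + 1) * t * w ^ m) =
        w ^ (m + 1 + 1) + (((m + 1 : ℕ) : ℤ) + 1) * t * w ^ (m + 1) +
          (m + 1) * t * t * w ^ m := by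
      push_cast; ring
    rw [e3] at h2
    linarith

theorem PQ_upper {a b : ℤ} (ha : 0 < a) (hb : 0 < b) (m : ℕ) :
    (PQ a b m).1 ≤ (a + (2 * m + 1) * b) ^ m ∧
      (PQ a b m).2 ≤ (2 * m + 1) * (a + (2 * m + 1) * b) ^ m := by
  induction m with
  | zero => simp [PQ]
  | succ m ih =>
    obtain ⟨h1, h2⟩ := ih
    set w := a + (2 * (m : ℤ) + 1) * b with hw
    have hw0 : 0 < w := by rw [hw]; positivity
    have e0 : a + (2 * ((m + 1 : ℕ) : ℤ) + 1) * b = w + 2 * b := by rw [hw]; push_cast; ring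
    rw [e0, PQ_succ]
    have hlow := pow_add_lower hw0.le (by positivity : (0 : ℤ) ≤ 2 * b) m
    simp only
    constructor
    · have h3 : (a + b) * (PQ a b m).1 ≤ (a + b) * w ^ m :=
        mul_le_mul_of_nonneg_left h1 (by positivity)
      have h4 : 2 * b * (PQ a b m).2 ≤ 2 * b * ((2 * m + 1) * w ^ m) :=
        mul_le_mul_of_nonneg_left h2 (by positivity)
      have e : (a + b) * w ^ m + 2 * b * ((2 * m + 1) * w ^ m) =
          w ^ (m + 1) + (m + 1) * (2 * b) * w ^ m := by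
        rw [pow_succ, hw]; ring
      linarith
    · have h3 : (a + b) * (PQ a b m).2 ≤ (a + b) * ((2 * m + 1) * w ^ m) :=
        mul_le_mul_of_nonneg_left h2 (by positivity)
      have h4 : 2 * a * (PQ a b m).1 ≤ 2 * a * w ^ m :=
        mul_le_mul_of_nonneg_left h1 (by positivity)
      have h5 : (w : ℤ) ^ m ≤ (w + 2 * b) ^ m := pow_le_pow_left₀ hw0.le (by linarith) m
      have h6 : (a + b) ≤ w + 2 * b := by
        rw [hw]; nlinarith
      have h7 : (a + b) * w ^ m ≤ (w + 2 * b) ^ (m + 1) := by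
        rw [pow_succ, mul_comm ((w + 2 * b) ^ m)]
        exact mul_le_mul h6 h5 (by positivity) (by positivity)
      have e : (a + b) * ((2 * m + 1) * w ^ m) + 2 * a * w ^ m ≤
          (2 * ((m + 1 : ℕ) : ℤ) + 1) * ((a + b) * w ^ m) := by
        have : 0 < 2 * b * w ^ m := by positivity
        push_cast
        nlinarith
      have h8 : (2 * ((m + 1 : ℕ) : ℤ) + 1) * ((a + b) * w ^ m) ≤
          (2 * ((m + 1 : ℕ) : ℤ) + 1) * (w + 2 * b) ^ (m + 1) :=
        mul_le_mul_of_nonneg_left h7 (by positivity)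
      linarith

theorem PQ_upper_lt {a b : ℤ} (ha : 0 < a) (hb : 0 < b) (m : ℕ) (hm : 2 ≤ m) :
    (PQ a b m).1 < (a + (2 * m + 1) * b) ^ m := by
  obtain ⟨k, rfl⟩ : ∃ k, m = k + 2 := ⟨m - 2, by omega⟩
  obtain ⟨h1, h2⟩ := PQ_upper ha hb (k + 1)
  set w := a + (2 * (((k + 1 : ℕ)) : ℤ) + 1) * b with hw
  have hw0 : 0 < w := by rw [hw]; positivity
  have e0 : a + (2 * ((k + 2 : ℕ) : ℤ) + 1) * b = w + 2 * b := by rw [hw]; push_cast; ring
  rw [e0, PQ_succ]
  simp only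
  -- strict lower bound for (w + 2 b) ^ (k + 2)
  have hlow := pow_add_lower hw0.le (by positivity : (0 : ℤ) ≤ 2 * b) k
  have h3 : (a + b) * (PQ a b (k + 1)).1 ≤ (a + b) * w ^ (k + 1) :=
    mul_le_mul_of_nonneg_left h1 (by positivity)
  have h4 : 2 * b * (PQ a b (k + 1)).2 ≤ 2 * b * ((2 * ((k + 1 : ℕ) : ℤ) + 1) * w ^ (k + 1)) :=
    mul_le_mul_of_nonneg_left h2 (by positivity)
  have e : (a + b) * w ^ (k + 1) + 2 * b * ((2 * ((k + 1 : ℕ) : ℤ) + 1) * w ^ (k + 1)) =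
      w ^ (k + 2) + (k + 2) * (2 * b) * w ^ (k + 1) := by
    rw [pow_succ w (k + 1), hw]; push_cast; ring
  have h5 : w ^ (k + 2) + (k + 2) * (2 * b) * w ^ (k + 1) < (w + 2 * b) ^ (k + 2) := by
    have e2 : (w + 2 * b) ^ (k + 2) = (w + 2 * b) * (w + 2 * b) ^ (k + 1) := by ring
    rw [e2]
    have h6 : (w + 2 * b) * (w ^ (k + 1) + (k + 1) * (2 * b) * w ^ k) ≤
        (w + 2 * b) * (w + 2 * b) ^ (k + 1) := mul_le_mul_of_nonneg_left hlow (by positivity)
    have h7 : 0 < (k + 1) * (2 * b) * (2 * b) * w ^ k := by positivity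
    have e3 : (w + 2 * b) * (w ^ (k + 1) + (k + 1) * (2 * b) * w ^ k) =
        w ^ (k + 2) + (k + 2) * (2 * b) * w ^ (k + 1) + (k + 1) * (2 * b) * (2 * b) * w ^ k := by
      ring
    linarith
  linarith

/-- `(a + t) ^ m (a - m t) ≤ a ^ (m + 1)`. -/
theorem pow_add_upper {a t : ℤ} (ha : 0 ≤ a) (ht : 0 ≤ t) (m : ℕ) (hm : m * t ≤ a) :
    (a + t) ^ m * (a - m * t) ≤ a ^ (m + 1) := by
  induction m with
  | zero => simp
  | succ m ih =>
    push_cast at hm ⊢
    have hm' : (m : ℤ) * t ≤ a := by nlinarith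
    have h1 := ih hm'
    have e1 : (a + t) ^ (m + 1) * (a - (m + 1) * t) =
        (a + t) ^ m * ((a + t) * (a - (m + 1) * t)) := by ring
    rw [e1]
    have h2 : (a + t) * (a - (m + 1) * t) ≤ a * (a - m * t) := by
      have : 0 ≤ (m + 1) * t * t := by positivity
      nlinarith
    have h3 : (a + t) ^ m * ((a + t) * (a - (m + 1) * t)) ≤ (a + t) ^ m * (a * (a - m * t)) :=
      mul_le_mul_of_nonneg_left h2 (by positivity)
    have h4 : a * ((a + t) ^ m * (a - m * t)) ≤ a * a ^ (m + 1) := mul_le_mul_of_nonneg_left h1 ha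
    have e2 : a ^ (m + 1 + 1) = a * a ^ (m + 1) := by ring
    rw [e2]
    nlinarith

end Pool.Agent.H48.BN
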