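import Pool.Agent.H48.BN.Shift

set_option autoImplicit false

/-!
# Relations between `2 k`-th roots of unity that are impossible modulo a prime `ℓ > 72 ^ k`
-/

namespace Pool.Agent.H48.BN

open Matrix

/-- A primitive `2 k`-th root of unity modulo `ℓ = 2 k d + 1`. -/
theorem exists_root {l k d : ℕ} [hl : Fact l.Prime] (hk : 0 < k) (hd : 0 < d)
    (hld : l = 2 * k * d + 1) :
    ∃ ζ : ZMod l, ζ ^ k = -1 ∧ ∀ a : ZMod l, a ^ (2 * k) = 1 → ∃ i : ℕ, a = ζ ^ i := by
  obtain ⟨γ, hγ⟩ := IsCyclic.exists_generator (α := (ZMod l)ˣ)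
  have hord : orderOf γ = d * (2 * k) := by
    rw [orderOf_eq_card_of_forall_mem_zpowers hγ, Nat.card_eq_fintype_card, ZMod.card_units]
    rw [hld]
    have : 2 * k * d + 1 - 1 = d * (2 * k) := by
      rw [Nat.add_sub_cancel]; ring
    exact this
  have hprim : IsPrimitiveRoot γ (d * (2 * k)) := by
    rw [← hord]; exact IsPrimitiveRoot.orderOf γ
  have hprim' : IsPrimitiveRoot (γ : ZMod l) (d * (2 * k)) :=
    IsPrimitiveRoot.coe_units_iff.2 hprim
  have hpos : 0 < d * (2 * k) := by positivity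
  have hζ : IsPrimitiveRoot ((γ : ZMod l) ^ d) (2 * k) := hprim'.pow hpos rfl
  refine ⟨(γ : ZMod l) ^ d, ?_, ?_⟩
  · have h1 : (((γ : ZMod l) ^ d) ^ k) ^ 2 = 1 := by
      rw [← pow_mul, mul_comm k 2, hζ.pow_eq_one]
    have h2 : ((γ : ZMod l) ^ d) ^ k ≠ 1 :=
      hζ.pow_ne_one_of_pos_of_lt hk.ne' (by omega)
    have h3 : (((γ : ZMod l) ^ d) ^ k - 1) * (((γ : ZMod l) ^ d) ^ k + 1) = 0 := by
      linear_combination h1
    rcases mul_eq_zero.1 h3 with h | h
    · exact absurd (by linear_combination h) h2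
    · linear_combination h
  · intro a ha
    have hne : NeZero (2 * k) := ⟨by omega⟩
    obtain ⟨i, -, hi⟩ := hζ.eq_pow_of_pow_eq_one ha
    exact ⟨i, hi.symm⟩

section

variable {l k d : ℕ} [hl : Fact l.Prime]

/-- `2 z + a` type combinations do not vanish: the general parity statement. -/
theorem parity_ne_zero [NeZero k] {ζ : ZMod l} {M M' : Matrix (Fin k) (Fin k) ℤ} {z : ZMod l}
    {C : ℤ} {e : ℕ} (hrep : Rep ζ M z) (hrow : RowBd M C) (hM : M = (shift k) ^ e + (2 : ℤ) • M')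
    (hC : C ^ k < l) : z ≠ 0 := by
  rintro rfl
  have hdet : M.det ≠ 0 := by rw [hM]; exact det_ne_zero_of_parity e M'
  exact absurd (le_of_rep_zero hrep hrow hdet) (not_le.2 hC)

omit hl in
theorem pow_lt_of_le {C : ℤ} (hC0 : 0 ≤ C) (hC : C ≤ 72) (hbig : 72 ^ k < l) :
    C ^ k < (l : ℤ) := by
  have h1 : C ^ k ≤ 72 ^ k := pow_le_pow_left₀ hC0 hC k
  have h2 : ((72 : ℤ)) ^ k < l := by exact_mod_cast hbig
  exact lt_of_le_of_lt h1 h2

/-- The list of impossible relations. -/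
structure NoRel (k : ℕ) (F : Type*) [Field F] : Prop where
  r1 : ∀ a b c : F, a ^ (2 * k) = 1 → b ^ (2 * k) = 1 → c ^ (2 * k) = 1 →
    (1 - a) * (1 - b) ^ 2 ≠ 64 * c
  r2 : ∀ a c : F, a ^ (2 * k) = 1 → c ^ (2 * k) = 1 → 4 * (1 + a) ≠ c
  r2' : ∀ c : F, c ^ (2 * k) = 1 → 8 ≠ c
  r3 : ∀ a c : F, a ^ (2 * k) = 1 → c ^ (2 * k) = 1 → 2 * (1 + a) ≠ c
  r4 : ∀ a c : F, a ^ (2 * k) = 1 → c ^ (2 * k) = 1 → 8 * (1 + a) ≠ c
  r4' : ∀ c : F, c ^ (2 * k) = 1 → 64 ≠ c
  r5 : ∀ a b c c' : F, a ^ (2 * k) = 1 → b ^ (2 * k) = 1 → c ^ (2 * k) = 1 →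
    c' ^ (2 * k) = 1 → (4 + a) * (4 + b) ^ 2 = 64 * c → (4 - a) * (4 - b) ^ 2 ≠ 64 * c'
  r5' : ∀ a : F, a ^ (2 * k) = 1 → 4 + a ≠ 0

theorem noRel_of_large (hk : 0 < k) (hd : 0 < d) (hld : l = 2 * k * d + 1) (hbig : 72 ^ k < l) :
    NoRel k (ZMod l) := by
  obtain ⟨ζ, hζ, hall⟩ := exists_root (l := l) hk hd hld
  have hne : NeZero k := ⟨hk.ne'⟩
  have hT := fun e : ℕ => (Rep.shift hζ).pow e
  have hR : ∀ e : ℕ, RowBd ((shift k) ^ e) 1 := fun e => RowBd.shift.pow e
  refine ⟨?_, ?_, ?_, ?_, ?_, ?_, ?_, ?_⟩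
  · -- r1
    intro a b c ha hb hc h
    obtain ⟨i, rfl⟩ := hall a ha
    obtain ⟨j, rfl⟩ := hall b hb
    obtain ⟨e, rfl⟩ := hall c hc
    have hone := Rep.one (k := k) ζ
    have hrep := ((hone.add ((hT i).smul (-1))).mul
      ((hone.add ((hT j).smul (-1))).mul (hone.add ((hT j).smul (-1))))).add ((hT e).smul (-64))
    have hrowS := ((RowBd.one (k := k)).add ((hR i).smul (-1))).mul
      (((RowBd.one (k := k)).add ((hR j).smul (-1))).mul
        ((RowBd.one (k := k)).add ((hR j).smul (-1))))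
    have hrow := hrowS.add ((hR e).smul (-64))
    have hz : ((1 + ((-1 : ℤ) : ZMod l) * ζ ^ i) * ((1 + ((-1 : ℤ) : ZMod l) * ζ ^ j) *
        (1 + ((-1 : ℤ) : ZMod l) * ζ ^ j)) + ((-64 : ℤ) : ZMod l) * ζ ^ e) = 0 := by
      push_cast
      linear_combination h
    rw [hz] at hrep
    have hdet := det_ne_zero_of_dominant (k := k) e hrowS (c := 64) (by norm_num)
    refine absurd (le_of_rep_zero hrep hrow hdet) (not_le.2 ?_)
    exact pow_lt_of_le (by norm_num) (by norm_num) hbig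
  · -- r2
    intro a c ha hc h
    obtain ⟨i, rfl⟩ := hall a ha
    obtain ⟨e, rfl⟩ := hall c hc
    have hrep := (((Rep.one (k := k) ζ).add (hT i)).smul 4).add ((hT e).smul (-1))
    have hrow := (((RowBd.one (k := k)).add (hR i)).smul 4).add ((hR e).smul (-1))
    refine parity_ne_zero hrep hrow (e := e)
      (M' := (2 : ℤ) • (1 + shift k ^ i) - shift k ^ e) ?_ ?_ ?_
    · module
    · exact pow_lt_of_le (by norm_num) (by norm_num) hbig
    · push_cast; linear_combination h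
  · -- r2'
    intro c hc h
    obtain ⟨e, rfl⟩ := hall c hc
    have hrep := ((Rep.one (k := k) ζ).smul 8).add ((hT e).smul (-1))
    have hrow := ((RowBd.one (k := k)).smul 8).add ((hR e).smul (-1))
    refine parity_ne_zero hrep hrow (e := e)
      (M' := (4 : ℤ) • (1 : Matrix (Fin k) (Fin k) ℤ) - shift k ^ e) ?_ ?_ ?_
    · module
    · exact pow_lt_of_le (by norm_num) (by norm_num) hbig
    · push_cast; linear_combination h
  · -- r3
    intro a c ha hc h
    obtain ⟨i, rfl⟩ := hall a ha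
    obtain ⟨e, rfl⟩ := hall c hc
    have hrep := (((Rep.one (k := k) ζ).add (hT i)).smul 2).add ((hT e).smul (-1))
    have hrow := (((RowBd.one (k := k)).add (hR i)).smul 2).add ((hR e).smul (-1))
    refine parity_ne_zero hrep hrow (e := e)
      (M' := (1 + shift k ^ i) - shift k ^ e) ?_ ?_ ?_
    · module
    · exact pow_lt_of_le (by norm_num) (by norm_num) hbig
    · push_cast; linear_combination h
  · -- r4
    intro a c ha hc h
    obtain ⟨i, rfl⟩ := hall a ha
    obtain ⟨e, rfl⟩ := hall c hc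
    have hrep := (((Rep.one (k := k) ζ).add (hT i)).smul 8).add ((hT e).smul (-1))
    have hrow := (((RowBd.one (k := k)).add (hR i)).smul 8).add ((hR e).smul (-1))
    refine parity_ne_zero hrep hrow (e := e)
      (M' := (4 : ℤ) • (1 + shift k ^ i) - shift k ^ e) ?_ ?_ ?_
    · module
    · exact pow_lt_of_le (by norm_num) (by norm_num) hbig
    · push_cast; linear_combination h
  · -- r4'
    intro c hc h
    obtain ⟨e, rfl⟩ := hall c hc
    have hrep := ((Rep.one (k := k) ζ).smul 64).add ((hT e).smul (-1))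
    have hrow := ((RowBd.one (k := k)).smul 64).add ((hR e).smul (-1))
    refine parity_ne_zero hrep hrow (e := e)
      (M' := (32 : ℤ) • (1 : Matrix (Fin k) (Fin k) ℤ) - shift k ^ e) ?_ ?_ ?_
    · module
    · exact pow_lt_of_le (by norm_num) (by norm_num) hbig
    · push_cast; linear_combination h
  · -- r5
    intro a b c c' ha hb hc hc' h h'
    have h2 : (2 : ZMod l) ≠ 0 := by
      have hl3 : 2 < l := by
        have : 72 ^ 1 ≤ 72 ^ k := Nat.pow_le_pow_right (by norm_num) hk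
        omega
      intro h0
      have : l ∣ 2 := (ZMod.natCast_eq_zero_iff 2 l).1 (by exact_mod_cast h0)
      exact absurd (Nat.le_of_dvd (by norm_num) this) (not_le.2 hl3)
    have hrel : b * (16 - a * a) - 4 * (c * (4 - a)) + 4 * (c' * (4 + a)) = 0 := by
      have h16 : (2 : ZMod l) * (2 * (2 * (2 *
          (b * (16 - a * a) - 4 * (c * (4 - a)) + 4 * (c' * (4 + a)))))) = 0 := by
        linear_combination (4 - a) * h - (4 + a) * h'
      have h8 := (mul_eq_zero.1 h16).resolve_left h2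
      have h4 := (mul_eq_zero.1 h8).resolve_left h2
      have h2' := (mul_eq_zero.1 h4).resolve_left h2
      exact (mul_eq_zero.1 h2').resolve_left h2
    obtain ⟨i, rfl⟩ := hall a ha
    obtain ⟨j, rfl⟩ := hall b hb
    obtain ⟨e, rfl⟩ := hall c hc
    obtain ⟨f, rfl⟩ := hall c' hc'
    have h1 := Rep.one (k := k) ζ
    have hrep := (((hT j).mul ((h1.smul 16).add (((hT i).mul (hT i)).smul (-1)))).add
      (((hT e).mul ((h1.smul 4).add ((hT i).smul (-1)))).smul (-4))).add
      (((hT f).mul ((h1.smul 4).add (hT i))).smul 4)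
    have hr1 := RowBd.one (k := k)
    have hrow := (((hR j).mul ((hr1.smul 16).add (((hR i).mul (hR i)).smul (-1)))).add
      (((hR e).mul ((hr1.smul 4).add ((hR i).smul (-1)))).smul (-4))).add
      (((hR f).mul ((hr1.smul 4).add (hR i))).smul 4)
    refine parity_ne_zero hrep hrow (e := j + i + i)
      (M' := (8 : ℤ) • shift k ^ j - shift k ^ j * shift k ^ i * shift k ^ i
        - (8 : ℤ) • shift k ^ e + (2 : ℤ) • (shift k ^ e * shift k ^ i)
        + (8 : ℤ) • shift k ^ f + (2 : ℤ) • (shift k ^ f * shift k ^ i)) ?_ ?_ ?_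
    · rw [pow_add, pow_add]
      noncomm_ring
    · exact pow_lt_of_le (by norm_num) (by norm_num) hbig
    · push_cast; linear_combination hrel
  · -- r5'
    intro a ha h
    obtain ⟨i, rfl⟩ := hall a ha
    have hrep := ((Rep.one (k := k) ζ).smul 4).add (hT i)
    have hrow := ((RowBd.one (k := k)).smul 4).add (hR i)
    refine parity_ne_zero hrep hrow (e := i)
      (M' := (2 : ℤ) • (1 : Matrix (Fin k) (Fin k) ℤ)) ?_ ?_ ?_
    · module
    · exact pow_lt_of_le (by norm_num) (by norm_num) hbig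
    · push_cast; linear_combination h

end

end Pool.Agent.H48.BN
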