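import Mathlib

set_option autoImplicit false

/-!
# Small integer combinations of roots of unity modulo a large prime

`T` is the negacyclic shift matrix.  A relation `p (ζ) = 0` modulo a prime `ℓ` with `ζ ^ k = -1`
gives a matrix `p (T)` whose determinant is divisible by `ℓ`; when the determinant is not zero,
`ℓ` is at most `C ^ k`, where `C` is the sum of the absolute values of the coefficients.
-/

namespace Pool.Agent.H48.BN

open Matrix

/-- The negacyclic shift. -/
def shift (k : ℕ) [NeZero k] : Matrix (Fin k) (Fin k) ℤ :=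
  Matrix.of fun i j => if j = i + 1 then (if (i : ℕ) + 1 = k then -1 else 1) else 0

theorem shift_apply (k : ℕ) [NeZero k] (i j : Fin k) :
    shift k i j = if j = i + 1 then (if (i : ℕ) + 1 = k then (-1 : ℤ) else 1) else 0 := rfl

theorem shift_mul_transpose (k : ℕ) [NeZero k] : shift k * (shift k)ᵀ = 1 := by
  ext i j
  rw [Matrix.mul_apply]
  simp only [Matrix.transpose_apply, shift_apply]
  rw [Finset.sum_eq_single (i + 1)]
  · by_cases hij : i = j
    · subst hij
      simp only [if_true, Matrix.one_apply_eq]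
      split_ifs <;> norm_num
    · have : ¬ (i + 1 = j + 1) := fun h => hij (add_right_cancel h)
      simp [this, Matrix.one_apply_ne hij]
  · intro b _ hb
    simp [hb]
  · intro h; exact absurd (Finset.mem_univ _) h

theorem transpose_mul_shift (k : ℕ) [NeZero k] : (shift k)ᵀ * shift k = 1 :=
  mul_eq_one_comm.1 (shift_mul_transpose k)

/-- All rows have `ℓ¹` norm at most `C`. -/
def RowBd {k : ℕ} (M : Matrix (Fin k) (Fin k) ℤ) (C : ℤ) : Prop := ∀ i, ∑ j, |M i j| ≤ C

theorem RowBd.nonneg {k : ℕ} [NeZero k] {M : Matrix (Fin k) (Fin k) ℤ} {C : ℤ}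
    (h : RowBd M C) : 0 ≤ C :=
  le_trans (Finset.sum_nonneg fun _ _ => abs_nonneg _) (h 0)

theorem RowBd.add {k : ℕ} {M M' : Matrix (Fin k) (Fin k) ℤ} {C C' : ℤ}
    (h : RowBd M C) (h' : RowBd M' C') : RowBd (M + M') (C + C') := by
  intro i
  calc ∑ j, |(M + M') i j| ≤ ∑ j, (|M i j| + |M' i j|) := by
        apply Finset.sum_le_sum
        intro j _
        exact abs_add_le _ _
    _ = ∑ j, |M i j| + ∑ j, |M' i j| := Finset.sum_add_distrib
    _ ≤ C + C' := add_le_add (h i) (h' i)

theorem RowBd.smul {k : ℕ} {M : Matrix (Fin k) (Fin k) ℤ} {C : ℤ}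
    (c : ℤ) (h : RowBd M C) : RowBd (c • M) (|c| * C) := by
  intro i
  calc ∑ j, |(c • M) i j| = ∑ j, |c| * |M i j| := by
        apply Finset.sum_congr rfl
        intro j _
        rw [Matrix.smul_apply, smul_eq_mul, abs_mul]
    _ = |c| * ∑ j, |M i j| := by rw [Finset.mul_sum]
    _ ≤ |c| * C := mul_le_mul_of_nonneg_left (h i) (abs_nonneg _)

theorem RowBd.mul {k : ℕ} [NeZero k] {M M' : Matrix (Fin k) (Fin k) ℤ} {C C' : ℤ}
    (h : RowBd M C) (h' : RowBd M' C') : RowBd (M * M') (C * C') := by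
  intro i
  calc ∑ j, |(M * M') i j| ≤ ∑ j, ∑ l, |M i l| * |M' l j| := by
        apply Finset.sum_le_sum
        intro j _
        rw [Matrix.mul_apply]
        refine (Finset.abs_sum_le_sum_abs _ _).trans (le_of_eq ?_)
        apply Finset.sum_congr rfl
        intro l _
        rw [abs_mul]
    _ = ∑ l, |M i l| * ∑ j, |M' l j| := by
        rw [Finset.sum_comm]
        apply Finset.sum_congr rfl
        intro l _
        rw [Finset.mul_sum]
    _ ≤ ∑ l, |M i l| * C' := by
        apply Finset.sum_le_sum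
        intro l _
        exact mul_le_mul_of_nonneg_left (h' l) (abs_nonneg _)
    _ = (∑ l, |M i l|) * C' := by rw [Finset.sum_mul]
    _ ≤ C * C' := mul_le_mul_of_nonneg_right (h i) h'.nonneg

theorem RowBd.one {k : ℕ} : RowBd (1 : Matrix (Fin k) (Fin k) ℤ) 1 := by
  intro i
  rw [Finset.sum_eq_single i]
  · simp
  · intro j _ hj
    rw [Matrix.one_apply_ne (Ne.symm hj)]; simp
  · intro h; exact absurd (Finset.mem_univ _) h

theorem RowBd.shift {k : ℕ} [NeZero k] : RowBd (shift k) 1 := by
  intro i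
  rw [Finset.sum_eq_single (i + 1)]
  · rw [shift_apply]
    simp only [if_true]
    split_ifs <;> simp
  · intro j _ hj
    rw [shift_apply]; simp [hj]
  · intro h; exact absurd (Finset.mem_univ _) h

theorem RowBd.shiftT {k : ℕ} [NeZero k] : RowBd (Pool.Agent.H48.BN.shift k)ᵀ 1 := by
  intro i
  rw [Finset.sum_eq_single (i - 1)]
  · rw [Matrix.transpose_apply, shift_apply]
    simp only [sub_add_cancel, if_true]
    split_ifs <;> simp
  · intro j _ hj
    rw [Matrix.transpose_apply, shift_apply]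
    have : ¬ (i = j + 1) := by
      intro h
      exact hj (by rw [h]; simp)
    simp [this]
  · intro h; exact absurd (Finset.mem_univ _) h

theorem RowBd.pow {k : ℕ} [NeZero k] {M : Matrix (Fin k) (Fin k) ℤ}
    (h : RowBd M 1) (e : ℕ) : RowBd (M ^ e) 1 := by
  induction e with
  | zero => rw [pow_zero]; exact RowBd.one
  | succ e ih =>
    rw [pow_succ]
    simpa using ih.mul h

/-- The determinant is bounded by the product of the row norms. -/
theorem abs_det_le {k : ℕ} {M : Matrix (Fin k) (Fin k) ℤ} {C : ℤ} (h : RowBd M C) :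
    |M.det| ≤ C ^ k := by
  rw [← Matrix.det_transpose, Matrix.det_apply']
  calc |∑ σ : Equiv.Perm (Fin k), ((Equiv.Perm.sign σ : ℤˣ) : ℤ) * ∏ i, Mᵀ (σ i) i|
      ≤ ∑ σ : Equiv.Perm (Fin k), |((Equiv.Perm.sign σ : ℤˣ) : ℤ) * ∏ i, Mᵀ (σ i) i| :=
        Finset.abs_sum_le_sum_abs _ _
    _ = ∑ σ : Equiv.Perm (Fin k), ∏ i, |M i (σ i)| := by
        apply Finset.sum_congr rfl
        intro σ _
        rw [abs_mul, Finset.abs_prod]
        have : |((Equiv.Perm.sign σ : ℤˣ) : ℤ)| = 1 := by
          rcases Int.units_eq_one_or (Equiv.Perm.sign σ) with h | h <;> rw [h] <;> simp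
        rw [this, one_mul]
        rfl
    _ = ∑ f ∈ Finset.image (fun σ : Equiv.Perm (Fin k) => (fun i => σ i : Fin k → Fin k))
          Finset.univ, ∏ i, |M i (f i)| := by
        rw [Finset.sum_image]
        intro σ _ τ _ hστ
        exact DFunLike.coe_injective hστ
    _ ≤ ∑ f : Fin k → Fin k, ∏ i, |M i (f i)| := by
        apply Finset.sum_le_sum_of_subset_of_nonneg (Finset.subset_univ _)
        intro f _ _
        exact Finset.prod_nonneg fun _ _ => abs_nonneg _
    _ = ∏ i, ∑ j, |M i j| := by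
        rw [Finset.prod_univ_sum, Fintype.piFinset_univ]
    _ ≤ ∏ _i : Fin k, C := by
        apply Finset.prod_le_prod
        · intro i _
          exact Finset.sum_nonneg fun _ _ => abs_nonneg _
        · intro i _
          exact h i
    _ = C ^ k := by rw [Finset.prod_const, Finset.card_univ, Fintype.card_fin]

/-- The vector of the powers of `ζ`. -/
def pvec {F : Type*} [Field F] (k : ℕ) (ζ : F) : Fin k → F := fun i => ζ ^ (i : ℕ)

/-- `M` acts on the vector of powers of `ζ` as the scalar `z`. -/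
def Rep {F : Type*} [Field F] {k : ℕ} (ζ : F) (M : Matrix (Fin k) (Fin k) ℤ) (z : F) : Prop :=
  (M.map (Int.castRingHom F)) *ᵥ pvec k ζ = z • pvec k ζ

theorem Rep.add {F : Type*} [Field F] {k : ℕ} {ζ : F} {M M' : Matrix (Fin k) (Fin k) ℤ} {z z' : F}
    (h : Rep ζ M z) (h' : Rep ζ M' z') : Rep ζ (M + M') (z + z') := by
  unfold Rep at *
  rw [Matrix.map_add _ (fun a b => map_add _ a b), Matrix.add_mulVec, h, h', add_smul]

theorem Rep.mul {F : Type*} [Field F] {k : ℕ} {ζ : F} {M M' : Matrix (Fin k) (Fin k) ℤ} {z z' : F}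
    (h : Rep ζ M z) (h' : Rep ζ M' z') : Rep ζ (M * M') (z * z') := by
  unfold Rep at *
  rw [Matrix.map_mul, ← Matrix.mulVec_mulVec, h', Matrix.mulVec_smul, h, smul_smul, mul_comm]

theorem Rep.smul {F : Type*} [Field F] {k : ℕ} {ζ : F} {M : Matrix (Fin k) (Fin k) ℤ} {z : F}
    (c : ℤ) (h : Rep ζ M z) : Rep ζ (c • M) ((c : F) * z) := by
  unfold Rep at *
  have : (c • M).map (Int.castRingHom F) = (c : F) • (M.map (Int.castRingHom F)) := by
    ext i j
    rw [Matrix.map_apply, Matrix.smul_apply, Matrix.smul_apply, Matrix.map_apply, smul_eq_mul,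
      smul_eq_mul, map_mul]
    rfl
  rw [this, Matrix.smul_mulVec, h, smul_smul]

theorem Rep.one {F : Type*} [Field F] {k : ℕ} (ζ : F) :
    Rep ζ (1 : Matrix (Fin k) (Fin k) ℤ) 1 := by
  unfold Rep
  rw [Matrix.map_one _ (map_zero _) (map_one _), Matrix.one_mulVec, one_smul]

theorem Rep.shift {F : Type*} [Field F] {k : ℕ} [NeZero k] {ζ : F} (hζ : ζ ^ k = -1) :
    Rep ζ (shift k) ζ := by
  unfold Rep
  ext i
  rw [Matrix.mulVec, dotProduct, Finset.sum_eq_single (i + 1)]
  · rw [Matrix.map_apply, shift_apply, Pi.smul_apply, smul_eq_mul]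
    simp only [if_true]
    unfold pvec
    have hi := i.isLt
    by_cases hik : (i : ℕ) + 1 = k
    · have h0 : ((i + 1 : Fin k) : ℕ) = 0 := by
        rw [Fin.val_add, Fin.val_one', Nat.add_mod_mod, hik, Nat.mod_self]
      rw [h0, if_pos hik, pow_zero, mul_one, ← pow_succ', hik, hζ]
      simp
    · have h0 : ((i + 1 : Fin k) : ℕ) = (i : ℕ) + 1 := by
        rw [Fin.val_add, Fin.val_one', Nat.add_mod_mod, Nat.mod_eq_of_lt (by omega)]
      rw [h0, if_neg hik, ← pow_succ']
      simp
  · intro j _ hj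
    rw [Matrix.map_apply, shift_apply, if_neg hj]
    simp
  · intro h; exact absurd (Finset.mem_univ _) h

theorem Rep.pow {F : Type*} [Field F] {k : ℕ} {ζ z : F} {M : Matrix (Fin k) (Fin k) ℤ}
    (h : Rep ζ M z) (e : ℕ) : Rep ζ (M ^ e) (z ^ e) := by
  induction e with
  | zero => rw [pow_zero, pow_zero]; exact Rep.one ζ
  | succ e ih => rw [pow_succ, pow_succ]; exact ih.mul h

/-- If the determinant does not vanish, a vanishing scalar forces `ℓ ≤ C ^ k`. -/
theorem le_of_rep_zero {l k : ℕ} [Fact l.Prime] [NeZero k] {ζ : ZMod l}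
    {M : Matrix (Fin k) (Fin k) ℤ} {C : ℤ} (hrep : Rep ζ M 0) (hrow : RowBd M C)
    (hdet : M.det ≠ 0) : (l : ℤ) ≤ C ^ k := by
  have hz : (M.map (Int.castRingHom (ZMod l))).det = 0 := by
    rw [← Matrix.exists_mulVec_eq_zero_iff]
    refine ⟨pvec k ζ, ?_, ?_⟩
    · intro h
      have := congrFun h 0
      simp [pvec] at this
    · unfold Rep at hrep
      rw [hrep, zero_smul]
  have h1 : ((M.det : ℤ) : ZMod l) = 0 := by
    have := RingHom.map_det (Int.castRingHom (ZMod l)) M
    rw [RingHom.mapMatrix_apply, hz] at this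
    simpa using this
  have h2 : (l : ℤ) ∣ M.det := (ZMod.intCast_zmod_eq_zero_iff_dvd _ _).1 h1
  have h3 : (l : ℤ) ≤ |M.det| := Int.le_of_dvd (abs_pos.2 hdet) ((dvd_abs _ _).2 h2)
  exact h3.trans (abs_det_le hrow)

theorem det_shift_sq (k : ℕ) [NeZero k] : (shift k).det * (shift k).det = 1 := by
  have h := congrArg Matrix.det (shift_mul_transpose k)
  rwa [Matrix.det_mul, Matrix.det_transpose, Matrix.det_one] at h

/-- `T ^ e + 2 M` has odd determinant. -/
theorem det_ne_zero_of_parity {k : ℕ} [NeZero k] (e : ℕ) (M : Matrix (Fin k) (Fin k) ℤ) :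
    ((shift k) ^ e + (2 : ℤ) • M).det ≠ 0 := by
  intro h
  have h1 := congrArg (Int.castRingHom (ZMod 2)) h
  rw [RingHom.map_det, RingHom.mapMatrix_apply, map_zero] at h1
  have h2 : ((shift k) ^ e + (2 : ℤ) • M).map (Int.castRingHom (ZMod 2)) =
      ((shift k) ^ e).map (Int.castRingHom (ZMod 2)) := by
    ext i j
    simp only [Matrix.map_apply, Matrix.add_apply, Matrix.smul_apply, smul_eq_mul, map_add,
      map_mul]
    have : (Int.castRingHom (ZMod 2)) 2 = 0 := by decide
    rw [this]; ring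
  rw [h2, ← RingHom.mapMatrix_apply, ← RingHom.map_det, Matrix.det_pow, map_pow] at h1
  have h3 : (Int.castRingHom (ZMod 2)) (shift k).det * (Int.castRingHom (ZMod 2)) (shift k).det
      = 1 := by rw [← map_mul, det_shift_sq, map_one]
  have h4 : (Int.castRingHom (ZMod 2)) (shift k).det ≠ 0 := by
    intro h0
    rw [h0, mul_zero] at h3
    exact absurd h3 (by decide)
  have hfact : Fact (Nat.Prime 2) := ⟨Nat.prime_two⟩
  exact (pow_ne_zero e h4) h1

/-- `S - c T ^ h` has nonzero determinant when the rows of `S` are small. -/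
theorem det_ne_zero_of_dominant {k : ℕ} [NeZero k] (h : ℕ) {S : Matrix (Fin k) (Fin k) ℤ}
    {C c : ℤ} (hS : RowBd S C) (hc : C < c) : (S + (-c) • (shift k) ^ h).det ≠ 0 := by
  have hc0 : 0 < c := lt_of_le_of_lt hS.nonneg hc
  intro hdet
  have h1 : ((shift k)ᵀ) ^ h * (shift k) ^ h = 1 := by
    rw [← Commute.mul_pow, transpose_mul_shift, one_pow]
    show (shift k)ᵀ * shift k = shift k * (shift k)ᵀ
    rw [transpose_mul_shift, shift_mul_transpose]
  set S' := ((shift k)ᵀ) ^ h * S with hS'
  have hS'row : RowBd S' C := by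
    have := (RowBd.shiftT.pow h).mul hS
    rwa [one_mul] at this
  have hdet' : (S' + (-c) • (1 : Matrix (Fin k) (Fin k) ℤ)).det = 0 := by
    have : S' + (-c) • (1 : Matrix (Fin k) (Fin k) ℤ) =
        ((shift k)ᵀ) ^ h * (S + (-c) • (shift k) ^ h) := by
      rw [mul_add, hS', Matrix.mul_smul, h1]
    rw [this, Matrix.det_mul, hdet, mul_zero]
  rw [← Matrix.exists_mulVec_eq_zero_iff] at hdet'
  obtain ⟨w, hw0, hw⟩ := hdet'
  obtain ⟨i, -, hi⟩ := Finset.exists_max_image Finset.univ (fun i => |w i|) ⟨0, Finset.mem_univ _⟩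
  have hwi : |w i| ≠ 0 := by
    intro h0
    apply hw0
    ext j
    have := hi j (Finset.mem_univ _)
    rw [h0] at this
    have h2 := abs_nonneg (w j)
    have : |w j| = 0 := le_antisymm this h2
    simpa using this
  have h2 : (S' *ᵥ w) i = c * w i := by
    have := congrFun hw i
    rw [Matrix.add_mulVec, Matrix.smul_mulVec, Matrix.one_mulVec] at this
    simp only [Pi.add_apply, Pi.smul_apply, smul_eq_mul, Pi.zero_apply] at this
    linarith
  have h3 : |c * w i| ≤ C * |w i| := by
    rw [← h2, Matrix.mulVec, dotProduct]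
    calc |∑ j, S' i j * w j| ≤ ∑ j, |S' i j| * |w j| := by
          refine (Finset.abs_sum_le_sum_abs _ _).trans (le_of_eq ?_)
          apply Finset.sum_congr rfl
          intro j _
          rw [abs_mul]
      _ ≤ ∑ j, |S' i j| * |w i| := by
          apply Finset.sum_le_sum
          intro j _
          exact mul_le_mul_of_nonneg_left (hi j (Finset.mem_univ _)) (abs_nonneg _)
      _ = (∑ j, |S' i j|) * |w i| := by rw [Finset.sum_mul]
      _ ≤ C * |w i| := mul_le_mul_of_nonneg_right (hS'row i) (abs_nonneg _)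
  rw [abs_mul, abs_of_pos hc0] at h3
  have h4 : 0 < |w i| := lt_of_le_of_ne (abs_nonneg _) (Ne.symm hwi)
  have h5 := lt_of_le_of_lt h3 (mul_lt_mul_of_pos_right hc h4)
  exact lt_irrefl _ h5

end Pool.Agent.H48.BN
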